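import Mathlib
import Pool.Agent.Helper832U.GDC

/-!
A module with a resolution of length `n` has a projective `n`-th iterated kernel module.
-/

set_option autoImplicit false
set_option maxSynthPendingDepth 3
set_option linter.unusedSectionVars false

namespace Pool.Agent.Helper832U.GD

universe u

open ContinuousLinearMap

namespace Bim

variable {A B : Type u} [NonUnitalNormedRing A] [NormedSpace ℂ A] [IsScalarTower ℂ A A]
  [SMulCommClass ℂ A A] [NonUnitalNormedRing B] [NormedSpace ℂ B]

/-- Iterated cosyzygy. -/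
noncomputable def Np : ℕ → Bim A B → Bim A B
  | 0, Z => Z
  | n + 1, Z => (Np n Z).N

/-- Iterated kernel module. -/
noncomputable def Kp : ℕ → Bim A B → Bim A B
  | 0, X => X
  | n + 1, X => (Kp n X).K

lemma Kp_K (n : ℕ) (X : Bim A B) : Kp n X.K = (Kp n X).K := by
  induction n with
  | zero => rfl
  | succ n ih =>
    show (Kp n X.K).K = (Kp n X).K.K
    rw [ih]

lemma RProj.Kp {X : Bim A B} (hX : X.RProj) (n : ℕ) : (Kp n X).RProj := by
  induction n with
  | zero => exact hX
  | succ n ih => exact ih.K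

/-- All morphisms into the cosyzygy of `Y` are coboundaries. -/
def VanY (Y X : Bim A B) : Prop :=
  ∀ f : X.carrier →L[ℂ] Y.N.carrier, IsHom (X := X) (Y := Y.N) f →
    ∃ g : X.carrier →L[ℂ] Y.carrier, IsRight (X := X) (Y := Y) g ∧ ∀ x, delta X Y g x = f x

/-- All morphisms into the `n + 1`-st cosyzygies are coboundaries. -/
def Van (n : ℕ) (X : Bim A B) : Prop := ∀ Z : Bim A B, VanY (Np n Z) X

/-- The adjunction between the kernel module and the cosyzygy. -/
lemma VanY.K {X Y : Bim A B} (h : VanY Y.N X) : VanY Y X.K := by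
  intro f hf
  let F : X.carrier →L[ℂ] Y.N.N.carrier := (X.un Y.N.carrier f).flip
  have hF : ∀ b x, Y.N.ev b (F x) = f (X.tn b x) := fun b x => rfl
  obtain ⟨g, hg, hg'⟩ := h F (by
    refine ⟨fun a x => N_ext (fun b => ?_), fun r x => N_ext (fun b => ?_)⟩
    · rw [ev_left, hF, hF, hF, ← hf.1, tn_left, map_sub]
      abel
    · rw [ev_right, hF, hF, ← tn_right, hf.2])
  let G : A →L[ℂ] X.carrier →L[ℂ] Y.carrier :=
    ContinuousLinearMap.flip (show X.carrier →L[ℂ] A →L[ℂ] Y.carrier from g)
  have hG : ∀ b x, G b x = Y.ev b (g x) := fun b x => rfl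
  refine ⟨-(X.li Y.carrier G), ?_, ?_⟩
  · intro r t
    have : (-(X.li Y.carrier G)).comp (X.K.right r) = (Y.right r).comp (-(X.li Y.carrier G)) :=
      tn_ext (fun b x => by
        rw [comp_apply, comp_apply, tn_right, neg_apply, neg_apply, li_apply, li_apply, hG, hG,
          hg, ev_right, map_neg])
    exact congrArg (fun φ : X.K.carrier →L[ℂ] Y.carrier => φ t) this
  · intro t
    have : delta X.K Y (-(X.li Y.carrier G)) = f := tn_ext (fun c x => N_ext (fun b => by
      have h1 := congrArg (Y.ev b) (congrArg (Y.N.ev c) (hg' x))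
      rw [ev_delta, hF, map_sub, ev_left] at h1
      rw [ev_delta, tn_left, map_sub, neg_apply, neg_apply, neg_apply, li_apply, li_apply,
        li_apply, hG, hG, hG, ← h1, map_neg]
      abel))
    rw [this]

lemma Van.K {n : ℕ} {X : Bim A B} (h : Van (n + 1) X) : Van n X.K :=
  fun Z => VanY.K (Y := Np n Z) (h Z)

lemma Van.Kp {n : ℕ} : ∀ {X : Bim A B}, Van n X → Van 0 (Kp n X) := by
  induction n with
  | zero => exact fun h => h
  | succ n ih =>
    intro X h
    have := ih h.K
    rwa [Kp_K] at this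

lemma projective_of_van {P : Bim A B} (hP : P.RProj) (h : ∀ Z : Bim A B, VanY Z P) :
    P.Projective := by
  refine Projective.of_derivation hP (fun Z D hD hder => ?_)
  let F : P.carrier →L[ℂ] Z.N.carrier := D.flip
  have hF : ∀ a k, Z.ev a (F k) = D a k := fun a k => rfl
  obtain ⟨g, hg, hg'⟩ := h Z F (by
    refine ⟨fun a x => N_ext (fun b => ?_), fun r x => N_ext (fun b => ?_)⟩
    · rw [ev_left]
      show D b (P.left a x) = D (b * a) x - Z.left b (D a x)
      rw [hder]
      abel
    · rw [ev_right]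
      exact hD b r x)
  refine ⟨g, hg, fun a k => ?_⟩
  have := congrArg (Z.ev a) (hg' k)
  have e : Z.ev a (delta P Z g k) = Z.left a (g k) - g (P.left a k) := ev_delta g a k
  exact (this.symm.trans e)

/-- Right-linear splitting of an augmentation. -/
lemma RProj.exists_section {X P : Bim A B} (hX : X.RProj) {ε : Op P X} (hε : IsHom ε)
    (hε' : IsAdmissibleEpi ε) :
    ∃ r : Op X P, IsRight (X := X) (Y := P) r ∧ ∀ x, ε (r x) = x :=
  hX P X ε (ContinuousLinearMap.id ℂ X.carrier) hε hε' (fun _ _ => rfl)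

/-- The projection onto the kernel. -/
noncomputable def kerProj {X P : Bim A B} {ε : Op P X} (hε : IsHom ε) (r : Op X P)
    (hr : ∀ x, ε (r x) = x) : P.carrier →L[ℂ] (ker ε hε).carrier :=
  kerCod ε hε (ContinuousLinearMap.id ℂ P.carrier - r.comp ε) (fun x => by
    rw [sub_apply, comp_apply, map_sub, hr]
    exact sub_self _)

lemma kerVal_kerProj {X P : Bim A B} {ε : Op P X} (hε : IsHom ε) (r : Op X P)
    (hr : ∀ x, ε (r x) = x) (p : P.carrier) :
    kerVal ε hε (kerProj hε r hr p) = p - r (ε p) := rfl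

lemma kerProj_kerVal {X P : Bim A B} {ε : Op P X} (hε : IsHom ε) (r : Op X P)
    (hr : ∀ x, ε (r x) = x) (k : (ker ε hε).carrier) :
    kerProj hε r hr (kerVal ε hε k) = k := by
  apply kerVal_inj
  rw [kerVal_kerProj, map_kerVal, map_zero, sub_zero]

lemma kerProj_right {X P : Bim A B} {ε : Op P X} (hε : IsHom ε) (r : Op X P)
    (hr : ∀ x, ε (r x) = x) (hr' : IsRight (X := X) (Y := P) r) :
    IsRight (X := P) (Y := ker ε hε) (kerProj hε r hr) := by
  intro b p
  apply kerVal_inj
  rw [kerVal_right, kerVal_kerProj, kerVal_kerProj, hε.2, hr', map_sub]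

lemma ker_rproj {X P : Bim A B} (hX : X.RProj) (hP : P.RProj) {ε : Op P X} (hε : IsHom ε)
    (hε' : IsAdmissibleEpi ε) : (ker ε hε).RProj := by
  obtain ⟨r, hr, hr'⟩ := hX.exists_section hε hε'
  intro Y Z σ φ hσ hσ' hφ
  obtain ⟨ψ, h1, h2⟩ := hP Y Z σ (φ.comp (kerProj hε r hr')) hσ hσ' (fun b p => by
    rw [comp_apply, comp_apply, kerProj_right hε r hr' hr, hφ])
  refine ⟨ψ.comp (kerVal ε hε), fun b k => ?_, fun k => ?_⟩
  · rw [comp_apply, comp_apply, kerVal_right, h1]
  · rw [comp_apply, h2, comp_apply, kerProj_kerVal]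

lemma ker_hasResolution {X : Bim A B} {n : ℕ} (R : Cplx X) (h1 : R.IsProjectiveComplex)
    (h2 : R.IsContractingHomotopy) (h3 : ∀ i, n + 1 < i → Subsingleton (R.P i).carrier) :
    (ker R.ε h1.ε_hom).HasResolution n := by
  refine ⟨{ P := fun i => R.P (i + 1), ε := kerCod R.ε h1.ε_hom (R.d 0) h1.ε_d,
            d := fun i => R.d (i + 1), s' := (R.s 0).comp (kerVal R.ε h1.ε_hom),
            s := fun i => R.s (i + 1) }, ⟨?_, ?_, ?_, ?_, ?_⟩, ⟨?_, ?_, ?_⟩, ?_⟩
  · exact fun i => h1.projective (i + 1)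
  · refine ⟨fun a x => kerVal_inj _ _ ?_, fun a x => kerVal_inj _ _ ?_⟩
    · rw [kerVal_left, kerVal_kerCod, kerVal_kerCod]
      exact (h1.d_hom 0).1 a x
    · rw [kerVal_right, kerVal_kerCod, kerVal_kerCod]
      exact (h1.d_hom 0).2 a x
  · exact fun i => h1.d_hom (i + 1)
  · intro x
    apply kerVal_inj
    rw [kerVal_kerCod, map_zero]
    exact h1.d_d 0 x
  · exact fun i x => h1.d_d (i + 1) x
  · intro x
    apply kerVal_inj
    rw [kerVal_kerCod, comp_apply]
    have := h2.h_zero (kerVal R.ε h1.ε_hom x)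
    rw [map_kerVal, map_zero, zero_add] at this
    exact this
  · intro x
    exact h2.h_succ 0 x
  · exact fun i x => h2.h_succ (i + 1) x
  · exact fun i hi => h3 (i + 1) (by omega)

theorem vanY_of_hasResolution_zero {X : Bim A B} (h : X.HasResolution 0) (Z : Bim A B) :
    VanY Z X := by
  obtain ⟨R, h1, h2, h3⟩ := h
  intro f hf
  have hs : ∀ p, R.s' (R.ε p) = p := by
    intro p
    have h4 : Subsingleton (R.P 1).carrier := h3 1 (by norm_num)
    have := h2.h_zero p
    have e : R.s 0 p = 0 := Subsingleton.elim _ _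
    rw [e, map_zero, add_zero] at this
    exact this
  have hl : ∀ a x, R.s' (X.left a x) = (R.P 0).left a (R.s' x) := by
    intro a x
    have : X.left a x = R.ε ((R.P 0).left a (R.s' x)) := by
      rw [h1.ε_hom.1, h2.ε_s]
    rw [this, hs]
  have hr : ∀ a x, R.s' (X.right a x) = (R.P 0).right a (R.s' x) := by
    intro a x
    have : X.right a x = R.ε ((R.P 0).right a (R.s' x)) := by
      rw [h1.ε_hom.2, h2.ε_s]
    rw [this, hs]
  obtain ⟨g, hg, hg'⟩ := (h1.projective 0).exists_delta (Z := Z) (f := f.comp R.ε)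
    ⟨fun a p => by rw [comp_apply, comp_apply, h1.ε_hom.1, hf.1],
      fun a p => by rw [comp_apply, comp_apply, h1.ε_hom.2, hf.2]⟩
  refine ⟨g.comp R.s', fun a x => ?_, fun x => ?_⟩
  · rw [comp_apply, comp_apply, hr]
    exact hg a _
  · have h5 := hg' (R.s' x)
    rw [comp_apply, h2.ε_s] at h5
    rw [← h5]
    refine N_ext (fun c => ?_)
    rw [ev_delta, ev_delta, comp_apply, comp_apply, hl]

theorem vanY_step {X P : Bim A B} (hP : P.Projective) {ε : Op P X} (hε : IsHom ε)
    (r : Op X P) (hr : IsRight (X := X) (Y := P) r) (hr' : ∀ x, ε (r x) = x) (Y : Bim A B)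
    (ih : VanY Y (ker ε hε)) : VanY Y.N X := by
  intro f hf
  obtain ⟨g0, hg0, hg0'⟩ := hP.exists_delta (Z := Y.N) (f := f.comp ε)
    ⟨fun a p => by rw [comp_apply, comp_apply, hε.1, hf.1],
      fun a p => by rw [comp_apply, comp_apply, hε.2, hf.2]⟩
  have k0 : ∀ k : (ker ε hε).carrier, delta P Y.N g0 (kerVal ε hε k) = 0 := fun k => by
    rw [hg0', comp_apply, map_kerVal, map_zero]
  obtain ⟨G, hG, hG'⟩ := ih (g0.comp (kerVal ε hε))
    ⟨fun a k => by
      rw [comp_apply, comp_apply, kerVal_left]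
      exact (delta_eq_zero_iff.1 (k0 k)) a,
      fun a k => by rw [comp_apply, comp_apply, kerVal_right]; exact hg0 a _⟩
  have hq := kerProj_right hε r hr' hr
  have hGq : IsRight (X := P) (Y := Y) (G.comp (kerProj hε r hr')) :=
    fun b p => by rw [comp_apply, comp_apply, hq, hG]
  have hδ : IsHom (X := P) (Y := Y.N) (delta P Y (G.comp (kerProj hε r hr'))) := delta_hom hGq
  have m0 : ∀ k : (ker ε hε).carrier,
      g0 (kerVal ε hε k) - delta P Y (G.comp (kerProj hε r hr')) (kerVal ε hε k) = 0 := by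
    intro k
    rw [sub_eq_zero]
    have e := hG' k
    rw [comp_apply] at e
    rw [← e]
    refine N_ext (fun c => ?_)
    rw [ev_delta, ev_delta, comp_apply, comp_apply, kerProj_kerVal, ← kerVal_left,
      kerProj_kerVal]
  let H0 : P.carrier →L[ℂ] Y.N.carrier := g0 - delta P Y (G.comp (kerProj hε r hr'))
  have hH0 : ∀ p, H0 p = g0 p - delta P Y (G.comp (kerProj hε r hr')) p := fun p => rfl
  have hH0k : ∀ k : (ker ε hε).carrier, H0 (kerVal ε hε k) = 0 := m0
  have hH0r : IsRight (X := P) (Y := Y.N) H0 := by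
    intro b p
    rw [hH0, hH0, map_sub, hg0, hδ.2]
  have hH0d : ∀ p, delta P Y.N H0 p = f (ε p) := by
    intro p
    have e1 := hg0' p
    rw [comp_apply] at e1
    rw [← e1]
    refine N_ext (fun c => ?_)
    rw [ev_delta, ev_delta, hH0, hH0, map_sub, hδ.1]
    abel
  have hfac : ∀ p, H0 (r (ε p)) = H0 p := by
    intro p
    have h' : r (ε p) = p - kerVal ε hε (kerProj hε r hr' p) := by
      rw [kerVal_kerProj]; abel
    rw [h', map_sub, hH0k, sub_zero]
  refine ⟨H0.comp r, fun b x => ?_, fun x => ?_⟩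
  · rw [comp_apply, comp_apply, hr, hH0r]
  · have e1 := hH0d (r x)
    rw [hr'] at e1
    rw [← e1]
    refine N_ext (fun c => ?_)
    rw [ev_delta, ev_delta, comp_apply, comp_apply]
    congr 1
    have e4 : X.left c x = ε (P.left c (r x)) := by
      rw [hε.1, hr']
    rw [e4, hfac]

theorem van_of_hasResolution : ∀ (n : ℕ) {X : Bim A B}, X.RProj → X.HasResolution n → Van n X
  | 0, X, _, h => fun Z => vanY_of_hasResolution_zero h Z
  | n + 1, X, hX, h => by
    obtain ⟨R, h1, h2, h3⟩ := h
    have hε' : IsAdmissibleEpi R.ε := ⟨R.s', h2.ε_s⟩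
    obtain ⟨r, hr, hr'⟩ := hX.exists_section h1.ε_hom hε'
    have ih := van_of_hasResolution n (ker_rproj hX (h1.projective 0).rproj h1.ε_hom hε')
      (ker_hasResolution R h1 h2 h3)
    exact fun Z => vanY_step (h1.projective 0) h1.ε_hom r hr hr' (Np n Z) (ih Z)

/-- A module with a resolution of length `n` has a projective `n`-th iterated kernel module. -/
theorem Kp_projective {n : ℕ} {X : Bim A B} (hX : X.RProj) (h : X.HasResolution n) :
    (Kp n X).Projective :=
  projective_of_van (hX.Kp n) (van_of_hasResolution n hX h).Kp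

theorem hasResolution_of_Kp : ∀ (n : ℕ) {X : Bim A B}, X.RProj → (Kp n X).Projective →
    X.HasResolution n
  | 0, X, _, h => Projective.hasResolution h
  | n + 1, X, hX, h => by
    refine HasResolution.step hX (hasResolution_of_Kp n hX.K ?_)
    rw [Kp_K]
    exact h

/-- A projective module admits a right-linear operator with `a ⊗ x = a T x - T (a x)`. -/
theorem Projective.exists_T {X : Bim A B} (hX : X.Projective) :
    ∃ T : X.carrier →L[ℂ] X.K.carrier, IsRight (X := X) (Y := X.K) T ∧
      ∀ a x, X.tn a x = X.K.left a (T x) - T (X.left a x) := by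
  let f : X.carrier →L[ℂ] X.K.N.carrier := ContinuousLinearMap.flip X.tn
  have hf' : ∀ c x, X.K.ev c (f x) = X.tn c x := fun c x => rfl
  obtain ⟨g, hg, hg'⟩ := hX.exists_delta (Z := X.K) (f := f) (by
    refine ⟨fun a x => N_ext (fun c => ?_), fun r x => N_ext (fun c => ?_)⟩
    · rw [ev_left, hf', hf', hf', tn_left]
      abel
    · rw [ev_right, hf', hf', tn_right])
  refine ⟨g, hg, fun a x => ?_⟩
  rw [← hf', ← hg', ev_delta]

/-- The converse. -/
theorem projective_of_T {X : Bim A B} (hX : X.RProj) (T : X.carrier →L[ℂ] X.K.carrier)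
    (hT : IsRight (X := X) (Y := X.K) T)
    (h : ∀ a x, X.tn a x = X.K.left a (T x) - T (X.left a x)) : X.Projective := by
  refine Projective.of_derivation hX (fun Z D hD hder => ?_)
  have h1 : ∀ (c : A) (t : X.K.carrier), X.li Z.carrier D (X.K.left c t)
      = Z.left c (X.li Z.carrier D t) := by
    intro c t
    have : (X.li Z.carrier D).comp (X.K.left c) = (Z.left c).comp (X.li Z.carrier D) :=
      tn_ext (fun b x => by
        rw [comp_apply, comp_apply, tn_left, map_sub, li_apply, li_apply, li_apply, hder]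
        abel)
    exact congrArg (fun φ : X.K.carrier →L[ℂ] Z.carrier => φ t) this
  have h2 : ∀ (c : B) (t : X.K.carrier), X.li Z.carrier D (X.K.right c t)
      = Z.right c (X.li Z.carrier D t) := by
    intro c t
    have : (X.li Z.carrier D).comp (X.K.right c) = (Z.right c).comp (X.li Z.carrier D) :=
      tn_ext (fun b x => by
        rw [comp_apply, comp_apply, tn_right, li_apply, li_apply]
        exact hD b c x)
    exact congrArg (fun φ : X.K.carrier →L[ℂ] Z.carrier => φ t) this
  refine ⟨(X.li Z.carrier D).comp T, fun b x => ?_, fun a x => ?_⟩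
  · rw [comp_apply, comp_apply, hT, h2]
  · rw [comp_apply, comp_apply, ← h1, ← map_sub, ← h, li_apply]

end Bim

end Pool.Agent.Helper832U.GD
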