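import Mathlib
import Pool.Agent.Helper832U.GDR
import Pool.Agent.Helper832.FLf

/-!
From retracts of unital bimodules over the unitization to the equality of the dimensions.
-/

set_option autoImplicit false
set_option maxSynthPendingDepth 3
set_option linter.unusedSectionVars false

namespace Pool.Agent.Helper832U.GD

universe u

open ContinuousLinearMap WithLp

section

variable {A : Type u} [NonUnitalNormedRing A] [NormedSpace ℂ A] [IsScalarTower ℂ A A]
  [SMulCommClass ℂ A A]
  {V : Type u} [NormedAddCommGroup V] [NormedSpace ℂ V]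

/-- The extension of a bilinear action to the unitization. -/
noncomputable def uext (T : A →L[ℂ] V →L[ℂ] V) :
    WithLp 1 (Unitization ℂ A) →L[ℂ] V →L[ℂ] V :=
  LinearMap.mkContinuous₂
    (LinearMap.mk₂ ℂ (fun b v => (ofLp b).fst • v + T (ofLp b).snd v)
      (by
        intro b b' v
        rw [ofLp_add, Unitization.fst_add, Unitization.snd_add, add_smul, map_add]
        show _ + (T (ofLp b).snd v + T (ofLp b').snd v) = _
        abel)
      (by
        intro c b v
        rw [ofLp_smul, Unitization.fst_smul, Unitization.snd_smul, map_smul, smul_add,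
          smul_assoc]
        rfl)
      (by
        intro b v v'
        rw [smul_add, map_add]
        abel)
      (by
        intro c b v
        rw [map_smul, smul_add, smul_comm])) (1 + ‖T‖)
    (by
      intro b v
      show ‖(ofLp b).fst • v + T (ofLp b).snd v‖ ≤ _
      have h1 : ‖(ofLp b).fst‖ ≤ ‖b‖ := by
        rw [unitization_norm_def]; linarith [norm_nonneg (ofLp b).snd]
      have h2 : ‖(ofLp b).snd‖ ≤ ‖b‖ := by
        rw [unitization_norm_def]; linarith [norm_nonneg (ofLp b).fst]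
      calc ‖(ofLp b).fst • v + T (ofLp b).snd v‖
          ≤ ‖(ofLp b).fst‖ * ‖v‖ + ‖T‖ * ‖(ofLp b).snd‖ * ‖v‖ :=
            (norm_add_le _ _).trans (add_le_add (norm_smul_le _ _) (T.le_opNorm₂ _ _))
        _ ≤ ‖b‖ * ‖v‖ + ‖T‖ * ‖b‖ * ‖v‖ := by gcongr
        _ = _ := by ring)

lemma uext_apply (T : A →L[ℂ] V →L[ℂ] V) (b : WithLp 1 (Unitization ℂ A)) (v : V) :
    uext T b v = (ofLp b).fst • v + T (ofLp b).snd v := rfl

lemma uext_one (T : A →L[ℂ] V →L[ℂ] V) (v : V) : uext T 1 v = v := by
  rw [uext_apply]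
  show (1 : Unitization ℂ A).fst • v + T (1 : Unitization ℂ A).snd v = v
  simp

lemma uext_mul (T : A →L[ℂ] V →L[ℂ] V) (hT : ∀ a b v, T (a * b) v = T a (T b v))
    (b c : WithLp 1 (Unitization ℂ A)) (v : V) : uext T (b * c) v = uext T b (uext T c v) := by
  rw [uext_apply, uext_apply, uext_apply]
  show (ofLp b * ofLp c).fst • v + T (ofLp b * ofLp c).snd v = _
  rw [Unitization.fst_mul, Unitization.snd_mul]
  simp only [map_add, map_smul, add_apply, smul_apply, hT, smul_add, smul_smul]
  abel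

lemma uext_mul' (T : A →L[ℂ] V →L[ℂ] V) (hT : ∀ a b v, T (a * b) v = T b (T a v))
    (b c : WithLp 1 (Unitization ℂ A)) (v : V) : uext T (b * c) v = uext T c (uext T b v) := by
  rw [uext_apply, uext_apply, uext_apply]
  show (ofLp b * ofLp c).fst • v + T (ofLp b * ofLp c).snd v = _
  rw [Unitization.fst_mul, Unitization.snd_mul]
  simp only [map_add, map_smul, add_apply, smul_apply, hT, smul_add, smul_smul]
  rw [mul_comm (ofLp b).fst (ofLp c).fst]
  abel

lemma uext_comm (S T : A →L[ℂ] V →L[ℂ] V) (h : ∀ a b v, S a (T b v) = T b (S a v))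
    (b c : WithLp 1 (Unitization ℂ A)) (v : V) :
    uext S b (uext T c v) = uext T c (uext S b v) := by
  rw [uext_apply, uext_apply, uext_apply, uext_apply]
  simp only [map_add, map_smul, smul_add, h]
  rw [smul_comm (ofLp b).fst (ofLp c).fst]
  abel

lemma uext_uemb (T : A →L[ℂ] V →L[ℂ] V) (a : A) (v : V) :
    uext T (toLp 1 (a : Unitization ℂ A)) v = T a v := by
  rw [uext_apply]
  show (a : Unitization ℂ A).fst • v + T (a : Unitization ℂ A).snd v = _
  simp

end

section Final

/-- The retract theorem for unital bimodules over unital normed algebras, as a statement. -/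
def RetractStatement : Prop :=
  ∀ (E W : Type u) [NormedRing E] [NormedAlgebra ℂ E] [Infinite E]
    [NormedAddCommGroup W] [NormedSpace ℂ W] [CompleteSpace W]
    (l r : E →L[ℂ] W →L[ℂ] W), (∀ w, l 1 w = w) → (∀ w, r 1 w = w) →
    (∀ a b w, l (a * b) w = l a (l b w)) → (∀ a b w, r (a * b) w = r b (r a w)) →
    (∀ a b w, l a (r b w) = r b (l a w)) →
    ∃ (Y X : Type u) (_ : NormedAddCommGroup Y) (_ : NormedSpace ℂ Y) (_ : CompleteSpace Y)
      (_ : NormedAddCommGroup X) (_ : NormedSpace ℂ X) (_ : CompleteSpace X)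
      (lY : E →L[ℂ] Y →L[ℂ] Y) (lX : E →L[ℂ] X →L[ℂ] X)
      (κ : W →L[ℂ] (Y →L[ℂ] X)) (e : (Y →L[ℂ] X) →L[ℂ] W),
      (∀ y, lY 1 y = y) ∧ (∀ a b y, lY (a * b) y = lY a (lY b y)) ∧
      (∀ x, lX 1 x = x) ∧ (∀ a b x, lX (a * b) x = lX a (lX b x)) ∧
      (∀ w, e (κ w) = w) ∧
      (∀ a w y, κ (l a w) y = lX a (κ w y)) ∧ (∀ a w y, κ (r a w) y = κ w (lY a y)) ∧
      (∀ T T' a, (∀ y, T' y = lX a (T y)) → e T' = l a (e T)) ∧
      (∀ T T' a, (∀ y, T' y = T (lY a y)) → e T' = r a (e T))

variable {A : Type u} [NonUnitalNormedRing A] [NormedSpace ℂ A] [IsScalarTower ℂ A A]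
  [SMulCommClass ℂ A A] [CompleteSpace A]

instance : Infinite (WithLp 1 (Unitization ℂ A)) := by
  have h : Function.Injective (fun c : ℂ => c • (1 : WithLp 1 (Unitization ℂ A))) := by
    intro c d hcd
    have h1 := congrArg (fun b : WithLp 1 (Unitization ℂ A) => (ofLp b).fst) hcd
    have h2 : ∀ c : ℂ, (ofLp (c • (1 : WithLp 1 (Unitization ℂ A)))).fst = c := by
      intro c
      rw [ofLp_smul, Unitization.fst_smul]
      show c * (1 : Unitization ℂ A).fst = c
      rw [Unitization.fst_one, mul_one]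
    simp only [h2] at h1
    exact h1
  exact Infinite.of_injective _ h

theorem retract_of_statement (hRT : RetractStatement.{u}) (W : Bim A A) : ∃ (Y X : LMod A)
    (κ : W.carrier →L[ℂ] (Y.carrier →L[ℂ] X.carrier))
    (e : (Y.carrier →L[ℂ] X.carrier) →L[ℂ] W.carrier),
    (∀ a w y, κ (W.left a w) y = X.act a (κ w y)) ∧
    (∀ a w y, κ (W.right a w) y = κ w (Y.act a y)) ∧
    (∀ a T, e ((X.act a).comp T) = W.left a (e T)) ∧
    (∀ a T, e (T.comp (Y.act a)) = W.right a (e T)) ∧
    ∀ w, e (κ w) = w := by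
  obtain ⟨Y, X, i1, i2, i3, j1, j2, j3, lY, lX, κ, e, h1, h2, h3, h4, h5, h6, h7, h8, h9⟩ :=
    hRT (WithLp 1 (Unitization ℂ A)) W.carrier (uext W.left) (uext W.right)
      (uext_one _) (uext_one _) (uext_mul _ W.left_mul) (uext_mul' _ W.right_mul)
      (uext_comm _ _ W.left_right)
  let Y' : LMod A :=
    { carrier := Y
      act := lY.comp Pool.Agent.Helper832.FL.uemb
      act_mul := fun a b x => by
        show lY (Pool.Agent.Helper832.FL.uemb (a * b)) x = lY (Pool.Agent.Helper832.FL.uemb a) (lY (Pool.Agent.Helper832.FL.uemb b) x)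
        rw [Pool.Agent.Helper832.FL.uemb_mul, h2] }
  let X' : LMod A :=
    { carrier := X
      act := lX.comp Pool.Agent.Helper832.FL.uemb
      act_mul := fun a b x => by
        show lX (Pool.Agent.Helper832.FL.uemb (a * b)) x = lX (Pool.Agent.Helper832.FL.uemb a) (lX (Pool.Agent.Helper832.FL.uemb b) x)
        rw [Pool.Agent.Helper832.FL.uemb_mul, h4] }
  have hl : ∀ a w, uext W.left (Pool.Agent.Helper832.FL.uemb a) w = W.left a w := fun a w => uext_uemb W.left a w
  have hr : ∀ a w, uext W.right (Pool.Agent.Helper832.FL.uemb a) w = W.right a w := fun a w => uext_uemb W.right a w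
  refine ⟨Y', X', κ, e, fun a w y => ?_, fun a w y => ?_, fun a T => ?_, fun a T => ?_, h5⟩
  · have := h6 (Pool.Agent.Helper832.FL.uemb a) w y
    rw [hl] at this
    exact this
  · have := h7 (Pool.Agent.Helper832.FL.uemb a) w y
    rw [hr] at this
    exact this
  · have := h8 T ((X'.act a).comp T) (Pool.Agent.Helper832.FL.uemb a) (fun y => rfl)
    rw [hl] at this
    exact this
  · have := h9 T (T.comp (Y'.act a)) (Pool.Agent.Helper832.FL.uemb a) (fun y => rfl)
    rw [hr] at this
    exact this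

theorem isRetract_of_statement (hRT : RetractStatement.{u}) (W : Bim A A) :
    ∃ Y X : Bim A PUnit, Bim.IsRetract W (HB Y X) := by
  obtain ⟨Y, X, κ, e, h1, h2, h3, h4, h5⟩ := retract_of_statement hRT W
  refine ⟨Y.toBim, X.toBim, κ, e, ⟨fun a w => ?_, fun a w => ?_⟩, ⟨h3, h4⟩, h5⟩
  · exact HB_ext (Y := Y.toBim) (X := X.toBim) (fun y => h1 a w y)
  · exact HB_ext (Y := Y.toBim) (X := X.toBim) (fun y => h2 a w y)

theorem dg_eq_db_of_statement (hRT : RetractStatement.{u}) : dg A = db A :=
  dg_eq_db_of_retract (retract_of_statement hRT)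

end Final

end Pool.Agent.Helper832U.GD
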