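import Mathlib
import Pool.Agent.Helper832U.GDC

/-!
Sanity check for the definition of projective modules: a module is projective if and only if every
morphism onto it with a bounded linear right inverse is a retraction.
-/

set_option autoImplicit false
set_option maxSynthPendingDepth 3
set_option linter.unusedSectionVars false

namespace Pool.Agent.Helper832U.GD

universe u

open ContinuousLinearMap

namespace Bim

variable {A B : Type u} [NonUnitalNormedRing A] [NormedSpace ℂ A] [IsScalarTower ℂ A A]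
  [SMulCommClass ℂ A A] [NonUnitalNormedRing B] [NormedSpace ℂ B]

/-- The product of two bimodules. -/
noncomputable def prodBim (X Y : Bim A B) : Bim A B where
  carrier := X.carrier × Y.carrier
  left := (prodMapL ℂ X.carrier X.carrier Y.carrier Y.carrier).comp (X.left.prod Y.left)
  right := (prodMapL ℂ X.carrier X.carrier Y.carrier Y.carrier).comp (X.right.prod Y.right)
  left_mul := fun a b t => Prod.ext (X.left_mul a b t.1) (Y.left_mul a b t.2)
  right_mul := fun a b t => Prod.ext (X.right_mul a b t.1) (Y.right_mul a b t.2)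
  left_right := fun a b t => Prod.ext (X.left_right a b t.1) (Y.left_right a b t.2)

/-- Projectivity in terms of retractions. -/
theorem projective_iff (P : Bim A B) : P.Projective ↔
    ∀ (Y : Bim A B) (φ : Op Y P), IsHom φ → IsAdmissibleEpi φ →
      ∃ ψ : Op P Y, IsHom ψ ∧ ∀ p, φ (ψ p) = p := by
  constructor
  · intro h Y φ hφ hφ'
    exact h Y P φ (ContinuousLinearMap.id ℂ P.carrier) hφ hφ'
      ⟨fun _ _ => rfl, fun _ _ => rfl⟩
  · intro h Y Z σ φ hσ hσ' hφ
    obtain ⟨g, hg⟩ := hσ'
    let δ : Op (prodBim Y P) Z := σ.comp (fst ℂ Y.carrier P.carrier)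
      - φ.comp (snd ℂ Y.carrier P.carrier)
    have hδ' : ∀ t : (prodBim Y P).carrier, δ t = σ (fst ℂ Y.carrier P.carrier t)
        - φ (snd ℂ Y.carrier P.carrier t) := fun t => rfl
    have hδ : IsHom δ := by
      refine ⟨fun a t => ?_, fun a t => ?_⟩
      · show σ (Y.left a _) - φ (P.left a _) = Z.left a (σ _ - φ _)
        rw [hσ.1, hφ.1, map_sub]
      · show σ (Y.right a _) - φ (P.right a _) = Z.right a (σ _ - φ _)
        rw [hσ.2, hφ.2, map_sub]
    let pr : Op (ker δ hδ) P := (snd ℂ Y.carrier P.carrier).comp (kerVal δ hδ)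
    obtain ⟨ψ, h1, h2⟩ := h (ker δ hδ) pr
      ⟨fun a t => rfl, fun a t => rfl⟩
      ⟨kerCod δ hδ ((g.comp φ).prod (ContinuousLinearMap.id ℂ P.carrier)) (fun p => by
        rw [hδ']
        show σ (g (φ p)) - φ p = 0
        rw [hg, sub_self]), fun y => rfl⟩
    have h3 : ∀ t : (ker δ hδ).carrier, σ (fst ℂ Y.carrier P.carrier (kerVal δ hδ t))
        = φ (snd ℂ Y.carrier P.carrier (kerVal δ hδ t)) := by
      intro t
      have := map_kerVal δ hδ t
      rw [hδ', sub_eq_zero] at this
      exact this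
    refine ⟨((fst ℂ Y.carrier P.carrier).comp (kerVal δ hδ)).comp ψ, ⟨fun a p => ?_,
      fun a p => ?_⟩, fun p => ?_⟩
    · rw [comp_apply, comp_apply, comp_apply, comp_apply, h1.1]
      rfl
    · rw [comp_apply, comp_apply, comp_apply, comp_apply, h1.2]
      rfl
    · exact (h3 (ψ p)).trans (congrArg φ (h2 p))

end Bim

namespace LMod

variable {A : Type u} [NonUnitalNormedRing A] [NormedSpace ℂ A] [IsScalarTower ℂ A A]
  [SMulCommClass ℂ A A]

/-- Projectivity in terms of retractions. -/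
theorem projective_iff (P : LMod A) : P.Projective ↔
    ∀ (Y : LMod A) (φ : Op Y P), IsHom φ → IsAdmissibleEpi φ →
      ∃ ψ : Op P Y, IsHom ψ ∧ ∀ p, φ (ψ p) = p := by
  constructor
  · intro h Y φ hφ hφ'
    exact h Y P φ (ContinuousLinearMap.id ℂ P.carrier) hφ hφ' (fun _ _ => rfl)
  · intro h
    have h1 : P.toBim.Projective := by
      rw [Bim.projective_iff]
      intro Y φ hφ hφ'
      obtain ⟨ψ, h2, h3⟩ := h Y.toLMod φ hφ.1 hφ'
      exact ⟨ψ, (Bim.isHom_iff (X := P.toBim) (Y := Y) ψ).2 h2, h3⟩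
    intro Y Z σ φ hσ hσ' hφ
    obtain ⟨ψ, h2, h3⟩ := h1 Y.toBim Z.toBim σ φ
      ((Bim.isHom_iff (X := Y.toBim) (Y := Z.toBim) σ).2 hσ) hσ'
      ((Bim.isHom_iff (X := P.toBim) (Y := Z.toBim) φ).2 hφ)
    exact ⟨ψ, h2.1, h3⟩

end LMod

end Pool.Agent.Helper832U.GD
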