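import Mathlib
import Pool.Agent.Helper832.Blk

set_option autoImplicit false
set_option linter.all false

namespace Pool.Agent.Helper832U.RT

universe u

section Job14539

open Filter Set Cardinal

/-- A family of functions indexed by `J` with values in `T` is independent modulo the filter `D`,
off the set `N` of used indices: every set of `D` meets every finite cylinder off `N`. -/
def Ind {Q J T : Type u} (f : J → Q → T) (D : Filter Q) (N : Set J) : Prop :=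
  ∀ X ∈ D, ∀ (s : Finset J) (t : J → T), (∀ j ∈ s, j ∉ N) → ∃ x ∈ X, ∀ j ∈ s, f j x = t j

/-- TARGET 1 (Engelking-Karlowicz): on a set `Q` of the same size as `Λ` there is an independent
family indexed by `Set Λ` with values in `Finset Λ`. -/
theorem exists_indep (Λ : Type u) [Infinite Λ] :
    ∃ (Q : Type u) (f : Set Λ → Q → Finset Λ), #Q = #Λ ∧ Ind f ⊤ ∅ := by
  classical
  refine ⟨Finset Λ × Finset (Finset Λ × Finset Λ), fun B q =>
    if h : ∃ t, (q.1.filter (· ∈ B), t) ∈ q.2 then h.choose else ∅, ?_, ?_⟩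
  · have h1 : #(Finset Λ) = #Λ := mk_finset_of_infinite Λ
    have h2 : #Λ * #Λ = #Λ := mul_eq_self (aleph0_le_mk Λ)
    have h3 : #(Finset Λ × Finset Λ) = #Λ := by
      simp only [mk_prod, lift_id, h1, h2]
    have h4 : #(Finset (Finset Λ × Finset Λ)) = #Λ := by
      rw [mk_finset_of_infinite, h3]
    simp only [mk_prod, lift_id, h1, h4, h2]
  · intro X hX s t _
    rw [Filter.mem_top] at hX
    subst hX
    have hd : ∀ B B' : Set Λ, ∃ x : Λ, B ≠ B' → ¬ (x ∈ B ↔ x ∈ B') := by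
      intro B B'
      by_cases h : B = B'
      · exact ⟨Classical.arbitrary Λ, fun h' => absurd h h'⟩
      · by_contra hcon
        push Not at hcon
        exact h (Set.ext fun x => (hcon x).2)
    choose d hd using hd
    obtain ⟨S, hS⟩ : ∃ S : Finset Λ, S = (s ×ˢ s).image (fun p => d p.1 p.2) := ⟨_, rfl⟩
    have hsep : ∀ B ∈ s, ∀ B' ∈ s, S.filter (· ∈ B) = S.filter (· ∈ B') → B = B' := by
      intro B hB B' hB' h
      by_contra hne
      apply hd B B' hne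
      have hm : d B B' ∈ S := by
        rw [hS, Finset.mem_image]
        exact ⟨(B, B'), Finset.mem_product.mpr ⟨hB, hB'⟩, rfl⟩
      have h2 : d B B' ∈ S.filter (· ∈ B) ↔ d B B' ∈ S.filter (· ∈ B') := by rw [h]
      rw [Finset.mem_filter, Finset.mem_filter] at h2
      simpa [hm] using h2
    refine ⟨(S, s.image (fun B => (S.filter (· ∈ B), t B))), Set.mem_univ _, fun B hB => ?_⟩
    have hex : ∃ u, (S.filter (· ∈ B), u) ∈ s.image (fun B => (S.filter (· ∈ B), t B)) :=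
      ⟨t B, Finset.mem_image.mpr ⟨B, hB, rfl⟩⟩
    have hch := hex.choose_spec
    show (if h : ∃ u, (S.filter (· ∈ B), u) ∈ s.image (fun B => (S.filter (· ∈ B), t B))
      then h.choose else ∅) = t B
    rw [dif_pos hex]
    obtain ⟨B', hB', he⟩ := Finset.mem_image.mp hch
    rw [Prod.mk.injEq] at he
    have hBB := hsep B' hB' B hB he.1
    subst hBB
    exact he.2.symm

end Job14539

section Job14541

open Filter Set Cardinal

/-- TARGET 2: deciding a set uses finitely many functions. -/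
theorem decide_step {Q J T : Type u} (f : J → Q → T) (D : Filter Q) (N : Set J) (h : Ind f D N)
    (S : Set Q) : ∃ (E : Filter Q) (s : Finset J), Ind f (D ⊓ E) (N ∪ s) ∧
      (S ∈ D ⊓ E ∨ Sᶜ ∈ D ⊓ E) := by
  classical
  by_cases hc : Ind f (D ⊓ 𝓟 S) N
  · refine ⟨𝓟 S, ∅, ?_, Or.inl (mem_inf_of_right (mem_principal_self S))⟩
    simpa using hc
  · unfold Ind at hc
    push Not at hc
    obtain ⟨X, hX, s, t, hs, hno⟩ := hc
    rw [mem_inf_principal] at hX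
    let C : Set Q := {x | ∀ j ∈ s, f j x = t j}
    refine ⟨𝓟 C, s, ?_, Or.inr ?_⟩
    · intro Y hY s2 t2 hs2
      rw [mem_inf_principal] at hY
      obtain ⟨x, hx, hx2⟩ := h _ hY (s ∪ s2) (fun j => if j ∈ s then t j else t2 j) (by
        intro j hj
        rcases Finset.mem_union.1 hj with h1 | h1
        · exact hs j h1
        · exact fun h2 => hs2 j h1 (Or.inl h2))
      have hxC : x ∈ C := fun j hj => by
        have := hx2 j (Finset.mem_union_left _ hj)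
        rwa [if_pos hj] at this
      refine ⟨x, hx hxC, fun j hj => ?_⟩
      have hjs : j ∉ s := fun h2 => hs2 j hj (Or.inr h2)
      have := hx2 j (Finset.mem_union_right _ hj)
      rwa [if_neg hjs] at this
    · rw [mem_inf_principal]
      filter_upwards [hX] with x hx hxC hxS
      obtain ⟨j, hj, hne⟩ := hno x (hx hxS)
      exact hne (hxC j hj)

end Job14541

section Job14543

open Filter Set Cardinal

/-- TARGET 3: a refinement uses one function. -/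
theorem refine_step {Q J Λ : Type u} [Nonempty Λ] (f : J → Q → Finset Λ) (D : Filter Q) (N : Set J)
    (h : Ind f D N) (j : J) (hj : j ∉ N) (A : Finset Λ → Set Q) (hA : ∀ F, A F ∈ D) :
    ∃ E : Filter Q, Ind f (D ⊓ E) (N ∪ {j}) ∧
      ∃ g : Q → Finset Λ, (∀ l, {q | l ∈ g q} ∈ D ⊓ E) ∧ {q | q ∈ A (g q)} ∈ D ⊓ E := by
  classical
  let A2 : Finset Λ → Set Q := fun F => ⋂ G ∈ F.powerset, A G
  have hA2 : ∀ F, A2 F ∈ D := fun F => (Filter.biInter_finset_mem _).2 fun G _ => hA G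
  have hA2A : ∀ F, A2 F ⊆ A F := by
    intro F q hq
    exact Set.mem_iInter₂.1 hq F (Finset.mem_powerset_self F)
  let RR : Finset Λ → Set Q := fun t => {q | q ∈ A2 (f j q) ∧ t ⊆ f j q}
  let E : Filter Q := ⨅ t, 𝓟 (RR t)
  have hdir : Directed (· ≥ ·) fun t => 𝓟 (RR t) := by
    intro t1 t2
    refine ⟨t1 ∪ t2, ?_, ?_⟩
    · exact Filter.principal_mono.2 fun q hq => ⟨hq.1, Finset.union_subset_left hq.2⟩
    · exact Filter.principal_mono.2 fun q hq => ⟨hq.1, Finset.union_subset_right hq.2⟩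
  have hRE : ∀ t, RR t ∈ E := fun t => Filter.mem_iInf_of_mem t (Filter.mem_principal_self _)
  refine ⟨E, ?_, f j, ?_, ?_⟩
  · intro X hX s t hs
    obtain ⟨X0, hX0, Y, hY, hXY⟩ := Filter.mem_inf_iff_superset.1 hX
    obtain ⟨t0, ht0⟩ := (Filter.mem_iInf_of_directed hdir Y).1 hY
    rw [Filter.mem_principal] at ht0
    obtain ⟨x, hx, hxs⟩ := h (X0 ∩ A2 t0) (Filter.inter_mem hX0 (hA2 t0)) (insert j s)
      (Function.update t j t0) (by
        intro i hi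
        rcases Finset.mem_insert.1 hi with h1 | h1
        · rw [h1]; exact hj
        · exact fun h2 => hs i h1 (Or.inl h2))
    have hfj : f j x = t0 := by
      have h1 := hxs j (Finset.mem_insert_self _ _)
      rwa [Function.update_self] at h1
    refine ⟨x, hXY ⟨hx.1, ht0 ⟨?_, ?_⟩⟩, ?_⟩
    · rw [hfj]; exact hx.2
    · rw [hfj]
    · intro i hi
      have hij : i ≠ j := by
        rintro rfl
        exact hs i hi (Or.inr rfl)
      have h1 := hxs i (Finset.mem_insert_of_mem hi)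
      rwa [Function.update_of_ne hij] at h1
  · intro l
    refine Filter.mem_inf_of_right (Filter.mem_of_superset (hRE {l}) ?_)
    intro q hq
    exact hq.2 (Finset.mem_singleton_self l)
  · refine Filter.mem_inf_of_right (Filter.mem_of_superset (hRE ∅) ?_)
    intro q hq
    exact hA2A _ hq.1

end Job14543

section Job14546

open Filter Set Cardinal

theorem gu_anti {Q I : Type u} [LinearOrder I] (E : I → Filter Q) {j m : I} (hjm : j ≤ m) :
    (⨅ k ∈ Iio m, E k) ⊓ E m ≤ (⨅ k ∈ Iio j, E k) ⊓ E j := by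
  rcases hjm.eq_or_lt with rfl | h
  · exact le_rfl
  · refine inf_le_left.trans (le_inf (le_iInf₂ fun k hk => iInf₂_le k ?_) (iInf₂_le j h))
    exact lt_trans hk h

theorem gu_lim {Q J T I : Type u} [LinearOrder I] (f : J → Q → T) (h0 : Ind f ⊤ ∅)
    (E : I → Filter Q) (s : I → Finset J) (S : Set I) (hS : ∀ j ∈ S, ∀ k < j, k ∈ S)
    (h : ∀ j ∈ S, Ind f ((⨅ k ∈ Iio j, E k) ⊓ E j) ((⋃ k ∈ Iio j, (s k : Set J)) ∪ s j)) :
    Ind f (⨅ j ∈ S, E j) (⋃ j ∈ S, (s j : Set J)) := by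
  intro X hX t u ht
  rcases S.eq_empty_or_nonempty with hS0 | hne
  · subst hS0
    refine h0 X ?_ t u (fun j _ => Set.notMem_empty j)
    simpa using hX
  · have e : ⨅ j ∈ S, E j = ⨅ j ∈ S, ((⨅ k ∈ Iio j, E k) ⊓ E j) := by
      apply le_antisymm
      · exact le_iInf₂ fun j hj => le_inf (le_iInf₂ fun k hk => iInf₂_le k (hS j hj k hk))
          (iInf₂_le j hj)
      · exact le_iInf₂ fun j hj => (iInf₂_le j hj).trans inf_le_right
    rw [e, mem_biInf_of_directed ?_ hne] at hX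
    · obtain ⟨j, hj, hXj⟩ := hX
      refine h j hj X hXj t u (fun l hl hmem => ht l hl ?_)
      rcases hmem with hmem | hmem
      · simp only [mem_iUnion] at hmem ⊢
        obtain ⟨k, hk, hlk⟩ := hmem
        exact ⟨k, hS j hj k hk, hlk⟩
      · simp only [mem_iUnion]
        exact ⟨j, hj, hmem⟩
    · intro a ha b hb
      refine ⟨max a b, ?_, gu_anti E (le_max_left a b), gu_anti E (le_max_right a b)⟩
      rcases max_choice a b with h1 | h1 <;> rw [h1]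
      · exact ha
      · exact hb

theorem gu_rec {Q J T I : Type u} [LinearOrder I] [WellFoundedLT I] (f : J → Q → T)
    (h0 : Ind f ⊤ ∅)
    (hcard : ∀ (i : I) (s : I → Finset J), (⋃ j ∈ Iio i, (s j : Set J)) ≠ Set.univ)
    (P : I → Filter Q → Filter Q → Prop)
    (hP : ∀ (i : I) (D : Filter Q) (N : Set J), Ind f D N → N ≠ Set.univ →
      ∃ (E : Filter Q) (s : Finset J), Ind f (D ⊓ E) (N ∪ s) ∧ P i D (D ⊓ E)) :
    ∃ (E : I → Filter Q) (s : I → Finset J), ∀ i,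
      Ind f ((⨅ j ∈ Iio i, E j) ⊓ E i) ((⋃ j ∈ Iio i, (s j : Set J)) ∪ s i) ∧
      P i (⨅ j ∈ Iio i, E j) ((⨅ j ∈ Iio i, E j) ⊓ E i) := by
  classical
  let step : ∀ i : I, (∀ j, j < i → Filter Q × Finset J) → Filter Q × Finset J := fun i prev =>
    if H : ∃ p : Filter Q × Finset J,
      Ind f ((⨅ j, ⨅ h : j < i, (prev j h).1) ⊓ p.1)
        ((⋃ j, ⋃ h : j < i, ((prev j h).2 : Set J)) ∪ p.2) ∧
      P i (⨅ j, ⨅ h : j < i, (prev j h).1) ((⨅ j, ⨅ h : j < i, (prev j h).1) ⊓ p.1)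
    then H.choose else (⊤, ∅)
  let p : I → Filter Q × Finset J := (wellFounded_lt (α := I)).fix step
  have hp : ∀ i, p i = step i (fun j _ => p j) := fun i => (wellFounded_lt (α := I)).fix_eq step i
  have key : ∀ i, Ind f (⨅ j ∈ Iio i, (p j).1) (⋃ j ∈ Iio i, ((p j).2 : Set J)) →
      Ind f ((⨅ j ∈ Iio i, (p j).1) ⊓ (p i).1) ((⋃ j ∈ Iio i, ((p j).2 : Set J)) ∪ (p i).2) ∧
      P i (⨅ j ∈ Iio i, (p j).1) ((⨅ j ∈ Iio i, (p j).1) ⊓ (p i).1) := by
    intro i hi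
    obtain ⟨E, s, h1, h2⟩ := hP i _ _ hi (hcard i (fun j => (p j).2))
    have H : ∃ p' : Filter Q × Finset J,
      Ind f ((⨅ j, ⨅ h : j < i, (p j).1) ⊓ p'.1)
        ((⋃ j, ⋃ h : j < i, ((p j).2 : Set J)) ∪ p'.2) ∧
      P i (⨅ j, ⨅ h : j < i, (p j).1) ((⨅ j, ⨅ h : j < i, (p j).1) ⊓ p'.1) := ⟨(E, s), h1, h2⟩
    have hs := H.choose_spec
    have e : p i = H.choose := by
      rw [hp i]
      exact dif_pos H
    rw [e]
    exact hs
  have ind : ∀ i, Ind f (⨅ j ∈ Iio i, (p j).1) (⋃ j ∈ Iio i, ((p j).2 : Set J)) := by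
    intro i
    induction i using WellFoundedLT.induction with
    | _ i ih =>
      exact gu_lim f h0 (fun j => (p j).1) (fun j => (p j).2) (Iio i)
        (fun j hj k hk => lt_trans hk hj) (fun j hj => (key j (ih j hj)).1)
  exact ⟨fun j => (p j).1, fun j => (p j).2, fun i => key i (ind i)⟩

/-- TARGET: existence of a good ultrafilter (Kunen), in the form of a selection principle. -/
theorem exists_good (Λ : Type u) [Infinite Λ] :
    ∃ (Q : Type u) (U : Ultrafilter Q), ∀ S : Finset Λ → Set Q, (∀ F, S F ∈ U) →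
      ∃ g : Q → Finset Λ, (∀ l, ∀ᶠ q in (U : Filter Q), l ∈ g q) ∧
        ∀ᶠ q in (U : Filter Q), q ∈ S (g q) := by
  obtain ⟨Q, f, hQ, hf⟩ := exists_indep Λ
  have hℵ : ℵ₀ ≤ #Λ := aleph0_le_mk Λ
  obtain ⟨κ, hκ⟩ : ∃ κ, κ = #(Set Λ) := ⟨_, rfl⟩
  have hΛκ : #Λ < κ := by rw [hκ, mk_set]; exact cantor _
  have hℵκ : ℵ₀ < κ := lt_of_le_of_lt hℵ hΛκ
  have hT : #(Finset Λ → Set Q) = κ := by
    rw [← power_def, mk_set, mk_finset_of_infinite, hQ, ← power_mul, mul_eq_self hℵ, hκ, mk_set]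
  obtain ⟨e₁⟩ : Nonempty (κ.ord.ToType ≃ (Finset Λ → Set Q)) :=
    Cardinal.eq.1 (by rw [hT, mk_ord_toType])
  obtain ⟨e₂⟩ : Nonempty ((#Λ).ord.ToType ≃ Finset Λ) :=
    Cardinal.eq.1 (by rw [mk_ord_toType, mk_finset_of_infinite])
  have hIic : ∀ a : κ.ord.ToType, #(Iic a) < κ := by
    intro a
    rw [← Set.Iio_insert]
    refine (mk_insert_le).trans_lt (add_lt_of_lt hℵκ.le (mk_Iio_toType_ord_lt a) ?_)
    exact one_lt_aleph0.trans hℵκ
  have hI2 : #(WithTop (#Λ).ord.ToType) < κ := by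
    have : #(WithTop (#Λ).ord.ToType) = #Λ + 1 := by
      have h1 : #(Option (#Λ).ord.ToType) = #Λ + 1 := by rw [mk_option, mk_ord_toType]
      exact h1
    rw [this]
    exact add_lt_of_lt hℵκ.le hΛκ (one_lt_aleph0.trans hℵκ)
  have hIio : ∀ i : κ.ord.ToType ×ₗ WithTop (#Λ).ord.ToType, #(Iio i) < κ := by
    intro i
    have h1 : #(Iio i) ≤ #((Iic (ofLex i).1) × WithTop (#Λ).ord.ToType) := by
      refine mk_le_of_injective (f := fun x : Iio i =>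
        ((⟨(ofLex x.1).1, ?_⟩ : Iic (ofLex i).1), (ofLex x.1).2)) ?_
      · have hx : x.1 < i := x.2
        rw [Prod.Lex.lt_iff] at hx
        rcases hx with hx | hx
        · exact hx.le
        · exact hx.1.le
      · intro x y hxy
        simp only [Prod.mk.injEq, Subtype.mk.injEq] at hxy
        exact Subtype.ext (ofLex.injective (Prod.ext hxy.1 hxy.2))
    refine h1.trans_lt ?_
    rw [← mul_def]
    exact mul_lt_of_lt hℵκ.le (hIic _) hI2
  have hcard : ∀ (i : κ.ord.ToType ×ₗ WithTop (#Λ).ord.ToType)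
      (s : κ.ord.ToType ×ₗ WithTop (#Λ).ord.ToType → Finset (Set Λ)),
      (⋃ j ∈ Iio i, (s j : Set (Set Λ))) ≠ Set.univ := by
    intro i s h
    have h1 : #(⋃ j ∈ Iio i, (s j : Set (Set Λ)) : Set (Set Λ)) < κ := by
      rw [biUnion_eq_iUnion]
      refine (mk_iUnion_le _).trans_lt (mul_lt_of_lt hℵκ.le (hIio i) ?_)
      refine lt_of_le_of_lt (ciSup_le' fun j => ?_) hℵκ
      exact (lt_aleph0_of_finite _).le
    rw [h, mk_univ, hκ] at h1
    exact lt_irrefl _ h1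
  obtain ⟨E, s, hE⟩ := gu_rec (I := κ.ord.ToType ×ₗ WithTop (#Λ).ord.ToType) f hf hcard
    (fun i D D' =>
      (∀ x : (#Λ).ord.ToType, (ofLex i).2 = ↑x →
        (e₁ (ofLex i).1) (e₂ x) ∈ D' ∨ ((e₁ (ofLex i).1) (e₂ x))ᶜ ∈ D') ∧
      ((ofLex i).2 = ⊤ → (∀ F, (e₁ (ofLex i).1) F ∈ D) →
        ∃ g : Q → Finset Λ, (∀ l, {q | l ∈ g q} ∈ D') ∧
          {q | q ∈ (e₁ (ofLex i).1) (g q)} ∈ D'))
    (by
      intro i D N hI hN
      obtain ⟨w, hw⟩ : ∃ w, w = (ofLex i).2 := ⟨_, rfl⟩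
      rw [← hw]
      induction w using WithTop.recTopCoe with
      | top =>
        by_cases hA : ∀ F, (e₁ (ofLex i).1) F ∈ D
        · obtain ⟨j, hj⟩ := (Set.ne_univ_iff_exists_notMem N).1 hN
          obtain ⟨E, h1, g, h2, h3⟩ := refine_step f D N hI j hj _ hA
          refine ⟨E, {j}, by simpa using h1, fun x hx => absurd hx WithTop.top_ne_coe,
            fun _ _ => ⟨g, h2, h3⟩⟩
        · refine ⟨⊤, ∅, by simpa using hI, fun x hx => absurd hx WithTop.top_ne_coe,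
            fun _ h => absurd h hA⟩
      | coe x =>
        obtain ⟨E, s, h1, h2⟩ := decide_step f D N hI ((e₁ (ofLex i).1) (e₂ x))
        refine ⟨E, s, h1, fun y hy => ?_, fun h => absurd h WithTop.coe_ne_top⟩
        have : x = y := WithTop.coe_injective hy
        rw [← this]
        exact h2)
  have hle : ∀ i, (⨅ j, E j) ≤ (⨅ j ∈ Iio i, E j) ⊓ E i := fun i =>
    le_inf (le_iInf₂ fun k _ => iInf_le _ k) (iInf_le _ i)
  have hfin := gu_lim f hf E s Set.univ (fun _ _ _ _ => mem_univ _) (fun j _ => (hE j).1)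
  have hinf : ⨅ j ∈ (Set.univ : Set (κ.ord.ToType ×ₗ WithTop (#Λ).ord.ToType)), E j = ⨅ j, E j := by
    simp
  rw [hinf] at hfin
  have hemp : ∅ ∉ (⨅ j, E j) := by
    intro h
    obtain ⟨x, hx, -⟩ := hfin ∅ h ∅ (fun _ => ∅) (by simp)
    exact hx
  have hdec : ∀ S : Set Q, S ∈ (⨅ j, E j) ∨ Sᶜ ∈ (⨅ j, E j) := by
    intro S
    have h1 := (hE (toLex (e₁.symm (fun _ => S), ((e₂.symm ∅ : (#Λ).ord.ToType) :
      WithTop (#Λ).ord.ToType)))).2.1 (e₂.symm ∅) rfl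
    simp only [ofLex_toLex, Equiv.apply_symm_apply] at h1
    rcases h1 with h1 | h1
    · exact Or.inl (hle _ h1)
    · exact Or.inr (hle _ h1)
  have hnot : ∀ S : Set Q, S ∈ (⨅ j, E j) → Sᶜ ∉ (⨅ j, E j) := by
    intro S h1 h2
    refine hemp ?_
    have := inter_mem h1 h2
    rwa [inter_compl_self] at this
  refine ⟨Q, Ultrafilter.ofComplNotMemIff (⨅ j, E j)
    (fun S => ⟨fun h => (hdec S).resolve_right h, hnot S⟩), ?_⟩
  intro S hS
  have hS' : ∀ F, S F ∈ (⨅ j, E j) := hS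
  have hmem : ∀ F, S F ∈ ⨅ j ∈ Iio (toLex (e₁.symm S, (⊤ : WithTop (#Λ).ord.ToType))), E j := by
    intro F
    have h1 := (hE (toLex (e₁.symm S, ((e₂.symm F : (#Λ).ord.ToType) :
      WithTop (#Λ).ord.ToType)))).2.1 (e₂.symm F) rfl
    simp only [ofLex_toLex, Equiv.apply_symm_apply] at h1
    have hlt : toLex (e₁.symm S, ((e₂.symm F : (#Λ).ord.ToType) : WithTop (#Λ).ord.ToType)) <
        toLex (e₁.symm S, (⊤ : WithTop (#Λ).ord.ToType)) := by
      rw [Prod.Lex.lt_iff]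
      exact Or.inr ⟨rfl, WithTop.coe_lt_top _⟩
    rcases h1 with h1 | h1
    · have h3 : (⨅ j ∈ Iio (toLex (e₁.symm S, (⊤ : WithTop (#Λ).ord.ToType))), E j) ≤
          (⨅ j ∈ Iio (toLex (e₁.symm S, ((e₂.symm F : (#Λ).ord.ToType) :
            WithTop (#Λ).ord.ToType))), E j) ⊓ E (toLex (e₁.symm S,
              ((e₂.symm F : (#Λ).ord.ToType) : WithTop (#Λ).ord.ToType))) :=
        le_inf (le_iInf₂ fun k hk => iInf₂_le k (Set.mem_Iio.2 (lt_trans (Set.mem_Iio.1 hk) hlt)))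
          (iInf₂_le (toLex (e₁.symm S, ((e₂.symm F : (#Λ).ord.ToType) :
            WithTop (#Λ).ord.ToType))) (Set.mem_Iio.2 hlt))
      exact h3 h1
    · exact absurd (hle _ h1) (hnot _ (hS' F))
  have h2 := (hE (toLex (e₁.symm S, (⊤ : WithTop (#Λ).ord.ToType)))).2.2 rfl
  simp only [ofLex_toLex, Equiv.apply_symm_apply] at h2
  obtain ⟨g, hg1, hg2⟩ := h2 hmem
  refine ⟨g, fun l => ?_, ?_⟩
  · exact hle _ (hg1 l)
  · exact hle _ hg2

end Job14546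

section Job14745

open Filter Set Cardinal

/-- Systems of distinct representatives for large sets. -/
theorem sdr {ι α : Type u} (S : ι → Set α) (h : ∀ i, #ι ≤ #(S i)) :
    ∃ f : ι → α, Function.Injective f ∧ ∀ i, f i ∈ S i := by
  classical
  let J : Type u := (#ι).ord.ToType
  have hJ : #J = #ι := by simp [J]
  obtain ⟨e⟩ : Nonempty (ι ≃ J) := Cardinal.eq.1 hJ.symm
  have hI : ∀ a : J, #(Set.Iio a) < #ι := fun a => mk_Iio_toType_ord_lt a
  have hex : ∀ (a : J) (f : (b : J) → b < a → α), ∃ t, t ∈ S (e.symm a) ∧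
      ∀ (b : J) (hb : b < a), f b hb ≠ t := by
    intro a f
    by_contra hcon
    push Not at hcon
    have h1 : S (e.symm a) ⊆ Set.range (fun b : Set.Iio a => f b.1 b.2) := by
      intro t ht
      obtain ⟨b, hb, hbt⟩ := hcon t ht
      exact ⟨⟨b, hb⟩, hbt⟩
    have h2 : #(S (e.symm a)) ≤ #(Set.Iio a) := (mk_le_mk_of_subset h1).trans mk_range_le
    exact absurd ((h (e.symm a)).trans h2) (not_le.2 (hI a))
  let F : (a : J) → ((b : J) → b < a → α) → α := fun a f => Classical.choose (hex a f)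
  have hF : ∀ a f, F a f ∈ S (e.symm a) ∧ ∀ (b : J) (hb : b < a), f b hb ≠ F a f :=
    fun a f => Classical.choose_spec (hex a f)
  let wf : WellFounded (fun x y : J => x < y) := wellFounded_lt
  have hD : ∀ a, wf.fix F a = F a (fun b _ => wf.fix F b) := fun a => wf.fix_eq F a
  have hne : ∀ a b : J, b < a → wf.fix F b ≠ wf.fix F a := by
    intro a b hb
    rw [hD a]
    exact (hF a (fun b _ => wf.fix F b)).2 b hb
  refine ⟨fun i => wf.fix F (e i), ?_, ?_⟩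
  · intro i i' hii
    apply e.injective
    by_contra hcon
    rcases lt_or_gt_of_ne hcon with h1 | h1
    · exact hne _ _ h1 hii
    · exact hne _ _ h1 hii.symm
  · intro i
    show wf.fix F (e i) ∈ S i
    rw [hD]
    have h1 := (hF (e i) (fun b _ => wf.fix F b)).1
    rwa [e.symm_apply_apply] at h1

end Job14745

section Job14754

open Filter Set Cardinal

/-- An ultrafilter all of whose members are large. -/
theorem exists_ultra (N : Type u) [Infinite N] :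
    ∃ (G : Type u) (W : Ultrafilter G), ∀ S ∈ W, #N ≤ #S := by
  classical
  refine ⟨Finset N, Ultrafilter.of (atTop : Filter (Finset N)), ?_⟩
  intro S hS
  have hcov : ∀ ν : N, ∃ F : S, ν ∈ (F : Finset N) := by
    intro ν
    have h1 : Set.Ici ({ν} : Finset N) ∈ (Ultrafilter.of (atTop : Filter (Finset N)) : Filter (Finset N)) :=
      (Ultrafilter.of_le _) (Filter.mem_atTop _)
    have h2 := Filter.inter_mem h1 hS
    obtain ⟨F, hF1, hF2⟩ := (Ultrafilter.of (atTop : Filter (Finset N))).nonempty_of_mem h2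
    exact ⟨⟨F, hF2⟩, Finset.singleton_subset_iff.1 hF1⟩
  have hU : (⋃ F : S, ((F : Finset N) : Set N)) = Set.univ := by
    ext ν
    simp only [Set.mem_iUnion, Set.mem_univ, iff_true]
    obtain ⟨F, hF⟩ := hcov ν
    exact ⟨F, hF⟩
  have hinf : Infinite S := by
    by_contra hfin
    rw [not_infinite_iff_finite] at hfin
    have : (Set.univ : Set N).Finite := by
      rw [← hU]
      exact Set.finite_iUnion (fun F => Finset.finite_toSet _)
    exact (Set.infinite_univ (α := N)) this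
  have h1 : #N ≤ Cardinal.sum (fun F : S => #((F : Finset N) : Set N)) := by
    rw [← Cardinal.mk_univ (α := N), ← hU]
    exact Cardinal.mk_iUnion_le_sum_mk
  have h2 : Cardinal.sum (fun F : S => #((F : Finset N) : Set N)) ≤ Cardinal.sum (fun _ : S => ℵ₀) := by
    apply Cardinal.sum_le_sum
    intro F
    exact (Cardinal.lt_aleph0_of_finite _).le
  refine h1.trans (h2.trans ?_)
  rw [Cardinal.sum_const', Cardinal.mul_aleph0_eq (Cardinal.aleph0_le_mk _)]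

end Job14754

section Job14758

open Filter Set Cardinal

/-- Choice of signs for a bilinear form. -/
theorem sign_lem {V W : Type u} [AddCommGroup V] [Module ℂ V] [AddCommGroup W] [Module ℂ W]
    (b : V →ₗ[ℂ] W →ₗ[ℂ] ℂ) (n : ℕ) (x : Fin n → V) (y : Fin n → W) (z : ℂ) :
    ∃ e : Fin n → ℂ, (∀ i, e i = 1 ∨ e i = -1) ∧
      ‖z + ∑ i, b (x i) (y i)‖ ≤ ‖z + b (∑ i, e i • x i) (∑ i, e i • y i)‖ := by
  induction n generalizing z with
  | zero => exact ⟨fun _ => 1, fun _ => Or.inl rfl, by simp⟩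
  | succ n ih =>
    obtain ⟨e, he, hle⟩ := ih (fun i => x i.succ) (fun i => y i.succ) (z + b (x 0) (y 0))
    set X := ∑ i, e i • x (Fin.succ i) with hX
    set Y := ∑ i, e i • y (Fin.succ i) with hY
    set w : ℂ := z + b (x 0) (y 0) + b X Y with hw
    set d : ℂ := b (x 0) Y + b X (y 0) with hd
    have h2 : ‖w‖ ≤ ‖w + d‖ ∨ ‖w‖ ≤ ‖w - d‖ := by
      by_contra hcon
      push Not at hcon
      have h3 : ‖(w + d) + (w - d)‖ ≤ ‖w + d‖ + ‖w - d‖ := norm_add_le _ _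
      have h4 : (w + d) + (w - d) = 2 * w := by ring
      rw [h4, norm_mul] at h3
      norm_num at h3
      linarith [hcon.1, hcon.2]
    have hL : z + ∑ i : Fin (n + 1), b (x i) (y i) =
        z + b (x 0) (y 0) + ∑ i : Fin n, b (x i.succ) (y i.succ) := by
      rw [Fin.sum_univ_succ]; ring
    rcases h2 with h2 | h2
    · refine ⟨Fin.cons 1 e, ?_, ?_⟩
      · intro i
        refine Fin.cases ?_ ?_ i
        · left; simp
        · intro j; simpa using he j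
      · rw [hL, Fin.sum_univ_succ, Fin.sum_univ_succ]
        simp only [Fin.cons_zero, Fin.cons_succ, one_smul, map_add, LinearMap.add_apply]
        refine hle.trans ?_
        refine h2.trans (le_of_eq ?_)
        congr 1
        simp only [hw, hd, hX, hY]
        ring
    · refine ⟨Fin.cons (-1) e, ?_, ?_⟩
      · intro i
        refine Fin.cases ?_ ?_ i
        · right; simp
        · intro j; simpa using he j
      · rw [hL, Fin.sum_univ_succ, Fin.sum_univ_succ]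
        simp only [Fin.cons_zero, Fin.cons_succ, neg_smul, one_smul, map_add, LinearMap.add_apply,
          map_neg, LinearMap.neg_apply]
        refine hle.trans ?_
        refine h2.trans (le_of_eq ?_)
        congr 1
        simp only [hw, hd, hX, hY]
        ring

end Job14758

section Job14773

open Filter Set Cardinal

/-- A functional is large on finitely many terms only. -/
theorem late_lin {V : Type u} [SeminormedAddCommGroup V] [NormedSpace ℂ V]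
    (φ : V →ₗ[ℂ] ℂ) (M A ε : ℝ) (hε : 0 < ε) (hφ : ∀ v, ‖φ v‖ ≤ M * ‖v‖) (K : Set ℕ)
    (α : ℕ → V) (h : ∀ k ∈ K, ε < ‖φ (α k)‖)
    (hα : ∀ (n : ℕ) (k : Fin n → ℕ), Function.Injective k → (∀ i, k i ∈ K) →
      ∀ τ : Fin n → ℂ, (∀ i, ‖τ i‖ ≤ 1) → ‖∑ i, τ i • α (k i)‖ ≤ A * Real.sqrt n) :
    K.Finite := by
  by_contra hK
  have hK' : K.Infinite := hK
  have key : ∀ n : ℕ, (n : ℝ) * ε ≤ |M| * (|A| * Real.sqrt n) := by
    intro n
    let k : Fin n → ℕ := fun i => (hK'.natEmbedding K (i : ℕ) : ℕ)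
    have hk : Function.Injective k := by
      intro i j hij
      have h1 : hK'.natEmbedding K (i : ℕ) = hK'.natEmbedding K (j : ℕ) := Subtype.ext hij
      exact Fin.ext ((hK'.natEmbedding K).injective h1)
    have hkK : ∀ i, k i ∈ K := fun i => (hK'.natEmbedding K (i : ℕ)).2
    let z : Fin n → ℂ := fun i => φ (α (k i))
    have hz : ∀ i, ε < ‖z i‖ := fun i => h _ (hkK i)
    have hz0 : ∀ i, (‖z i‖ : ℂ) ≠ 0 := fun i => by
      have : ‖z i‖ ≠ 0 := (hε.trans (hz i)).ne'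
      exact_mod_cast this
    let τ : Fin n → ℂ := fun i => (starRingEnd ℂ) (z i) / (‖z i‖ : ℂ)
    have hτ : ∀ i, ‖τ i‖ ≤ 1 := by
      intro i
      simp only [τ]
      rw [norm_div, RCLike.norm_conj, Complex.norm_real, norm_norm]
      exact div_self_le_one _
    have hτz : ∀ i, τ i * z i = (‖z i‖ : ℂ) := by
      intro i
      simp only [τ]
      rw [div_mul_eq_mul_div, div_eq_iff (hz0 i), mul_comm, Complex.mul_conj,
        Complex.normSq_eq_norm_sq]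
      push_cast
      ring
    have hsum : φ (∑ i, τ i • α (k i)) = ((∑ i, ‖z i‖ : ℝ) : ℂ) := by
      rw [map_sum]
      push_cast
      apply Finset.sum_congr rfl
      intro i _
      rw [map_smul, smul_eq_mul]
      exact hτz i
    have h1 : (∑ i, ‖z i‖ : ℝ) ≤ |M| * (|A| * Real.sqrt n) := by
      have h2 := hφ (∑ i, τ i • α (k i))
      rw [hsum, Complex.norm_real] at h2
      have h3 := hα n k hk hkK τ hτ
      calc (∑ i, ‖z i‖ : ℝ) ≤ ‖(∑ i, ‖z i‖ : ℝ)‖ := Real.le_norm_self _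
        _ ≤ M * ‖∑ i, τ i • α (k i)‖ := h2
        _ ≤ |M| * ‖∑ i, τ i • α (k i)‖ :=
          mul_le_mul_of_nonneg_right (le_abs_self M) (norm_nonneg _)
        _ ≤ |M| * (|A| * Real.sqrt n) := by
          apply mul_le_mul_of_nonneg_left _ (abs_nonneg M)
          exact h3.trans (mul_le_mul_of_nonneg_right (le_abs_self A) (Real.sqrt_nonneg _))
    refine le_trans ?_ h1
    have h4 : ∑ i : Fin n, ε ≤ ∑ i, ‖z i‖ := Finset.sum_le_sum fun i _ => (hz i).le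
    rw [Finset.sum_const, Finset.card_univ, Fintype.card_fin, nsmul_eq_mul] at h4
    exact h4
  obtain ⟨n, hn⟩ := exists_nat_gt ((|M| * |A| / ε) ^ 2)
  have hn0 : (0:ℝ) < n := lt_of_le_of_lt (sq_nonneg _) hn
  have hs : |M| * |A| / ε < Real.sqrt n := Real.lt_sqrt_of_sq_lt hn
  have hs0 : 0 < Real.sqrt n := Real.sqrt_pos.2 hn0
  have h1 := key n
  have h2 : (n : ℝ) = Real.sqrt n * Real.sqrt n := (Real.mul_self_sqrt hn0.le).symm
  rw [div_lt_iff₀ hε] at hs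
  have h3 : Real.sqrt n * (|M| * |A|) < Real.sqrt n * (Real.sqrt n * ε) :=
    mul_lt_mul_of_pos_left hs hs0
  have h4 : (n : ℝ) * ε = Real.sqrt n * (Real.sqrt n * ε) := by
    rw [← mul_assoc, ← h2]
  have h5 : |M| * (|A| * Real.sqrt n) = Real.sqrt n * (|M| * |A|) := by ring
  rw [h4, h5] at h1
  linarith

end Job14773

section Job14776

open Filter Set Cardinal

/-- A bilinear form is large on finitely many diagonal terms only. -/
theorem late_bil {V W : Type u} [SeminormedAddCommGroup V] [NormedSpace ℂ V]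
    [SeminormedAddCommGroup W] [NormedSpace ℂ W]
    (φ : V →ₗ[ℂ] W →ₗ[ℂ] ℂ) (M A B ε : ℝ) (hε : 0 < ε) (hφ : ∀ v w, ‖φ v w‖ ≤ M * ‖v‖ * ‖w‖)
    (K : Set ℕ) (α : ℕ → V) (β : ℕ → W) (h : ∀ k ∈ K, ε < ‖φ (α k) (β k)‖)
    (hα : ∀ (n : ℕ) (k : Fin n → ℕ), Function.Injective k → (∀ i, k i ∈ K) →
      ∀ τ : Fin n → ℂ, (∀ i, ‖τ i‖ ≤ 1) → ‖∑ i, τ i • α (k i)‖ ≤ A * Real.sqrt n)
    (hβ : ∀ (n : ℕ) (k : Fin n → ℕ), Function.Injective k → (∀ i, k i ∈ K) →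
      ∀ τ : Fin n → ℂ, (∀ i, ‖τ i‖ ≤ 1) → ‖∑ i, τ i • β (k i)‖ ≤ B) :
    K.Finite := by
  by_contra hK
  have hinf : K.Infinite := hK
  have key : ∀ n : ℕ, (n : ℝ) * ε ≤ |M| * (A * Real.sqrt n) * B := by
    intro n
    let f := Set.Infinite.natEmbedding K hinf
    let k : Fin n → ℕ := fun i => (f (i : ℕ) : ℕ)
    have hk : Function.Injective k := by
      intro i j hij
      have h1 : f (i : ℕ) = f (j : ℕ) := Subtype.ext hij
      exact Fin.ext (f.injective h1)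
    have hkK : ∀ i, k i ∈ K := fun i => (f (i : ℕ)).2
    let w : Fin n → ℂ := fun i => φ (α (k i)) (β (k i))
    have hw : ∀ i, ε < ‖w i‖ := fun i => h (k i) (hkK i)
    let τ : Fin n → ℂ := fun i => (starRingEnd ℂ) (w i) / (‖w i‖ : ℂ)
    have hw0 : ∀ i, (‖w i‖ : ℂ) ≠ 0 := by
      intro i
      have : ‖w i‖ ≠ 0 := (hε.trans (hw i)).ne'
      exact_mod_cast this
    have hτn : ∀ i, ‖τ i‖ = 1 := by
      intro i
      have h0 : ‖w i‖ ≠ 0 := (hε.trans (hw i)).ne'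
      simp only [τ, norm_div, RCLike.norm_conj, Complex.norm_real, norm_norm]
      exact div_self h0
    have hτw : ∀ i, τ i * w i = (‖w i‖ : ℂ) := by
      intro i
      simp only [τ]
      rw [div_mul_eq_mul_div, div_eq_iff (hw0 i), ← Complex.normSq_eq_conj_mul_self,
        Complex.normSq_eq_norm_sq]
      push_cast
      ring
    obtain ⟨e, he, hle⟩ := sign_lem φ n (fun i => τ i • α (k i)) (fun i => β (k i)) 0
    have hen : ∀ i, ‖e i‖ = 1 := by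
      intro i
      rcases he i with h1 | h1 <;> simp [h1]
    have hL : ‖(0 : ℂ) + ∑ i, φ (τ i • α (k i)) (β (k i))‖ = ∑ i, ‖w i‖ := by
      have h1 : ∀ i, φ (τ i • α (k i)) (β (k i)) = ((‖w i‖ : ℝ) : ℂ) := by
        intro i
        rw [map_smul, LinearMap.smul_apply, smul_eq_mul]
        exact hτw i
      rw [zero_add, Finset.sum_congr rfl (fun i _ => h1 i), ← Complex.ofReal_sum,
        Complex.norm_real, Real.norm_of_nonneg (Finset.sum_nonneg fun i _ => norm_nonneg _)]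
    have hLn : (n : ℝ) * ε ≤ ∑ i, ‖w i‖ := by
      have h1 : ∑ _i : Fin n, ε ≤ ∑ i, ‖w i‖ := Finset.sum_le_sum fun i _ => (hw i).le
      simpa using h1
    have ha := hα n k hk hkK (fun i => e i * τ i) (fun i => by
      rw [norm_mul, hen i, hτn i, one_mul])
    have hb := hβ n k hk hkK e (fun i => (hen i).le)
    have hsum : ∑ i, e i • (τ i • α (k i)) = ∑ i, (e i * τ i) • α (k i) :=
      Finset.sum_congr rfl fun i _ => smul_smul _ _ _
    rw [hL, zero_add] at hle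
    have h3 := hφ (∑ i, e i • (τ i • α (k i))) (∑ i, e i • β (k i))
    rw [hsum] at h3 hle
    have hna := norm_nonneg (∑ i, (e i * τ i) • α (k i))
    have hnb := norm_nonneg (∑ i, e i • β (k i))
    calc (n : ℝ) * ε ≤ ∑ i, ‖w i‖ := hLn
      _ ≤ ‖φ (∑ i, (e i * τ i) • α (k i)) (∑ i, e i • β (k i))‖ := hle
      _ ≤ M * ‖∑ i, (e i * τ i) • α (k i)‖ * ‖∑ i, e i • β (k i)‖ := h3
      _ ≤ |M| * ‖∑ i, (e i * τ i) • α (k i)‖ * ‖∑ i, e i • β (k i)‖ := by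
          gcongr
          exact le_abs_self M
      _ ≤ |M| * (A * Real.sqrt n) * B := by
          have hA0 : 0 ≤ A * Real.sqrt n := hna.trans ha
          exact mul_le_mul (mul_le_mul_of_nonneg_left ha (abs_nonneg M)) hb hnb
            (mul_nonneg (abs_nonneg M) hA0)
  set C : ℝ := |M| * A * B with hC
  obtain ⟨n, hn⟩ := exists_nat_gt ((C / ε) ^ 2 + 1)
  have hn1 : (0 : ℝ) < n := by
    have : (0:ℝ) ≤ (C / ε) ^ 2 := sq_nonneg _
    linarith
  have h1 := key n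
  have hs : 0 < Real.sqrt n := Real.sqrt_pos.2 hn1
  have hss : Real.sqrt n * Real.sqrt n = n := Real.mul_self_sqrt hn1.le
  have h2 : Real.sqrt n * ε ≤ C := by
    have h3 : (Real.sqrt n * ε) * Real.sqrt n ≤ C * Real.sqrt n := by
      calc (Real.sqrt n * ε) * Real.sqrt n = (Real.sqrt n * Real.sqrt n) * ε := by ring
        _ = n * ε := by rw [hss]
        _ ≤ |M| * (A * Real.sqrt n) * B := h1
        _ = C * Real.sqrt n := by rw [hC]; ring
    exact le_of_mul_le_mul_right h3 hs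
  have h4 : Real.sqrt n ≤ C / ε := by
    rw [le_div_iff₀ hε]; exact h2
  have h5 : (n : ℝ) ≤ (C / ε) ^ 2 := by
    calc (n : ℝ) = Real.sqrt n ^ 2 := by rw [sq, hss]
      _ ≤ (C / ε) ^ 2 := by
          apply pow_le_pow_left₀ hs.le h4
  linarith

end Job14776

section Job14780

open Filter Set Cardinal

/-- Selector systems: `a x S` is the element of `V` given by the label function `x : Q → G`
restricted to the set `S` of indices; `b x S` similarly; `ξ` is a bilinear map with values in the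
functions on `Q × G × G`, square summable in the first label and tending to zero in the
second. -/
structure Sys {Q G V W : Type u} [SeminormedAddCommGroup V] [NormedSpace ℂ V]
    [SeminormedAddCommGroup W] [NormedSpace ℂ W] (a : (Q → G) → Set Q → V)
    (b : (Q → G) → Set Q → W) (ξ : V →ₗ[ℂ] W →ₗ[ℂ] (Q → G → G → ℂ)) (M A B : ℝ) : Prop where
  a_add : ∀ x S S', Disjoint S S' → a x (S ∪ S') = a x S + a x S'
  b_add : ∀ x S S', Disjoint S S' → b x (S ∪ S') = b x S + b x S'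
  a_congr : ∀ x x' S, (∀ q ∈ S, x q = x' q) → a x S = a x' S
  b_congr : ∀ x x' S, (∀ q ∈ S, x q = x' q) → b x S = b x' S
  a_norm : ∀ (S : Set Q) (n : ℕ) (x : Fin n → Q → G) (τ : Fin n → ℂ), (∀ i, ‖τ i‖ ≤ 1) →
    (∀ q ∈ S, Function.Injective fun i => x i q) → ‖∑ i, τ i • a (x i) S‖ ≤ A * Real.sqrt n
  b_norm : ∀ (S : Set Q) (n : ℕ) (x : Fin n → Q → G) (τ : Fin n → ℂ), (∀ i, ‖τ i‖ ≤ 1) →
    (∀ q ∈ S, Function.Injective fun i => x i q) → ‖∑ i, τ i • b (x i) S‖ ≤ B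
  bound : ∀ v w q g2 (F : Finset G), ∑ g1 ∈ F, ‖ξ v w q g1 g2‖ ^ 2 ≤ (M * ‖v‖ * ‖w‖) ^ 2
  van : ∀ v w q g1 (ε : ℝ), 0 < ε → {g2 | ε < ‖ξ v w q g1 g2‖}.Finite
  hM : 0 ≤ M
  hA : 0 ≤ A
  hB : 0 ≤ B

/-- The early terms are small for most labels. -/
theorem early {Q G V W : Type u} [SeminormedAddCommGroup V] [NormedSpace ℂ V]
    [SeminormedAddCommGroup W] [NormedSpace ℂ W] {a : (Q → G) → Set Q → V}
    {b : (Q → G) → Set Q → W} {ξ : V →ₗ[ℂ] W →ₗ[ℂ] (Q → G → G → ℂ)} {M A B : ℝ}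
    (hs : Sys a b ξ M A B) (U : Ultrafilter G) (hU : ∀ S : Set G, S.Finite → Sᶜ ∈ U)
    (q : Q) (v : V) (w : W) (ε : ℝ) (hε : 0 < ε) :
    ∀ᶠ g1 in (U : Filter G), ∀ᶠ g2 in (U : Filter G), ‖ξ v w q g1 g2‖ ≤ ε ∧
      ‖ξ v (b (fun _ => g2) {q}) q g1 g2‖ ≤ ε ∧ ‖ξ (a (fun _ => g1) {q}) w q g1 g2‖ ≤ ε := by
  have hev : ∀ S : Set G, S.Finite → ∀ᶠ g in (U : Filter G), g ∉ S := fun S hS => hU S hS
  have hb : ∀ g2 : G, ‖b (fun _ => g2) {q}‖ ≤ B := by
    intro g2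
    have := hs.b_norm {q} 1 (fun _ _ => g2) (fun _ => 1) (fun i => by simp)
      (fun q' _ => fun i j _ => Subsingleton.elim i j)
    simpa using this
  have h2 : ∀ᶠ g1 in (U : Filter G), ∀ᶠ g2 in (U : Filter G),
      ‖ξ v (b (fun _ => g2) {q}) q g1 g2‖ ≤ ε := by
    have hfin : {g1 : G | ¬ ∀ᶠ g2 in (U : Filter G),
        ‖ξ v (b (fun _ => g2) {q}) q g1 g2‖ ≤ ε}.Finite := by
      by_contra hinf
      obtain ⟨n, hn⟩ := exists_nat_gt ((M * ‖v‖ * B) ^ 2 / ε ^ 2)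
      obtain ⟨F, hF, hFc⟩ := Set.Infinite.exists_subset_card_eq hinf n
      have hall : ∀ᶠ g2 in (U : Filter G), ∀ g1 ∈ F,
          ¬ ‖ξ v (b (fun _ => g2) {q}) q g1 g2‖ ≤ ε := by
        rw [Filter.eventually_all_finset]
        intro g1 hg1
        exact Ultrafilter.eventually_not.2 (hF hg1)
      obtain ⟨g2, hg2⟩ := hall.exists
      have h1 : (n : ℝ) * ε ^ 2 ≤ ∑ g1 ∈ F, ‖ξ v (b (fun _ => g2) {q}) q g1 g2‖ ^ 2 := by
        rw [← hFc, ← nsmul_eq_mul]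
        apply Finset.card_nsmul_le_sum
        intro g1 hg1
        have := hg2 g1 hg1
        push Not at this
        exact pow_le_pow_left₀ hε.le this.le 2
      have h3 := hs.bound v (b (fun _ => g2) {q}) q g2 F
      have h4 : (M * ‖v‖ * ‖b (fun _ => g2) {q}‖) ^ 2 ≤ (M * ‖v‖ * B) ^ 2 := by
        apply pow_le_pow_left₀
        · exact mul_nonneg (mul_nonneg hs.hM (norm_nonneg _)) (norm_nonneg _)
        · exact mul_le_mul_of_nonneg_left (hb g2) (mul_nonneg hs.hM (norm_nonneg _))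
      have h5 : (0 : ℝ) < ε ^ 2 := by positivity
      rw [div_lt_iff₀ h5] at hn
      linarith
    filter_upwards [hev _ hfin] with g1 hg1
    by_contra hc
    exact hg1 hc
  filter_upwards [h2] with g1 hg1
  filter_upwards [hg1, hev _ (hs.van v w q g1 ε hε),
    hev _ (hs.van (a (fun _ => g1) {q}) w q g1 ε hε)] with g2 k1 k2 k3
  refine ⟨?_, k1, ?_⟩
  · by_contra hc
    exact k2 (not_le.1 hc)
  · by_contra hc
    exact k3 (not_le.1 hc)

end Job14780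

section Job14791

open Filter Set Cardinal

/-- Assignment of labels. `cut q c` is the past of `c` before `q`. -/
theorem labels {Q G V W : Type u} [LinearOrder Q] [WellFoundedLT Q]
    [SeminormedAddCommGroup V] [NormedSpace ℂ V]
    [SeminormedAddCommGroup W] [NormedSpace ℂ W] {a : (Q → G) → Set Q → V}
    {b : (Q → G) → Set Q → W} {ξ : V →ₗ[ℂ] W →ₗ[ℂ] (Q → G → G → ℂ)} {M A B : ℝ}
    (hs : Sys a b ξ M A B) (U : Ultrafilter G) (hU : ∀ S : Set G, S.Finite → Sᶜ ∈ U)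
    (hU' : ∀ S ∈ U, #(Q → ℕ) ≤ #S) (Q1 : Set Q) (c : ℝ)
    (hq : ∀ q ∈ Q1, ∀ᶠ g1 in (U : Filter G), ∀ᶠ g2 in (U : Filter G),
      c < ‖ξ (a (fun _ => g1) {q}) (b (fun _ => g2) {q}) q g1 g2‖)
    (ε : ℝ) (hε : 0 < ε) :
    ∃ X Y : (Q → ℕ) → Q → G,
      (∀ k k' q, (∀ p < q, k p = k' p) → X k q = X k' q ∧ Y k q = Y k' q) ∧
      (∀ k k' q p, p < q → k p ≠ k' p → X k q ≠ X k' q ∧ Y k q ≠ Y k' q) ∧
      ∀ k q, ‖ξ (a (X k) {p | p < q}) (b (Y k) {p | p < q}) q (X k q) (Y k q)‖ ≤ ε ∧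
        ‖ξ (a (X k) {p | p < q}) (b (Y k) {q}) q (X k q) (Y k q)‖ ≤ ε ∧
        ‖ξ (a (X k) {q}) (b (Y k) {p | p < q}) q (X k q) (Y k q)‖ ≤ ε ∧
        (q ∈ Q1 → c < ‖ξ (a (X k) {q}) (b (Y k) {q}) q (X k q) (Y k q)‖) := by
  classical
  haveI : Nonempty G := Filter.nonempty_of_neBot (U : Filter G)
  let g0 : G := Classical.arbitrary G
  have step : ∀ (q : Q) (v : (Q → ℕ) → V) (w : (Q → ℕ) → W), ∃ f : (Q → ℕ) → G × G,
      (Function.Injective fun ν => (f ν).1) ∧ (Function.Injective fun ν => (f ν).2) ∧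
      ∀ ν, ‖ξ (v ν) (w ν) q (f ν).1 (f ν).2‖ ≤ ε ∧
        ‖ξ (v ν) (b (fun _ => (f ν).2) {q}) q (f ν).1 (f ν).2‖ ≤ ε ∧
        ‖ξ (a (fun _ => (f ν).1) {q}) (w ν) q (f ν).1 (f ν).2‖ ≤ ε ∧
        (q ∈ Q1 → c < ‖ξ (a (fun _ => (f ν).1) {q}) (b (fun _ => (f ν).2) {q}) q (f ν).1
          (f ν).2‖) := by
    intro q v w
    let P : (Q → ℕ) → G → G → Prop := fun ν g1 g2 =>
      ‖ξ (v ν) (w ν) q g1 g2‖ ≤ ε ∧ ‖ξ (v ν) (b (fun _ => g2) {q}) q g1 g2‖ ≤ ε ∧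
        ‖ξ (a (fun _ => g1) {q}) (w ν) q g1 g2‖ ≤ ε ∧
        (q ∈ Q1 → c < ‖ξ (a (fun _ => g1) {q}) (b (fun _ => g2) {q}) q g1 g2‖)
    have h1 : ∀ ν, ∀ᶠ g1 in (U : Filter G), ∀ᶠ g2 in (U : Filter G), P ν g1 g2 := by
      intro ν
      by_cases hq1 : q ∈ Q1
      · filter_upwards [early hs U hU q (v ν) (w ν) ε hε, hq q hq1] with g1 h1 h2
        filter_upwards [h1, h2] with g2 h3 h4
        exact ⟨h3.1, h3.2.1, h3.2.2, fun _ => h4⟩
      · filter_upwards [early hs U hU q (v ν) (w ν) ε hε] with g1 h1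
        filter_upwards [h1] with g2 h3
        exact ⟨h3.1, h3.2.1, h3.2.2, fun h => absurd h hq1⟩
    obtain ⟨f1, hf1, hf1'⟩ := sdr (fun ν => {g1 | ∀ᶠ g2 in (U : Filter G), P ν g1 g2})
      (fun ν => hU' _ (h1 ν))
    obtain ⟨f2, hf2, hf2'⟩ := sdr (fun ν => {g2 | P ν (f1 ν) g2}) (fun ν => hU' _ (hf1' ν))
    exact ⟨fun ν => (f1 ν, f2 ν), hf1, hf2, fun ν => hf2' ν⟩
  choose Φ hΦ1 hΦ2 hΦ3 using step
  let cut : Q → (Q → ℕ) → Q → ℕ := fun q ν p => if p < q then ν p else 0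
  let F : Q → (Q → ℕ) → G × G := (wellFounded_lt (α := Q)).fix fun q F' =>
    Φ q (fun ν => a (fun p => if h : p < q then (F' p h (cut p ν)).1 else g0) {p | p < q})
      (fun ν => b (fun p => if h : p < q then (F' p h (cut p ν)).2 else g0) {p | p < q})
  have hF : ∀ q, F q =
      Φ q (fun ν => a (fun p => if h : p < q then (F p (cut p ν)).1 else g0) {p | p < q})
        (fun ν => b (fun p => if h : p < q then (F p (cut p ν)).2 else g0) {p | p < q}) := by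
    intro q
    exact (wellFounded_lt (α := Q)).fix_eq _ q
  have hinj1 : ∀ q, Function.Injective fun ν => (F q ν).1 := by
    intro q; rw [hF q]; exact hΦ1 _ _ _
  have hinj2 : ∀ q, Function.Injective fun ν => (F q ν).2 := by
    intro q; rw [hF q]; exact hΦ2 _ _ _
  have hcc : ∀ p q k, p < q → cut p (cut q k) = cut p k := by
    intro p q k hpq
    funext r
    simp only [cut]
    split_ifs with h1 h2
    · rfl
    · exact absurd (h1.trans hpq) h2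
    · rfl
  refine ⟨fun k q => (F q (cut q k)).1, fun k q => (F q (cut q k)).2, ?_, ?_, ?_⟩
  · intro k k' q h
    have : cut q k = cut q k' := by
      funext p
      simp only [cut]
      split_ifs with h1
      · exact h p h1
      · rfl
    simp only [this, and_self]
  · intro k k' q p hpq hne
    have : cut q k ≠ cut q k' := by
      intro h
      have h1 := congrFun h p
      simp only [cut, if_pos hpq] at h1
      exact hne h1
    exact ⟨fun h => this (hinj1 q h), fun h => this (hinj2 q h)⟩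
  · intro k q
    have h3 := hΦ3 q (fun ν => a (fun p => if h : p < q then (F p (cut p ν)).1 else g0) {p | p < q})
        (fun ν => b (fun p => if h : p < q then (F p (cut p ν)).2 else g0) {p | p < q}) (cut q k)
    rw [← hF q] at h3
    have ea : a (fun p => if h : p < q then (F p (cut p (cut q k))).1 else g0) {p | p < q} =
        a (fun q => (F q (cut q k)).1) {p | p < q} := by
      apply hs.a_congr
      intro p hp
      have hp' : p < q := hp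
      simp only [dif_pos hp', hcc p q k hp']
    have eb : b (fun p => if h : p < q then (F p (cut p (cut q k))).2 else g0) {p | p < q} =
        b (fun q => (F q (cut q k)).2) {p | p < q} := by
      apply hs.b_congr
      intro p hp
      have hp' : p < q := hp
      simp only [dif_pos hp', hcc p q k hp']
    have ea' : a (fun _ => (F q (cut q k)).1) {q} = a (fun q => (F q (cut q k)).1) {q} := by
      apply hs.a_congr
      intro p hp
      have hp' : p = q := hp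
      rw [hp']
    have eb' : b (fun _ => (F q (cut q k)).2) {q} = b (fun q => (F q (cut q k)).2) {q} := by
      apply hs.b_congr
      intro p hp
      have hp' : p = q := hp
      rw [hp']
    rw [ea', eb', ea, eb] at h3
    exact h3

end Job14791

section Job14821

open Filter Set Cardinal

/-- The late terms are small for all but finitely many values of the next coordinate. -/
theorem late {Q G V W : Type u} [LinearOrder Q]
    [SeminormedAddCommGroup V] [NormedSpace ℂ V]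
    [SeminormedAddCommGroup W] [NormedSpace ℂ W] {a : (Q → G) → Set Q → V}
    {b : (Q → G) → Set Q → W} {ξ : V →ₗ[ℂ] W →ₗ[ℂ] (Q → G → G → ℂ)} {M A B : ℝ}
    (hs : Sys a b ξ M A B) (X Y : (Q → ℕ) → Q → G)
    (h1 : ∀ k k' q, (∀ p < q, k p = k' p) → X k q = X k' q ∧ Y k q = Y k' q)
    (h2 : ∀ k k' q p, p < q → k p ≠ k' p → X k q ≠ X k' q ∧ Y k q ≠ Y k' q)
    (ε : ℝ) (hε : 0 < ε) (k : Q → ℕ) (q : Q) :
    ∃ m : ℕ, ∀ k' : Q → ℕ, (∀ p < q, k' p = k p) → k' q = m →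
      ‖ξ (a (X k') {p | q < p}) (b (Y k') {p | p ≤ q}) q (X k' q) (Y k' q)‖ ≤ ε ∧
      ‖ξ (a (X k') {p | p ≤ q}) (b (Y k') {p | q < p}) q (X k' q) (Y k' q)‖ ≤ ε ∧
      ‖ξ (a (X k') {p | q < p}) (b (Y k') {p | q < p}) q (X k' q) (Y k' q)‖ ≤ ε := by
  classical
  set g1 := X k q with hg1
  set g2 := Y k q with hg2
  set v0 := a (X k) {p | p ≤ q} with hv0
  set w0 := b (Y k) {p | p ≤ q} with hw0
  let pr : (Q → G → G → ℂ) →ₗ[ℂ] ℂ :=
    { toFun := fun f => f q g1 g2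
      map_add' := fun _ _ => rfl
      map_smul' := fun _ _ => rfl }
  let φ : V →ₗ[ℂ] W →ₗ[ℂ] ℂ := ξ.compr₂ pr
  have hφ : ∀ v w, φ v w = ξ v w q g1 g2 := fun v w => rfl
  have hbd : ∀ v w, ‖φ v w‖ ≤ M * ‖v‖ * ‖w‖ := by
    intro v w
    have h := hs.bound v w q g2 {g1}
    rw [Finset.sum_singleton] at h
    have h0 : 0 ≤ M * ‖v‖ * ‖w‖ := by
      have := hs.hM
      positivity
    exact (sq_le_sq₀ (norm_nonneg _) h0).1 h
  have hA : ∀ (κ : ℕ → Q → ℕ) (K : Set ℕ), (∀ m ∈ K, κ m q = m) →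
      ∀ (n : ℕ) (kk : Fin n → ℕ), Function.Injective kk → (∀ i, kk i ∈ K) →
      ∀ τ : Fin n → ℂ, (∀ i, ‖τ i‖ ≤ 1) →
      ‖∑ i, τ i • a (X (κ (kk i))) {p | q < p}‖ ≤ A * Real.sqrt n := by
    intro κ K hκ n kk hkk hK τ hτ
    refine hs.a_norm {p | q < p} n (fun i => X (κ (kk i))) τ hτ ?_
    intro p hp i j hij
    by_contra hne
    have h3 : κ (kk i) q ≠ κ (kk j) q := by
      rw [hκ _ (hK i), hκ _ (hK j)]
      exact fun h4 => hne (hkk h4)
    exact (h2 _ _ p q hp h3).1 hij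
  have hB : ∀ (κ : ℕ → Q → ℕ) (K : Set ℕ), (∀ m ∈ K, κ m q = m) →
      ∀ (n : ℕ) (kk : Fin n → ℕ), Function.Injective kk → (∀ i, kk i ∈ K) →
      ∀ τ : Fin n → ℂ, (∀ i, ‖τ i‖ ≤ 1) →
      ‖∑ i, τ i • b (Y (κ (kk i))) {p | q < p}‖ ≤ B := by
    intro κ K hκ n kk hkk hK τ hτ
    refine hs.b_norm {p | q < p} n (fun i => Y (κ (kk i))) τ hτ ?_
    intro p hp i j hij
    by_contra hne
    have h3 : κ (kk i) q ≠ κ (kk j) q := by
      rw [hκ _ (hK i), hκ _ (hK j)]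
      exact fun h4 => hne (hkk h4)
    exact (h2 _ _ p q hp h3).2 hij
  -- the three finite sets
  have f1 : {m : ℕ | ∃ k2 : Q → ℕ, k2 q = m ∧ ε < ‖φ (a (X k2) {p | q < p}) w0‖}.Finite := by
    have hch : ∀ m ∈ {m : ℕ | ∃ k2 : Q → ℕ, k2 q = m ∧ ε < ‖φ (a (X k2) {p | q < p}) w0‖},
      ∃ k2 : Q → ℕ, k2 q = m ∧ ε < ‖φ (a (X k2) {p | q < p}) w0‖ := fun m hm => hm
    choose! κ hκ using hch
    refine late_lin (φ.flip w0) (M * ‖w0‖) A ε hε (fun v => ?_) _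
      (fun m => a (X (κ m)) {p | q < p}) (fun m hm => ?_) (hA κ _ fun m hm => (hκ m hm).1)
    · have := hbd v w0
      rw [LinearMap.flip_apply]
      linarith
    · exact (hκ m hm).2
  have f2 : {m : ℕ | ∃ k2 : Q → ℕ, k2 q = m ∧ ε < ‖φ v0 (b (Y k2) {p | q < p})‖}.Finite := by
    have hch : ∀ m ∈ {m : ℕ | ∃ k2 : Q → ℕ, k2 q = m ∧ ε < ‖φ v0 (b (Y k2) {p | q < p})‖},
      ∃ k2 : Q → ℕ, k2 q = m ∧ ε < ‖φ v0 (b (Y k2) {p | q < p})‖ := fun m hm => hm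
    choose! κ hκ using hch
    refine late_lin (φ v0) (M * ‖v0‖) B ε hε (fun v => ?_) _
      (fun m => b (Y (κ m)) {p | q < p}) (fun m hm => ?_) (fun n kk hkk hK τ hτ => ?_)
    · exact hbd v0 v
    · exact (hκ m hm).2
    · rcases Nat.eq_zero_or_pos n with hn | hn
      · subst hn
        simp
      · have h5 := hB κ _ (fun m hm => (hκ m hm).1) n kk hkk hK τ hτ
        refine h5.trans ?_
        have h6 : (1:ℝ) ≤ Real.sqrt n := by
          rw [Real.one_le_sqrt]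
          exact_mod_cast hn
        have := hs.hB
        nlinarith
  have f3 : {m : ℕ | ∃ k2 : Q → ℕ, k2 q = m ∧
      ε < ‖φ (a (X k2) {p | q < p}) (b (Y k2) {p | q < p})‖}.Finite := by
    have hch : ∀ m ∈ {m : ℕ | ∃ k2 : Q → ℕ, k2 q = m ∧
      ε < ‖φ (a (X k2) {p | q < p}) (b (Y k2) {p | q < p})‖},
      ∃ k2 : Q → ℕ, k2 q = m ∧ ε < ‖φ (a (X k2) {p | q < p}) (b (Y k2) {p | q < p})‖ :=
      fun m hm => hm
    choose! κ hκ using hch
    exact late_bil φ M A B ε hε hbd _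
      (fun m => a (X (κ m)) {p | q < p}) (fun m => b (Y (κ m)) {p | q < p})
      (fun m hm => (hκ m hm).2) (hA κ _ fun m hm => (hκ m hm).1)
      (hB κ _ fun m hm => (hκ m hm).1)
  obtain ⟨m, hm⟩ := ((f1.union f2).union f3).infinite_compl.nonempty
  refine ⟨m, fun k' hk' hkm => ?_⟩
  have e1 : X k' q = g1 := (h1 k' k q hk').1
  have e2 : Y k' q = g2 := (h1 k' k q hk').2
  have e3 : a (X k') {p | p ≤ q} = v0 :=
    hs.a_congr _ _ _ fun p hp => (h1 k' k p fun p' hp' => hk' p' (lt_of_lt_of_le hp' hp)).1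
  have e4 : b (Y k') {p | p ≤ q} = w0 :=
    hs.b_congr _ _ _ fun p hp => (h1 k' k p fun p' hp' => hk' p' (lt_of_lt_of_le hp' hp)).2
  rw [e1, e2, e3, e4, ← hφ, ← hφ, ← hφ]
  simp only [Set.mem_compl_iff, Set.mem_union, not_or, Set.mem_setOf_eq, not_exists, not_and,
    not_lt] at hm
  exact ⟨hm.1.1 k' hkm, hm.1.2 k' hkm, hm.2 k' hkm⟩

end Job14821

section Job14862

open Filter Set Cardinal

theorem phillips_norm (t m r1 r2 r3 r4 r5 r6 : ℂ) (ε c : ℝ) (hε : ε = c / 12)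
    (ht : t = m + r1 + r2 + r3 + r4 + r5 + r6) (hm : c < ‖m‖) (h1 : ‖r1‖ ≤ ε) (h2 : ‖r2‖ ≤ ε)
    (h3 : ‖r3‖ ≤ ε) (h4 : ‖r4‖ ≤ ε) (h5 : ‖r5‖ ≤ ε) (h6 : ‖r6‖ ≤ ε) : c / 2 ≤ ‖t‖ := by
  have e : m = t - r1 - r2 - r3 - r4 - r5 - r6 := by rw [ht]; ring
  have k1 := norm_sub_le t r1
  have k2 := norm_sub_le (t - r1) r2
  have k3 := norm_sub_le (t - r1 - r2) r3
  have k4 := norm_sub_le (t - r1 - r2 - r3) r4
  have k5 := norm_sub_le (t - r1 - r2 - r3 - r4) r5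
  have k6 := norm_sub_le (t - r1 - r2 - r3 - r4 - r5) r6
  rw [← e] at k6
  linarith

/-- The labelled bilinear Phillips lemma. -/
theorem phillips {Q G V W : Type u}
    [SeminormedAddCommGroup V] [NormedSpace ℂ V]
    [SeminormedAddCommGroup W] [NormedSpace ℂ W] {a : (Q → G) → Set Q → V}
    {b : (Q → G) → Set Q → W} {ξ : V →ₗ[ℂ] W →ₗ[ℂ] (Q → G → G → ℂ)} {M A B : ℝ}
    (hs : Sys a b ξ M A B) (U : Ultrafilter G) (hU : ∀ S : Set G, S.Finite → Sᶜ ∈ U)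
    (hU' : ∀ S ∈ U, #(Q → ℕ) ≤ #S) (Q1 : Set Q) (c : ℝ) (hc : 0 < c)
    (hq : ∀ q ∈ Q1, ∀ᶠ g1 in (U : Filter G), ∀ᶠ g2 in (U : Filter G),
      c < ‖ξ (a (fun _ => g1) {q}) (b (fun _ => g2) {q}) q g1 g2‖) :
    ∃ x y : Q → G, ∀ q ∈ Q1, c / 2 ≤ ‖ξ (a x univ) (b y univ) q (x q) (y q)‖ := by
  classical
  obtain ⟨inst1, inst2⟩ := exists_wellFoundedLT Q
  obtain ⟨X, Y, hXY1, hXY2, hXY3⟩ := labels hs U hU hU' Q1 c hq (c / 12) (by linarith)
  choose m hm using late hs X Y hXY1 hXY2 (c / 12) (by linarith)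
  obtain ⟨k, hk⟩ : ∃ k : Q → ℕ, ∀ q, k q = m (fun p => if p < q then k p else 0) q := by
    have hwf : WellFounded (fun a b : Q => a < b) := wellFounded_lt
    refine ⟨hwf.fix (fun q ih => m (fun p => if h : p < q then ih p h else 0) q), fun q => ?_⟩
    rw [WellFounded.fix_eq]
    congr 1
  have hlate : ∀ q,
      ‖ξ (a (X k) {p | q < p}) (b (Y k) {p | p ≤ q}) q (X k q) (Y k q)‖ ≤ c / 12 ∧
      ‖ξ (a (X k) {p | p ≤ q}) (b (Y k) {p | q < p}) q (X k q) (Y k q)‖ ≤ c / 12 ∧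
      ‖ξ (a (X k) {p | q < p}) (b (Y k) {p | q < p}) q (X k q) (Y k q)‖ ≤ c / 12 := by
    intro q
    apply hm (fun p => if p < q then k p else 0) q k
    · intro p hp
      rw [if_pos hp]
    · exact hk q
  refine ⟨X k, Y k, fun q hq1 => ?_⟩
  have e1 : (univ : Set Q) = {p | p ≤ q} ∪ {p | q < p} := by
    ext p
    simp only [mem_univ, mem_union, mem_setOf_eq, true_iff]
    exact le_or_gt p q
  have e2 : {p | p ≤ q} = {p | p < q} ∪ {q} := by
    ext p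
    simp only [mem_union, mem_setOf_eq, mem_singleton_iff]
    exact le_iff_lt_or_eq
  have d1 : Disjoint {p | p ≤ q} {p | q < p} := by
    rw [Set.disjoint_left]
    intro p hp hp2
    exact absurd hp (not_le.mpr hp2)
  have d2 : Disjoint {p | p < q} {q} := by
    rw [Set.disjoint_left]
    intro p hp hp2
    rw [mem_singleton_iff] at hp2
    exact absurd hp2 (ne_of_lt hp)
  obtain ⟨l1, l2, l3⟩ := hlate q
  obtain ⟨l4, l5, l6, l7⟩ := hXY3 k q
  apply phillips_norm _ _ _ _ _ _ _ _ (c / 12) c rfl ?_ (l7 hq1) l4 l5 l6 l1 l2 l3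
  have ea : a (X k) univ = a (X k) {p | p ≤ q} + a (X k) {p | q < p} := by
    rw [← hs.a_add _ _ _ d1, ← e1]
  have eb : b (Y k) univ = b (Y k) {p | p ≤ q} + b (Y k) {p | q < p} := by
    rw [← hs.b_add _ _ _ d1, ← e1]
  have ea2 : a (X k) {p | p ≤ q} = a (X k) {p | p < q} + a (X k) {q} := by
    rw [← hs.a_add _ _ _ d2, ← e2]
  have eb2 : b (Y k) {p | p ≤ q} = b (Y k) {p | p < q} + b (Y k) {q} := by
    rw [← hs.b_add _ _ _ d2, ← e2]
  rw [ea, eb]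
  simp only [map_add, LinearMap.add_apply, Pi.add_apply]
  have e3 : ξ (a (X k) {p | p ≤ q}) (b (Y k) {p | p ≤ q}) q (X k q) (Y k q) =
      ξ (a (X k) {p | p < q}) (b (Y k) {p | p < q}) q (X k q) (Y k q) +
      ξ (a (X k) {p | p < q}) (b (Y k) {q}) q (X k q) (Y k q) +
      ξ (a (X k) {q}) (b (Y k) {p | p < q}) q (X k q) (Y k q) +
      ξ (a (X k) {q}) (b (Y k) {q}) q (X k q) (Y k q) := by
    rw [ea2, eb2]
    simp only [map_add, LinearMap.add_apply, Pi.add_apply]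
    ring
  rw [e3]
  ring

end Job14862

section Job15223

open Filter Set Cardinal Topology

/-- A block: a finite group with scalar functions `r k`, a function `t` with values in the
algebra `E`, algebra elements `f k`, scalars `lam g` and an error `eps`. -/
structure Blk (E : Type u) [NormedRing E] [NormedAlgebra ℂ E] where
  G : Type
  [grp : Group G]
  [fin : Fintype G]
  n : ℕ
  f : Fin (n + 1) → E
  r : Fin (n + 1) → G → ℂ
  t : G → E
  lam : G → ℂ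
  eps : ℝ

attribute [instance] Blk.grp Blk.fin

/-- `t` averaged with `r k` on the right. -/
noncomputable def Blk.tk {E : Type u} [NormedRing E] [NormedAlgebra ℂ E] (B : Blk E)
    (k : Fin (B.n + 1)) (g : B.G) : E := ∑ g', B.r k g' • B.t (g * g')

/-- The properties of a block. -/
structure Blk.Ok {E : Type u} [NormedRing E] [NormedAlgebra ℂ E] (B : Blk E) : Prop where
  lam_le : ∀ g, ‖B.lam g‖ ≤ 1
  one : B.tk 0 1 = 1
  mul : ∀ k g, ‖B.tk k g - B.tk 0 g * B.f k‖ ≤ B.eps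
  near : ∀ g, ‖B.tk 0 g - B.lam g • (1 : E)‖ ≤ B.eps
  rel : ∀ k h, B.f k * ∑ g, B.r 0 g • B.t (g * h) = ∑ g, B.r k g • B.t (g * h)
  eps_nonneg : 0 ≤ B.eps
  eps_le : B.eps ≤ 1

/-- Functions on `(Σ q, G q) × Γ`, sup norm, tending to zero in `Γ` and along `U`. -/
structure FSp0 {Q : Type u} (G : Q → Type) (Γ : Type u) (U : Ultrafilter Q) (V0 : Type u)
    [NormedAddCommGroup V0] [NormedSpace ℂ V0]
    (ev0 : V0 →ₗ[ℂ] ((Σ q, G q) → Γ → ℂ)) : Prop where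
  le : ∀ v s γ, ‖ev0 v s γ‖ ≤ ‖v‖
  norm_le : ∀ v (C : ℝ), 0 ≤ C → (∀ s γ, ‖ev0 v s γ‖ ≤ C) → ‖v‖ ≤ C
  fin : ∀ v s (ε : ℝ), 0 < ε → {γ | ε < ‖ev0 v s γ‖}.Finite
  lim : ∀ v (ε : ℝ), 0 < ε → ∀ᶠ q in (U : Filter Q), ∀ g γ, ‖ev0 v ⟨q, g⟩ γ‖ ≤ ε
  surj : ∀ (F : (Σ q, G q) → Γ → ℂ) (C : ℝ), (∀ s γ, ‖F s γ‖ ≤ C) →
    (∀ s (ε : ℝ), 0 < ε → {γ | ε < ‖F s γ‖}.Finite) →
    (∀ ε : ℝ, 0 < ε → ∀ᶠ q in (U : Filter Q), ∀ g γ, ‖F ⟨q, g⟩ γ‖ ≤ ε) → ∃ v, ev0 v = F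

/-- Functions on `Q × Γ × Γ`, square summable in the first label, tending to zero in the second
label and along `U`. -/
structure FSp (Q Γ : Type u) (U : Ultrafilter Q) (V : Type u)
    [NormedAddCommGroup V] [NormedSpace ℂ V] (ev : V →ₗ[ℂ] (Q → Γ → Γ → ℂ)) : Prop where
  le : ∀ v q g2 (F : Finset Γ), ∑ g1 ∈ F, ‖ev v q g1 g2‖ ^ 2 ≤ ‖v‖ ^ 2
  norm_le : ∀ v (C : ℝ), 0 ≤ C → (∀ q g2 (F : Finset Γ), ∑ g1 ∈ F, ‖ev v q g1 g2‖ ^ 2 ≤ C ^ 2) →
    ‖v‖ ≤ C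
  fin : ∀ v q g1 (ε : ℝ), 0 < ε → {g2 | ε < ‖ev v q g1 g2‖}.Finite
  lim : ∀ v (ε : ℝ), 0 < ε → ∀ᶠ q in (U : Filter Q), ∀ g1 g2, ‖ev v q g1 g2‖ ≤ ε
  surj : ∀ (H : Q → Γ → Γ → ℂ) (C : ℝ), 0 ≤ C →
    (∀ q g2 (F : Finset Γ), ∑ g1 ∈ F, ‖H q g1 g2‖ ^ 2 ≤ C ^ 2) →
    (∀ q g1 (ε : ℝ), 0 < ε → {g2 | ε < ‖H q g1 g2‖}.Finite) →
    (∀ ε : ℝ, 0 < ε → ∀ᶠ q in (U : Filter Q), ∀ g1 g2, ‖H q g1 g2‖ ≤ ε) → ∃ v, ev v = H

/-- A unital Banach bimodule with left action `l` and right action `r`. -/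
structure BM {E W : Type u} [NormedRing E] [NormedAlgebra ℂ E] [NormedAddCommGroup W]
    [NormedSpace ℂ W] (l r : E →L[ℂ] W →L[ℂ] W) : Prop where
  l_one : ∀ w, l 1 w = w
  r_one : ∀ w, r 1 w = w
  l_mul : ∀ a b w, l (a * b) w = l a (l b w)
  r_mul : ∀ a b w, r (a * b) w = r b (r a w)
  comm : ∀ a b w, l a (r b w) = r b (l a w)

/-- ambient space -/
abbrev j15Amb {Q : Type u} (G : Q → Type) (Γ : Type u) : Type u :=
  lp (fun _ : (Σ q, G q) × Γ => ℂ) ⊤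

/-- the subspace -/
noncomputable def j15Sub {Q : Type u} (G : Q → Type) (Γ : Type u) (U : Ultrafilter Q) :
    Submodule ℂ (j15Amb G Γ) where
  carrier := {v | (∀ s (ε : ℝ), 0 < ε → {γ | ε < ‖v (s, γ)‖}.Finite) ∧
    ∀ ε : ℝ, 0 < ε → ∀ᶠ q in (U : Filter Q), ∀ (g : G q) γ, ‖v (⟨q, g⟩, γ)‖ ≤ ε}
  add_mem' := by
    rintro a b ⟨ha1, ha2⟩ ⟨hb1, hb2⟩
    refine ⟨fun s ε hε => ?_, fun ε hε => ?_⟩
    · refine ((ha1 s (ε / 2) (by linarith)).union (hb1 s (ε / 2) (by linarith))).subset ?_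
      intro γ hγ
      by_contra hcon
      simp only [Set.mem_union, Set.mem_ofPred_eq, not_or, not_lt] at hcon
      have h1 : ‖(a + b) (s, γ)‖ ≤ ‖a (s, γ)‖ + ‖b (s, γ)‖ := norm_add_le _ _
      have h2 : ε < ‖(a + b) (s, γ)‖ := hγ
      linarith [hcon.1, hcon.2]
    · filter_upwards [ha2 (ε / 2) (by linarith), hb2 (ε / 2) (by linarith)] with q h1 h2 g γ
      have h3 : ‖(a + b) (⟨q, g⟩, γ)‖ ≤ ‖a (⟨q, g⟩, γ)‖ + ‖b (⟨q, g⟩, γ)‖ := norm_add_le _ _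
      linarith [h1 g γ, h2 g γ]
  zero_mem' := by
    refine ⟨fun s ε hε => ?_, fun ε hε => ?_⟩
    · convert Set.finite_empty
      rw [Set.eq_empty_iff_forall_notMem]
      intro γ hγ
      have h2 : ε < ‖(0 : j15Amb G Γ) (s, γ)‖ := hγ
      have h3 : (0 : j15Amb G Γ) (s, γ) = 0 := rfl
      rw [h3, norm_zero] at h2
      linarith
    · refine Filter.Eventually.of_forall fun q g γ => ?_
      have h3 : (0 : j15Amb G Γ) (⟨q, g⟩, γ) = 0 := rfl
      rw [h3, norm_zero]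
      exact hε.le
  smul_mem' := by
    rintro c a ⟨ha1, ha2⟩
    have hc : 0 < ‖c‖ + 1 := by positivity
    have key : ∀ i, ‖(c • a) i‖ ≤ (‖c‖ + 1) * ‖a i‖ := by
      intro i
      have h1 : (c • a) i = c * a i := rfl
      rw [h1, norm_mul]
      nlinarith [norm_nonneg (a i)]
    refine ⟨fun s ε hε => ?_, fun ε hε => ?_⟩
    · refine (ha1 s (ε / (‖c‖ + 1)) (by positivity)).subset ?_
      intro γ hγ
      have h2 : ε < ‖(c • a) (s, γ)‖ := hγ
      change ε / (‖c‖ + 1) < ‖a (s, γ)‖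
      rw [div_lt_iff₀ hc]
      linarith [key (s, γ)]
    · filter_upwards [ha2 (ε / (‖c‖ + 1)) (by positivity)] with q h1 g γ
      refine (key _).trans ?_
      have := h1 g γ
      rw [le_div_iff₀ hc] at this
      linarith

theorem j15_closed {Q : Type u} (G : Q → Type) (Γ : Type u) (U : Ultrafilter Q) :
    IsClosed ((j15Sub G Γ U : Submodule ℂ (j15Amb G Γ)) : Set (j15Amb G Γ)) := by
  rw [← closure_subset_iff_isClosed]
  intro v hv
  rw [Metric.mem_closure_iff] at hv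
  have key : ∀ w : j15Amb G Γ, ∀ i, ‖v i‖ ≤ ‖w i‖ + dist v w := by
    intro w i
    have h1 : ‖(v - w) i‖ ≤ ‖v - w‖ := lp.norm_apply_le_norm ENNReal.top_ne_zero (v - w) i
    have h2 : (v - w) i = v i - w i := rfl
    rw [h2] at h1
    rw [dist_eq_norm]
    have h3 : ‖v i‖ ≤ ‖w i‖ + ‖v i - w i‖ := by
      have := norm_add_le (w i) (v i - w i)
      rwa [add_sub_cancel] at this
    linarith
  refine ⟨fun s ε hε => ?_, fun ε hε => ?_⟩
  · obtain ⟨w, hw, hd⟩ := hv (ε / 2) (by linarith)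
    refine (hw.1 s (ε / 2) (by linarith)).subset ?_
    intro γ hγ
    have h2 : ε < ‖v (s, γ)‖ := hγ
    change ε / 2 < ‖w (s, γ)‖
    linarith [key w (s, γ)]
  · obtain ⟨w, hw, hd⟩ := hv (ε / 2) (by linarith)
    filter_upwards [hw.2 (ε / 2) (by linarith)] with q h1 g γ
    linarith [key w (⟨q, g⟩, γ), h1 g γ]

theorem exists_fsp0 {Q : Type u} (G : Q → Type) (Γ : Type u) (U : Ultrafilter Q) :
    ∃ (V0 : Type u) (_ : NormedAddCommGroup V0) (_ : NormedSpace ℂ V0)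
      (ev0 : V0 →ₗ[ℂ] ((Σ q, G q) → Γ → ℂ)), CompleteSpace V0 ∧ FSp0 G Γ U V0 ev0 := by
  refine ⟨j15Sub G Γ U, inferInstance, inferInstance,
    { toFun := fun v s γ => v.1 (s, γ)
      map_add' := fun _ _ => rfl
      map_smul' := fun _ _ => rfl }, (j15_closed G Γ U).completeSpace_coe, ?_⟩
  constructor
  · intro v s γ
    exact lp.norm_apply_le_norm ENNReal.top_ne_zero v.1 (s, γ)
  · intro v C hC h
    exact lp.norm_le_of_forall_le (f := v.1) hC fun i => h i.1 i.2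
  · intro v s ε hε
    exact v.2.1 s ε hε
  · intro v ε hε
    exact v.2.2 ε hε
  · intro F C hC h1 h2
    have hmem : Memℓp (fun i : (Σ q, G q) × Γ => F i.1 i.2) ⊤ := by
      apply memℓp_infty
      refine ⟨C, ?_⟩
      rintro _ ⟨i, rfl⟩
      exact hC i.1 i.2
    exact ⟨⟨⟨fun i => F i.1 i.2, hmem⟩, h1, h2⟩, rfl⟩

end Job15223

section Job15232

open Filter Set Cardinal Topology

/-- the ambient space -/
abbrev FW (Q Γ : Type u) : Type u := lp (fun _ : Q × Γ => lp (fun _ : Γ => ℂ) 2) ⊤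

/-- evaluation -/
noncomputable def FWev (Q Γ : Type u) : FW Q Γ →ₗ[ℂ] (Q → Γ → Γ → ℂ) where
  toFun v q g1 g2 := (v (q, g2)) g1
  map_add' v w := by
    funext q g1 g2
    simp [lp.coeFn_add]
  map_smul' c v := by
    funext q g1 g2
    simp [lp.coeFn_smul]

theorem FWev_apply {Q Γ : Type u} (v : FW Q Γ) (q : Q) (g1 g2 : Γ) :
    FWev Q Γ v q g1 g2 = (v (q, g2)) g1 := rfl

theorem FW_le {Q Γ : Type u} (v : FW Q Γ) (q : Q) (g2 : Γ) (F : Finset Γ) :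
    ∑ g1 ∈ F, ‖FWev Q Γ v q g1 g2‖ ^ 2 ≤ ‖v‖ ^ 2 := by
  have h1 := lp.sum_rpow_le_norm_rpow (p := 2) (by norm_num) (v (q, g2)) F
  have h2 : ‖v (q, g2)‖ ≤ ‖v‖ := lp.norm_apply_le_norm (by simp) v (q, g2)
  have h3 : ‖v (q, g2)‖ ^ 2 ≤ ‖v‖ ^ 2 := by gcongr
  simp only [ENNReal.toReal_ofNat, Real.rpow_ofNat] at h1
  exact h1.trans h3

theorem FW_le1 {Q Γ : Type u} (v : FW Q Γ) (q : Q) (g1 g2 : Γ) :
    ‖FWev Q Γ v q g1 g2‖ ≤ ‖v‖ := by
  have h1 := FW_le v q g2 {g1}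
  rw [Finset.sum_singleton] at h1
  exact le_of_sq_le_sq h1 (norm_nonneg _)

theorem FW_norm_le {Q Γ : Type u} (v : FW Q Γ) (C : ℝ) (hC : 0 ≤ C)
    (h : ∀ q g2 (F : Finset Γ), ∑ g1 ∈ F, ‖FWev Q Γ v q g1 g2‖ ^ 2 ≤ C ^ 2) : ‖v‖ ≤ C := by
  refine lp.norm_le_of_forall_le hC (fun i => ?_)
  refine lp.norm_le_of_forall_sum_le (p := 2) (by norm_num) hC (fun F => ?_)
  simp only [ENNReal.toReal_ofNat, Real.rpow_ofNat]
  exact h i.1 i.2 F

/-- the closed subspace -/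
noncomputable def FWs (Q Γ : Type u) (U : Ultrafilter Q) : Submodule ℂ (FW Q Γ) where
  carrier := {v | (∀ q g1 (ε : ℝ), 0 < ε → {g2 | ε < ‖FWev Q Γ v q g1 g2‖}.Finite) ∧
    ∀ (ε : ℝ), 0 < ε → ∀ᶠ q in (U : Filter Q), ∀ g1 g2, ‖FWev Q Γ v q g1 g2‖ ≤ ε}
  add_mem' := by
    rintro v w ⟨v1, v2⟩ ⟨w1, w2⟩
    refine ⟨fun q g1 ε hε => ?_, fun ε hε => ?_⟩
    · refine ((v1 q g1 (ε / 2) (by positivity)).union (w1 q g1 (ε / 2) (by positivity))).subset ?_
      intro g2 hg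
      simp only [mem_union, mem_setOf_eq, map_add, Pi.add_apply] at hg ⊢
      by_contra hcon
      push Not at hcon
      have := norm_add_le (FWev Q Γ v q g1 g2) (FWev Q Γ w q g1 g2)
      linarith [hcon.1, hcon.2]
    · filter_upwards [v2 (ε / 2) (by positivity), w2 (ε / 2) (by positivity)] with q h1 h2 g1 g2
      have := norm_add_le (FWev Q Γ v q g1 g2) (FWev Q Γ w q g1 g2)
      simp only [map_add, Pi.add_apply]
      linarith [h1 g1 g2, h2 g1 g2]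
  zero_mem' := by
    refine ⟨fun q g1 ε hε => ?_, fun ε hε => ?_⟩
    · have : {g2 | ε < ‖FWev Q Γ 0 q g1 g2‖} = ∅ := by
        ext g2
        simp [hε.le]
      rw [this]; exact finite_empty
    · refine Eventually.of_forall fun q g1 g2 => ?_
      simp [hε.le]
  smul_mem' := by
    rintro c v ⟨v1, v2⟩
    have hc : 0 < ‖c‖ + 1 := by positivity
    refine ⟨fun q g1 ε hε => ?_, fun ε hε => ?_⟩
    · refine (v1 q g1 (ε / (‖c‖ + 1)) (by positivity)).subset ?_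
      intro g2 hg
      simp only [mem_setOf_eq, map_smul, Pi.smul_apply, norm_smul] at hg ⊢
      rw [div_lt_iff₀ hc]
      nlinarith [norm_nonneg (FWev Q Γ v q g1 g2)]
    · filter_upwards [v2 (ε / (‖c‖ + 1)) (by positivity)] with q h1 g1 g2
      have h2 := h1 g1 g2
      rw [le_div_iff₀ hc] at h2
      simp only [map_smul, Pi.smul_apply, norm_smul]
      nlinarith [norm_nonneg (FWev Q Γ v q g1 g2)]

theorem FWs_closed (Q Γ : Type u) (U : Ultrafilter Q) : IsClosed (FWs Q Γ U : Set (FW Q Γ)) := by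
  rw [← isSeqClosed_iff_isClosed]
  intro x v hx hxv
  have hnear : ∀ ε > 0, ∃ w ∈ FWs Q Γ U, ∀ q g1 g2,
      ‖FWev Q Γ v q g1 g2‖ ≤ ‖FWev Q Γ w q g1 g2‖ + ε := by
    intro ε hε
    obtain ⟨n, hn⟩ := (Metric.tendsto_atTop.1 hxv ε hε)
    have h1 := hn n le_rfl
    rw [dist_eq_norm] at h1
    refine ⟨x n, hx n, fun q g1 g2 => ?_⟩
    have h2 := FW_le1 (x n - v) q g1 g2
    rw [map_sub] at h2
    simp only [Pi.sub_apply] at h2
    have h3 := norm_sub_norm_le (FWev Q Γ v q g1 g2) (FWev Q Γ (x n) q g1 g2)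
    rw [norm_sub_rev] at h3
    linarith
  refine ⟨fun q g1 ε hε => ?_, fun ε hε => ?_⟩
  · obtain ⟨w, hw, hvw⟩ := hnear (ε / 2) (by positivity)
    refine (hw.1 q g1 (ε / 2) (by positivity)).subset ?_
    intro g2 hg
    simp only [mem_setOf_eq] at hg ⊢
    linarith [hvw q g1 g2]
  · obtain ⟨w, hw, hvw⟩ := hnear (ε / 2) (by positivity)
    filter_upwards [hw.2 (ε / 2) (by positivity)] with q h1 g1 g2
    linarith [hvw q g1 g2, h1 g1 g2]

theorem exists_fsp (Q Γ : Type u) (U : Ultrafilter Q) :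
    ∃ (V : Type u) (_ : NormedAddCommGroup V) (_ : NormedSpace ℂ V)
      (ev : V →ₗ[ℂ] (Q → Γ → Γ → ℂ)), CompleteSpace V ∧ FSp Q Γ U V ev := by
  refine ⟨FWs Q Γ U, inferInstance, inferInstance, (FWev Q Γ).comp (FWs Q Γ U).subtype,
    (FWs_closed Q Γ U).completeSpace_coe, ?_⟩
  refine ⟨fun v q g2 F => FW_le v.1 q g2 F, fun v C hC h => FW_norm_le v.1 C hC h,
    fun v q g1 ε hε => v.2.1 q g1 ε hε, fun v ε hε => v.2.2 ε hε, ?_⟩
  intro H C hC h1 h2 h3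
  have m1 : ∀ p : Q × Γ, Memℓp (fun g1 => H p.1 g1 p.2) 2 := by
    intro p
    refine memℓp_gen' (C := C ^ 2) (fun F => ?_)
    simp only [ENNReal.toReal_ofNat, Real.rpow_ofNat]
    exact h1 p.1 p.2 F
  have m2 : Memℓp (fun p : Q × Γ => (⟨fun g1 => H p.1 g1 p.2, m1 p⟩ : lp (fun _ : Γ => ℂ) 2)) ⊤ := by
    refine memℓp_infty ⟨C, ?_⟩
    rintro _ ⟨p, rfl⟩
    refine lp.norm_le_of_forall_sum_le (p := 2) (by norm_num) hC (fun F => ?_)
    simp only [ENNReal.toReal_ofNat, Real.rpow_ofNat]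
    exact h1 p.1 p.2 F
  refine ⟨⟨⟨fun p => ⟨fun g1 => H p.1 g1 p.2, m1 p⟩, m2⟩, ?_⟩, ?_⟩
  · exact ⟨fun q g1 ε hε => h2 q g1 ε hε, fun ε hε => h3 ε hε⟩
  · rfl

end Job15232

theorem exists_block (n : ℕ) (eps : ℝ) (h : 0 < eps) :
    ∃ (G : Type) (_ : Group G) (_ : Fintype G) (Z : Type) (_ : AddCommGroup Z) (_ : Module ℂ Z)
      (rho : G →* (Z →ₗ[ℂ] Z)) (z : Fin (n + 1) → Z) (q : Fin (n + 1) → (Z →ₗ[ℂ] ℂ))
      (lam : G → ℂ) (r : Fin (n + 1) → G → ℂ) (zeta : Z) (Phi : Z →ₗ[ℂ] ℂ),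
      (∀ l k, q l (z k) = if l = k then 1 else 0) ∧ (∀ g, ‖lam g‖ ≤ 1) ∧
      (∀ g l k, ‖q l (rho g (z k)) - lam g * (if l = k then 1 else 0)‖ ≤ eps) ∧
      (∀ k x, ∑ g, r k g • rho g x = Phi x • z k) ∧ Phi zeta = 1 :=
  Pool.Agent.Helper832.Blk.exists_block n eps h

section Job15251

open Filter Set Cardinal Topology

theorem exists_block2 {E : Type u} [NormedRing E] [NormedAlgebra ℂ E] (F : Finset E) (ε : ℝ)
    (hε : 0 < ε) (hε1 : ε ≤ 1) : ∃ B : Blk E, B.Ok ∧ B.eps = ε ∧ (∀ a ∈ F, ∃ k, B.f k = a) := by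
  classical
  let f : Fin (F.card + 1) → E := Fin.cons 1 (fun i => ((F.equivFin.symm i : F) : E))
  have hf0 : f 0 = 1 := rfl
  have hfF : ∀ a ∈ F, ∃ k, f k = a := by
    intro a ha
    refine ⟨Fin.succ (F.equivFin ⟨a, ha⟩), ?_⟩
    show ((F.equivFin.symm (F.equivFin ⟨a, ha⟩) : F) : E) = a
    rw [Equiv.symm_apply_apply]
  set S : ℝ := ∑ l, ‖f l‖ with hS
  have hS0 : 0 ≤ S := Finset.sum_nonneg fun _ _ => norm_nonneg _
  have hfS : ∀ k, ‖f k‖ ≤ S := fun k =>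
    Finset.single_le_sum (f := fun l => ‖f l‖) (fun _ _ => norm_nonneg _) (Finset.mem_univ k)
  obtain ⟨G, hG, hGf, Z, hZ, hZm, rho, z, q, lam, r, zeta, Phi, h1, h2, h3, h4, h5⟩ :=
    exists_block F.card (ε / ((S + 1) * (S + 1))) (by positivity)
  set e0 : ℝ := ε / ((S + 1) * (S + 1)) with he0
  have he0pos : 0 < e0 := by positivity
  have he0S : e0 * ((S + 1) * (S + 1)) = ε := by
    rw [he0]; field_simp
  let p : Z →ₗ[ℂ] E := ∑ l, (q l).smulRight (f l)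
  have hp : ∀ x, p x = ∑ l, q l x • f l := by
    intro x
    simp [p, LinearMap.sum_apply, LinearMap.smulRight_apply]
  have hpz : ∀ k, p (z k) = f k := by
    intro k
    rw [hp]
    simp_rw [h1]
    simp
  have hpe : ∀ g k, ‖p (rho g (z k)) - lam g • f k‖ ≤ e0 * S := by
    intro g k
    have : p (rho g (z k)) - lam g • f k =
        ∑ l, (q l (rho g (z k)) - lam g * (if l = k then 1 else 0)) • f l := by
      rw [hp]
      simp_rw [sub_smul]
      rw [Finset.sum_sub_distrib]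
      simp
    rw [this]
    refine (norm_sum_le _ _).trans ?_
    rw [hS, Finset.mul_sum]
    refine Finset.sum_le_sum fun l _ => ?_
    rw [norm_smul]
    exact mul_le_mul_of_nonneg_right (h3 g l k) (norm_nonneg _)
  let B : Blk E :=
    { G := G
      n := F.card
      f := f
      r := r
      t := fun g => p (rho g zeta)
      lam := lam
      eps := ε }
  have htk : ∀ k g, B.tk k g = p (rho g (z k)) := by
    intro k g
    show ∑ g', r k g' • p (rho (g * g') zeta) = _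
    have h6 := h4 k zeta
    rw [h5, one_smul] at h6
    rw [← h6, map_sum, map_sum]
    refine Finset.sum_congr rfl fun g' _ => ?_
    rw [map_smul, map_smul, map_mul]
    rfl
  have hrel : ∀ k h, ∑ g, r k g • p (rho (g * h) zeta) = Phi (rho h zeta) • f k := by
    intro k h
    have h6 := h4 k (rho h zeta)
    rw [← hpz, ← map_smul, ← h6, map_sum]
    refine Finset.sum_congr rfl fun g' _ => ?_
    rw [map_smul, map_mul]
    rfl
  have hb1 : e0 * S ≤ ε := by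
    rw [← he0S]
    refine mul_le_mul_of_nonneg_left ?_ he0pos.le
    nlinarith
  refine ⟨B, ⟨h2, ?_, ?_, ?_, ?_, hε.le, hε1⟩, rfl, hfF⟩
  · rw [htk, map_one]
    show p (z 0) = 1
    rw [hpz, hf0]
  · intro k g
    rw [htk, htk]
    show ‖p (rho g (z k)) - p (rho g (z 0)) * f k‖ ≤ ε
    have e1 := hpe g k
    have e2 := hpe g 0
    have : p (rho g (z k)) - p (rho g (z 0)) * f k =
        (p (rho g (z k)) - lam g • f k) - (p (rho g (z 0)) - lam g • f 0) * f k := by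
      rw [sub_mul, hf0, smul_mul_assoc, one_mul]; abel
    rw [this]
    refine (norm_sub_le _ _).trans ?_
    have e3 : ‖(p (rho g (z 0)) - lam g • f 0) * f k‖ ≤ e0 * S * S := by
      refine (norm_mul_le _ _).trans ?_
      exact mul_le_mul e2 (hfS k) (norm_nonneg _) (by positivity)
    refine (add_le_add e1 e3).trans ?_
    rw [← he0S]
    nlinarith
  · intro g
    rw [htk]
    show ‖p (rho g (z 0)) - lam g • (1 : E)‖ ≤ ε
    have e2 := hpe g 0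
    rw [hf0] at e2
    exact e2.trans hb1
  · intro k h
    show f k * ∑ g, r 0 g • p (rho (g * h) zeta) = ∑ g, r k g • p (rho (g * h) zeta)
    rw [hrel, hrel, hf0, mul_smul_comm, mul_one]

end Job15251

section Job15256

open Filter Set Cardinal Topology

theorem bid_aux {W : Type u} [NormedAddCommGroup W] [NormedSpace ℂ W]
    (ω : (W →L[ℂ] ℂ) →L[ℂ] ℂ) (c : ℝ) (hc : 0 < c) (F : Finset W)
    (hF : ∀ ζ : W →L[ℂ] ℂ, ‖ζ‖ ≤ 1 → (∀ w ∈ F, ζ w = 0) → ‖ω ζ‖ ≤ c) :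
    ∃ w : W, ∀ ζ : W →L[ℂ] ℂ, ‖ω ζ - ζ w‖ ≤ c * ‖ζ‖ := by
  classical
  let N : Submodule ℂ (W →L[ℂ] ℂ) :=
    { carrier := {ζ | ∀ w ∈ F, ζ w = 0}
      add_mem' := by
        intro a b ha hb w hw
        rw [ContinuousLinearMap.add_apply, ha w hw, hb w hw, add_zero]
      zero_mem' := by
        intro w _
        rfl
      smul_mem' := by
        intro r a ha w hw
        rw [ContinuousLinearMap.smul_apply, ha w hw, smul_zero] }
  obtain ⟨g, hg1, hg2⟩ := exists_extension_norm_eq N (ω.comp N.subtypeL)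
  have hgn : ‖g‖ ≤ c := by
    rw [hg2]
    apply ContinuousLinearMap.opNorm_le_bound _ hc.le
    rintro ⟨ζ, hζ⟩
    show ‖ω ζ‖ ≤ c * ‖ζ‖
    by_cases h0 : ζ = 0
    · subst h0; simp
    · have hn : 0 < ‖ζ‖ := norm_pos_iff.2 h0
      have h1 := hF (((‖ζ‖ : ℂ)⁻¹) • ζ) (by
        rw [norm_smul, norm_inv, Complex.norm_real, norm_norm, inv_mul_cancel₀ hn.ne']) (by
        intro w hw
        rw [ContinuousLinearMap.smul_apply, hζ w hw, smul_zero])
      rw [map_smul, norm_smul, norm_inv, Complex.norm_real, norm_norm] at h1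
      rw [inv_mul_le_iff₀ hn] at h1
      linarith
  let L : F → (W →L[ℂ] ℂ) →ₗ[ℂ] ℂ := fun w =>
    { toFun := fun ζ => ζ w
      map_add' := fun _ _ => rfl
      map_smul' := fun _ _ => rfl }
  have hspan : ((ω - g : (W →L[ℂ] ℂ) →L[ℂ] ℂ) : (W →L[ℂ] ℂ) →ₗ[ℂ] ℂ) ∈
      Submodule.span ℂ (Set.range L) := by
    apply mem_span_of_iInf_ker_le_ker
    intro ζ hζ
    rw [Submodule.mem_iInf] at hζ
    have hN : ζ ∈ N := fun w hw => hζ ⟨w, hw⟩
    rw [LinearMap.mem_ker]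
    show ω ζ - g ζ = 0
    have := hg1 ⟨ζ, hN⟩
    rw [this]
    exact sub_self _
  have hall : ∀ K ∈ Submodule.span ℂ (Set.range L), ∃ w : W, ∀ ζ : W →L[ℂ] ℂ, K ζ = ζ w := by
    intro K hK
    induction hK using Submodule.span_induction with
    | mem x hx =>
      obtain ⟨w, rfl⟩ := hx
      exact ⟨w, fun ζ => rfl⟩
    | zero => exact ⟨0, fun ζ => by simp⟩
    | add x y _ _ hx hy =>
      obtain ⟨a, ha⟩ := hx
      obtain ⟨b, hb⟩ := hy
      exact ⟨a + b, fun ζ => by rw [LinearMap.add_apply, ha, hb, map_add]⟩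
    | smul r x _ hx =>
      obtain ⟨a, ha⟩ := hx
      exact ⟨r • a, fun ζ => by rw [LinearMap.smul_apply, ha, map_smul]⟩
  obtain ⟨w, hw⟩ := hall _ hspan
  refine ⟨w, fun ζ => ?_⟩
  have h1 : ω ζ - g ζ = ζ w := hw ζ
  have h2 : ω ζ - ζ w = g ζ := by rw [← h1]; ring
  rw [h2]
  exact (g.le_opNorm ζ).trans (mul_le_mul_of_nonneg_right hgn (norm_nonneg _))

/-- An element of the bidual which is not in the space is large on the annihilators of finite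
sets. -/
theorem bid {W : Type u} [NormedAddCommGroup W] [NormedSpace ℂ W] [CompleteSpace W]
    (ω : (W →L[ℂ] ℂ) →L[ℂ] ℂ) (h : ∀ w : W, ∃ ζ : W →L[ℂ] ℂ, ω ζ ≠ ζ w) :
    ∃ c : ℝ, 0 < c ∧ ∀ F : Finset W, ∃ ζ : W →L[ℂ] ℂ, ‖ζ‖ ≤ 1 ∧ (∀ w ∈ F, ζ w = 0) ∧
      c < ‖ω ζ‖ := by
  by_contra hcon
  push Not at hcon
  have hex : ∀ n : ℕ, ∃ w : W, ∀ ζ : W →L[ℂ] ℂ, ‖ω ζ - ζ w‖ ≤ (1 / ((n : ℝ) + 1)) * ‖ζ‖ := by
    intro n
    obtain ⟨F, hF⟩ := hcon (1 / ((n : ℝ) + 1)) (by positivity)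
    exact bid_aux ω _ (by positivity) F hF
  choose u hu using hex
  have hdist : ∀ n m N : ℕ, N ≤ n → N ≤ m → dist (u n) (u m) ≤ 2 * (1 / ((N : ℝ) + 1)) := by
    intro n m N hn hm
    rw [dist_eq_norm]
    apply NormedSpace.norm_le_dual_bound ℂ _ (by positivity)
    intro ζ
    rw [map_sub]
    have h1 := hu n ζ
    have h2 := hu m ζ
    have h3 : ζ (u n) - ζ (u m) = (ω ζ - ζ (u m)) - (ω ζ - ζ (u n)) := by ring
    rw [h3]
    have hn' : (1 / ((n : ℝ) + 1)) ≤ 1 / ((N : ℝ) + 1) := by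
      apply one_div_le_one_div_of_le (by positivity)
      have : (N : ℝ) ≤ n := by exact_mod_cast hn
      linarith
    have hm' : (1 / ((m : ℝ) + 1)) ≤ 1 / ((N : ℝ) + 1) := by
      apply one_div_le_one_div_of_le (by positivity)
      have : (N : ℝ) ≤ m := by exact_mod_cast hm
      linarith
    have h4 := mul_le_mul_of_nonneg_right hn' (norm_nonneg ζ)
    have h5 := mul_le_mul_of_nonneg_right hm' (norm_nonneg ζ)
    have h6 := norm_sub_le (ω ζ - ζ (u m)) (ω ζ - ζ (u n))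
    linarith
  have hlim : Tendsto (fun N : ℕ => 2 * (1 / ((N : ℝ) + 1))) atTop (𝓝 0) := by
    have := (tendsto_one_div_add_atTop_nhds_zero_nat (𝕜 := ℝ)).const_mul 2
    simpa using this
  have hC : CauchySeq u := cauchySeq_of_le_tendsto_0 _ hdist hlim
  obtain ⟨w, hw⟩ := cauchySeq_tendsto_of_complete hC
  obtain ⟨ζ, hζ⟩ := h w
  apply hζ
  have h1 : Tendsto (fun n => ‖ω ζ - ζ (u n)‖) atTop (𝓝 ‖ω ζ - ζ w‖) :=
    ((tendsto_const_nhds).sub ((ζ.continuous.tendsto w).comp hw)).norm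
  have h2 : Tendsto (fun n : ℕ => (1 / ((n : ℝ) + 1)) * ‖ζ‖) atTop (𝓝 0) := by
    have := (tendsto_one_div_add_atTop_nhds_zero_nat (𝕜 := ℝ)).mul_const ‖ζ‖
    simpa using this
  have h3 : ‖ω ζ - ζ w‖ ≤ 0 := le_of_tendsto_of_tendsto' h1 h2 fun n => hu n ζ
  exact sub_eq_zero.1 (norm_le_zero_iff.1 h3)

end Job15256

section Job15261

open Filter Set Cardinal Topology

/-- Limits along an ultrafilter as a linear functional on bounded functions. -/
theorem ulim {I : Type u} (U : Ultrafilter I) : ∃ L : (I → ℂ) → ℂ,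
    (∀ f (C : ℝ), (∀ i, ‖f i‖ ≤ C) → Tendsto f (U : Filter I) (𝓝 (L f))) ∧
    (∀ f (C : ℝ), (∀ i, ‖f i‖ ≤ C) → ‖L f‖ ≤ C) := by
  classical
  have key : ∀ f : I → ℂ, ∃ l : ℂ, ∀ C : ℝ, (∀ i, ‖f i‖ ≤ C) → Tendsto f (U : Filter I) (𝓝 l) := by
    intro f
    by_cases h : ∃ C : ℝ, ∀ i, ‖f i‖ ≤ C
    · obtain ⟨C, hC⟩ := h
      have hcomp : IsCompact (Metric.closedBall (0 : ℂ) C) := isCompact_closedBall 0 C
      have hle : ((U.map f : Ultrafilter ℂ) : Filter ℂ) ≤ 𝓟 (Metric.closedBall (0 : ℂ) C) := by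
        rw [Ultrafilter.coe_map, Filter.le_principal_iff, Filter.mem_map]
        refine Filter.univ_mem' (fun i => ?_)
        simpa using hC i
      obtain ⟨l, -, hl⟩ := hcomp.ultrafilter_le_nhds (U.map f) hle
      exact ⟨l, fun _ _ => by simpa [Tendsto] using hl⟩
    · exact ⟨0, fun C hC => absurd ⟨C, hC⟩ h⟩
  choose L hL using key
  refine ⟨L, fun f C hC => hL f C hC, fun f C hC => ?_⟩
  exact le_of_tendsto (hL f C hC).norm (Filter.univ_mem' hC)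

end Job15261

section Job15269

open Filter Set Cardinal Topology

theorem sel_inj {Q : Type u} {Γ : Type u} {U : Ultrafilter Q} {V : Type u}
    [NormedAddCommGroup V] [NormedSpace ℂ V] {ev : V →ₗ[ℂ] (Q → Γ → Γ → ℂ)}
    (h1 : FSp Q Γ U V ev) {v v' : V} (h : ev v = ev v') : v = v' := by
  have h2 : ev (v - v') = 0 := by rw [map_sub, h, sub_self]
  have h3 : ‖v - v'‖ ≤ 0 := by
    refine h1.norm_le (v - v') 0 le_rfl fun q g2 F => ?_
    rw [h2]
    simp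
  exact sub_eq_zero.1 (norm_le_zero_iff.1 h3)

open Classical in
/-- the selected function -/

noncomputable def selH {Q : Type u} {G : Q → Type} {Γ : Type u} {V0 : Type u}
    [NormedAddCommGroup V0] [NormedSpace ℂ V0]
    (ev0 : V0 →ₗ[ℂ] ((Σ q, G q) → Γ → ℂ)) (g : ∀ q, G q) (x : Q → Γ) (S : Set Q) (v : V0) :
    Q → Γ → Γ → ℂ :=
  fun q g1 g2 => if q ∈ S ∧ g1 = x q then ev0 v ⟨q, g q⟩ g2 else 0

open Classical in
theorem selH_norm {Q : Type u} {G : Q → Type} {Γ : Type u} {U : Ultrafilter Q} {V0 : Type u}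
    [NormedAddCommGroup V0] [NormedSpace ℂ V0]
    {ev0 : V0 →ₗ[ℂ] ((Σ q, G q) → Γ → ℂ)}
    (h0 : FSp0 G Γ U V0 ev0) (g : ∀ q, G q) (x : Q → Γ) (S : Set Q) (v : V0) (q : Q) (g2 : Γ)
    (F : Finset Γ) : ∑ g1 ∈ F, ‖selH ev0 g x S v q g1 g2‖ ^ 2 ≤ ‖v‖ ^ 2 := by
  calc ∑ g1 ∈ F, ‖selH ev0 g x S v q g1 g2‖ ^ 2 ≤ ∑ g1 ∈ F, (if g1 = x q then ‖v‖ ^ 2 else 0) := by
        refine Finset.sum_le_sum fun g1 _ => ?_
        unfold selH
        by_cases hg : g1 = x q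
        · rw [if_pos hg]
          by_cases hq : q ∈ S
          · rw [if_pos ⟨hq, hg⟩]
            exact pow_le_pow_left₀ (norm_nonneg _) (h0.le v _ _) 2
          · rw [if_neg fun h => hq h.1]
            simp
        · rw [if_neg hg, if_neg fun h => hg h.2]
          simp
    _ ≤ ‖v‖ ^ 2 := by
        rw [Finset.sum_ite_eq' F (x q)]
        split_ifs
        · exact le_rfl
        · positivity

open Classical in
theorem sel_one {Q : Type u} {G : Q → Type} {Γ : Type u} {U : Ultrafilter Q} {V0 V : Type u}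
    [NormedAddCommGroup V0] [NormedSpace ℂ V0] [NormedAddCommGroup V] [NormedSpace ℂ V]
    {ev0 : V0 →ₗ[ℂ] ((Σ q, G q) → Γ → ℂ)} {ev : V →ₗ[ℂ] (Q → Γ → Γ → ℂ)}
    (h0 : FSp0 G Γ U V0 ev0) (h1 : FSp Q Γ U V ev) (g : ∀ q, G q) (x : Q → Γ) (S : Set Q) :
    ∃ σ : V0 →L[ℂ] V, ∀ v, ev (σ v) = selH ev0 g x S v := by
  have hex : ∀ v : V0, ∃ w : V, ev w = selH ev0 g x S v := by
    intro v
    refine h1.surj _ ‖v‖ (norm_nonneg _) (fun q g2 F => selH_norm h0 g x S v q g2 F) ?_ ?_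
    · intro q g1 ε hε
      refine (h0.fin v ⟨q, g q⟩ ε hε).subset fun g2 hg2 => ?_
      simp only [Set.mem_ofPred_eq] at hg2 ⊢
      unfold selH at hg2
      split_ifs at hg2 with hc
      · exact hg2
      · rw [norm_zero] at hg2
        exact absurd hg2 (not_lt.2 hε.le)
    · intro ε hε
      filter_upwards [h0.lim v ε hε] with q hq g1 g2
      unfold selH
      split_ifs
      · exact hq _ _
      · rw [norm_zero]; exact hε.le
  choose w hw using hex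
  have hadd : ∀ v v', w (v + v') = w v + w v' := fun v v' => by
    refine sel_inj h1 ?_
    rw [map_add, hw, hw, hw]
    funext q g1 g2
    simp only [selH, Pi.add_apply, map_add]
    split_ifs <;> simp
  have hsmul : ∀ (c : ℂ) v, w (c • v) = c • w v := fun c v => by
    refine sel_inj h1 ?_
    rw [map_smul, hw, hw]
    funext q g1 g2
    simp only [selH, Pi.smul_apply, map_smul]
    split_ifs <;> simp
  set L : V0 →ₗ[ℂ] V := { toFun := w, map_add' := hadd, map_smul' := hsmul } with hL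
  refine ⟨L.mkContinuous 1 fun v => ?_, fun v => hw v⟩
  rw [one_mul]
  refine h1.norm_le _ _ (norm_nonneg _) fun q g2 F => ?_
  change ∑ g1 ∈ F, ‖ev (w v) q g1 g2‖ ^ 2 ≤ ‖v‖ ^ 2
  rw [hw]
  exact selH_norm h0 g x S v q g2 F

/-- The selector maps. -/
theorem exists_sel {Q : Type u} {G : Q → Type} {Γ : Type u} {U : Ultrafilter Q} {V0 V : Type u}
    [NormedAddCommGroup V0] [NormedSpace ℂ V0] [NormedAddCommGroup V] [NormedSpace ℂ V]
    {ev0 : V0 →ₗ[ℂ] ((Σ q, G q) → Γ → ℂ)} {ev : V →ₗ[ℂ] (Q → Γ → Γ → ℂ)}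
    (h0 : FSp0 G Γ U V0 ev0) (h1 : FSp Q Γ U V ev) (g : ∀ q, G q) :
    ∃ σ : (Q → Γ) → Set Q → (V0 →L[ℂ] V), (∀ x S, ∀ v q g1 g2, ev (σ x S v) q g1 g2 =
      (open Classical in if q ∈ S ∧ g1 = x q then ev0 v ⟨q, g q⟩ g2 else 0)) ∧
      ∀ (S : Set Q) (n : ℕ) (x : Fin n → Q → Γ) (τ : Fin n → ℂ), (∀ i, ‖τ i‖ ≤ 1) →
        (∀ q ∈ S, Function.Injective fun i => x i q) →
        ‖∑ i, τ i • σ (x i) S‖ ≤ Real.sqrt n := by
  classical
  choose σ hσ using fun x S => sel_one h0 h1 g x S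
  refine ⟨σ, ?_, ?_⟩
  · intro x S v q g1 g2
    rw [hσ]
    unfold selH
    congr
  · intro S n x τ hτ hinj
    refine ContinuousLinearMap.opNorm_le_bound _ (Real.sqrt_nonneg _) fun v => ?_
    have hn : (0 : ℝ) ≤ n := Nat.cast_nonneg n
    refine h1.norm_le _ _ (by positivity) fun q g2 F => ?_
    have hval : ∀ g1, ev ((∑ i, τ i • σ (x i) S) v) q g1 g2 =
        ∑ i, τ i * (if q ∈ S ∧ g1 = x i q then ev0 v ⟨q, g q⟩ g2 else 0) := by
      intro g1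
      rw [ContinuousLinearMap.sum_apply, map_sum, Finset.sum_apply, Finset.sum_apply,
        Finset.sum_apply]
      refine Finset.sum_congr rfl fun i _ => ?_
      rw [ContinuousLinearMap.smul_apply, map_smul, hσ]
      rfl
    have hbd : ∀ g1, ‖ev ((∑ i, τ i • σ (x i) S) v) q g1 g2‖ ^ 2 ≤
        ∑ i, (if g1 = x i q then ‖v‖ ^ 2 else 0) := by
      intro g1
      rw [hval]
      have hnn : 0 ≤ ∑ i, (if g1 = x i q then ‖v‖ ^ 2 else 0) :=
        Finset.sum_nonneg fun i _ => by split_ifs <;> positivity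
      by_cases hq : q ∈ S
      · by_cases hex : ∃ i, g1 = x i q
        · obtain ⟨i0, hi0⟩ := hex
          have huniq : ∀ i, i ≠ i0 → g1 ≠ x i q := fun i hi h =>
            hi (hinj q hq (h.symm.trans hi0))
          rw [Finset.sum_eq_single i0, Finset.sum_eq_single i0, if_pos ⟨hq, hi0⟩, if_pos hi0,
            norm_mul]
          · have h2 : ‖τ i0‖ * ‖ev0 v ⟨q, g q⟩ g2‖ ≤ ‖v‖ := by
              calc ‖τ i0‖ * ‖ev0 v ⟨q, g q⟩ g2‖ ≤ 1 * ‖v‖ :=
                    mul_le_mul (hτ i0) (h0.le v _ _) (norm_nonneg _) zero_le_one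
                _ = ‖v‖ := one_mul _
            exact pow_le_pow_left₀ (by positivity) h2 2
          · intro i _ hi
            rw [if_neg (huniq i hi)]
          · intro h; exact absurd (Finset.mem_univ _) h
          · intro i _ hi
            rw [if_neg fun h => huniq i hi h.2, mul_zero]
          · intro h; exact absurd (Finset.mem_univ _) h
        · push Not at hex
          have h0' : ∑ i, τ i * (if q ∈ S ∧ g1 = x i q then ev0 v ⟨q, g q⟩ g2 else 0) = 0 := by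
            refine Finset.sum_eq_zero fun i _ => ?_
            rw [if_neg fun h => hex i h.2, mul_zero]
          rw [h0', norm_zero, zero_pow two_ne_zero]
          exact hnn
      · have h0' : ∑ i, τ i * (if q ∈ S ∧ g1 = x i q then ev0 v ⟨q, g q⟩ g2 else 0) = 0 := by
          refine Finset.sum_eq_zero fun i _ => ?_
          rw [if_neg fun h => hq h.1, mul_zero]
        rw [h0', norm_zero, zero_pow two_ne_zero]
        exact hnn
    calc ∑ g1 ∈ F, ‖ev ((∑ i, τ i • σ (x i) S) v) q g1 g2‖ ^ 2 ≤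
          ∑ g1 ∈ F, ∑ i, (if g1 = x i q then ‖v‖ ^ 2 else 0) := Finset.sum_le_sum fun g1 _ => hbd g1
      _ = ∑ i, ∑ g1 ∈ F, (if g1 = x i q then ‖v‖ ^ 2 else 0) := Finset.sum_comm
      _ ≤ ∑ _i : Fin n, ‖v‖ ^ 2 := by
          refine Finset.sum_le_sum fun i _ => ?_
          rw [Finset.sum_ite_eq' F (x i q)]
          split_ifs
          · exact le_rfl
          · positivity
      _ = (Real.sqrt n * ‖v‖) ^ 2 := by
          rw [mul_pow, Real.sq_sqrt hn]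
          simp

end Job15269

section Job15278

open Filter Set Cardinal Topology

section

variable {E W Q Γ : Type u} [NormedRing E] [NormedAlgebra ℂ E]
    [NormedAddCommGroup W] [NormedSpace ℂ W] {r : E →L[ℂ] W →L[ℂ] W} {U : Ultrafilter Q}
    {G : Q → Type} {V0 : Type u} [NormedAddCommGroup V0] [NormedSpace ℂ V0]
    {ev0 : V0 →ₗ[ℂ] ((Σ q, G q) → Γ → ℂ)}

open Classical in
/-- the test function -/

noncomputable def et_F (r : E →L[ℂ] W →L[ℂ] W) (ζ : Q → (W →L[ℂ] ℂ)) (τ : ∀ q, G q → E) (S : Set Q)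
    (x : Q → Γ) (S' : Set Q) (w : W) (s : Σ q, G q) (γ : Γ) : ℂ :=
  if (s.1 ∈ S' ∧ s.1 ∈ S) ∧ γ = x s.1 then ζ s.1 (r (τ s.1 s.2) w) else 0

theorem et_val (ζ : Q → (W →L[ℂ] ℂ)) (τ : ∀ q, G q → E) (S : Set Q) (C D : ℝ) (hC : 0 ≤ C)
    (hζ : ∀ q ∈ S, ‖ζ q‖ ≤ C) (hτ : ∀ q ∈ S, ∀ g, ‖τ q g‖ ≤ D) (w : W) (q : Q) (hq : q ∈ S)
    (g : G q) : ‖ζ q (r (τ q g) w)‖ ≤ C * D * ‖r‖ * ‖w‖ := by
  have h1 : ‖r (τ q g) w‖ ≤ ‖r‖ * D * ‖w‖ := by
    calc ‖r (τ q g) w‖ ≤ ‖r (τ q g)‖ * ‖w‖ := (r (τ q g)).le_opNorm w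
      _ ≤ (‖r‖ * ‖τ q g‖) * ‖w‖ := mul_le_mul_of_nonneg_right (r.le_opNorm _) (norm_nonneg _)
      _ ≤ (‖r‖ * D) * ‖w‖ := mul_le_mul_of_nonneg_right
          (mul_le_mul_of_nonneg_left (hτ q hq g) (ContinuousLinearMap.opNorm_nonneg r))
          (norm_nonneg _)
  calc ‖ζ q (r (τ q g) w)‖ ≤ ‖ζ q‖ * ‖r (τ q g) w‖ := (ζ q).le_opNorm _
    _ ≤ C * (‖r‖ * D * ‖w‖) := mul_le_mul (hζ q hq) h1 (norm_nonneg _) hC
    _ = _ := by ring

theorem et_inj (h0 : FSp0 G Γ U V0 ev0) : Function.Injective ev0 := by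
  intro v v' h
  have h1 : ‖v - v'‖ ≤ 0 := by
    apply h0.norm_le _ 0 le_rfl
    intro s γ
    rw [map_sub, h, sub_self]
    simp
  exact sub_eq_zero.mp (norm_le_zero_iff.mp h1)

end

/-- The test elements. -/
theorem exists_test {E W Q Γ : Type u} [NormedRing E] [NormedAlgebra ℂ E]
    [NormedAddCommGroup W] [NormedSpace ℂ W] {r : E →L[ℂ] W →L[ℂ] W} {U : Ultrafilter Q}
    {G : Q → Type} {V0 : Type u} [NormedAddCommGroup V0] [NormedSpace ℂ V0]
    {ev0 : V0 →ₗ[ℂ] ((Σ q, G q) → Γ → ℂ)} (h0 : FSp0 G Γ U V0 ev0)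
    (ζ : Q → (W →L[ℂ] ℂ)) (τ : ∀ q, G q → E) (S : Set Q) (C D : ℝ) (hC : 0 ≤ C) (hD : 0 ≤ D)
    (hζ : ∀ q ∈ S, ‖ζ q‖ ≤ C) (hτ : ∀ q ∈ S, ∀ g, ‖τ q g‖ ≤ D)
    (hlim : ∀ w (ε : ℝ), 0 < ε → ∀ᶠ q in (U : Filter Q), q ∈ S → ∀ g,
      ‖ζ q (r (τ q g) w)‖ ≤ ε) :
    ∃ y : (Q → Γ) → Set Q → (W →L[ℂ] V0), (∀ x S' w q g γ, ev0 (y x S' w) ⟨q, g⟩ γ =
      (open Classical in if (q ∈ S' ∧ q ∈ S) ∧ γ = x q then ζ q (r (τ q g) w) else 0)) ∧
      ∀ (S' : Set Q) (n : ℕ) (x : Fin n → Q → Γ) (c : Fin n → ℂ), (∀ i, ‖c i‖ ≤ 1) →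
        (∀ q ∈ S', Function.Injective fun i => x i q) →
        ‖∑ i, c i • y (x i) S'‖ ≤ C * D * ‖r‖ := by
  classical
  have hbd : ∀ (x : Q → Γ) (S' : Set Q) (w : W) s γ,
      ‖et_F r ζ τ S x S' w s γ‖ ≤ C * D * ‖r‖ * ‖w‖ := by
    intro x S' w s γ
    unfold et_F
    split_ifs with h
    · exact et_val ζ τ S C D hC hζ hτ w s.1 h.1.2 s.2
    · rw [norm_zero]
      positivity
  have hex : ∀ (x : Q → Γ) (S' : Set Q) (w : W), ∃ v, ev0 v = et_F r ζ τ S x S' w := by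
    intro x S' w
    apply h0.surj _ (C * D * ‖r‖ * ‖w‖) (hbd x S' w)
    · intro s ε hε
      apply (Set.finite_singleton (x s.1)).subset
      intro γ hγ
      have hγ' : ε < ‖et_F r ζ τ S x S' w s γ‖ := hγ
      by_contra hne
      have h1 : ¬ ((s.1 ∈ S' ∧ s.1 ∈ S) ∧ γ = x s.1) := fun h => hne h.2
      unfold et_F at hγ'
      rw [if_neg h1, norm_zero] at hγ'
      linarith
    · intro ε hε
      filter_upwards [hlim w ε hε] with q hq g γ
      unfold et_F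
      split_ifs with h
      · exact hq h.1.2 g
      · rw [norm_zero]
        exact hε.le
  choose y0 hy0 using hex
  have hinj := et_inj h0
  have hadd : ∀ x S' w w', y0 x S' (w + w') = y0 x S' w + y0 x S' w' := by
    intro x S' w w'
    apply hinj
    rw [map_add, hy0, hy0, hy0]
    funext s γ
    rw [Pi.add_apply, Pi.add_apply]
    unfold et_F
    split_ifs
    · rw [map_add, map_add]
    · rw [add_zero]
  have hsmul : ∀ x S' (a : ℂ) w, y0 x S' (a • w) = a • y0 x S' w := by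
    intro x S' a w
    apply hinj
    rw [map_smul, hy0, hy0]
    funext s γ
    rw [Pi.smul_apply, Pi.smul_apply]
    unfold et_F
    split_ifs
    · rw [map_smul, map_smul]
    · rw [smul_zero]
  have hnorm : ∀ x S' w, ‖y0 x S' w‖ ≤ C * D * ‖r‖ * ‖w‖ := by
    intro x S' w
    apply h0.norm_le _ _ (by positivity)
    intro s γ
    rw [hy0]
    exact hbd x S' w s γ
  refine ⟨fun x S' => LinearMap.mkContinuous
    { toFun := y0 x S', map_add' := hadd x S', map_smul' := hsmul x S' } (C * D * ‖r‖)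
    (hnorm x S'), ?_, ?_⟩
  · intro x S' w q g γ
    change ev0 (y0 x S' w) ⟨q, g⟩ γ = _
    rw [hy0]
    unfold et_F
    rfl
  · intro S' n x c hc hinjx
    apply ContinuousLinearMap.opNorm_le_bound _ (by positivity)
    intro w
    rw [sum_apply]
    change ‖∑ i, c i • y0 (x i) S' w‖ ≤ _
    apply h0.norm_le _ _ (by positivity)
    intro s γ
    have h1 : ev0 (∑ i, c i • y0 (x i) S' w) s γ = ∑ i, c i * et_F r ζ τ S (x i) S' w s γ := by
      rw [map_sum, Finset.sum_apply, Finset.sum_apply]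
      apply Finset.sum_congr rfl
      intro i _
      rw [map_smul, hy0]
      rfl
    rw [h1]
    by_cases hs : (s.1 ∈ S' ∧ s.1 ∈ S) ∧ ∃ i₀, γ = x i₀ s.1
    · obtain ⟨⟨hs1, hs2⟩, i₀, hi₀⟩ := hs
      rw [Finset.sum_eq_single i₀]
      · rw [norm_mul]
        calc ‖c i₀‖ * ‖et_F r ζ τ S (x i₀) S' w s γ‖
            ≤ 1 * (C * D * ‖r‖ * ‖w‖) :=
              mul_le_mul (hc i₀) (hbd _ _ _ _ _) (norm_nonneg _) zero_le_one
          _ = _ := one_mul _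
      · intro i _ hi
        have h2 : ¬ ((s.1 ∈ S' ∧ s.1 ∈ S) ∧ γ = x i s.1) := by
          intro h
          apply hi
          apply hinjx s.1 hs1
          change x i s.1 = x i₀ s.1
          rw [← h.2, hi₀]
        unfold et_F
        rw [if_neg h2, mul_zero]
      · intro h
        exact absurd (Finset.mem_univ _) h
    · rw [Finset.sum_eq_zero]
      · rw [norm_zero]
        positivity
      · intro i _
        have h2 : ¬ ((s.1 ∈ S' ∧ s.1 ∈ S) ∧ γ = x i s.1) := fun h => hs ⟨h.1, i, h.2⟩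
        unfold et_F
        rw [if_neg h2, mul_zero]

end Job15278

section Job15629

open Filter Set Cardinal Topology

variable {E W Q Γ V0 V Yp Y : Type u} [NormedRing E] [NormedAlgebra ℂ E]
  [NormedAddCommGroup W] [NormedSpace ℂ W] [NormedAddCommGroup V0] [NormedSpace ℂ V0]
  [NormedAddCommGroup V] [NormedSpace ℂ V] [NormedAddCommGroup Yp] [NormedSpace ℂ Yp]
  [NormedAddCommGroup Y] [NormedSpace ℂ Y]

/-- The whole construction: `V0`, `V` function spaces, `Yp` the right module of test elements,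
`Yp →L[ℂ] V` the left module `X`, `Y` the left module of left module maps `W → X`. -/
structure Cx (l r : E →L[ℂ] W →L[ℂ] W) (U : Ultrafilter Q) (B : Q → Blk E)
    (ev0 : V0 →ₗ[ℂ] ((Σ q, (B q).G) → Γ → ℂ)) (ev : V →ₗ[ℂ] (Q → Γ → Γ → ℂ))
    (jp : Yp →ₗᵢ[ℂ] (W →L[ℂ] V0)) (ra : E →L[ℂ] Yp →L[ℂ] Yp)
    (lX : E →L[ℂ] (Yp →L[ℂ] V) →L[ℂ] (Yp →L[ℂ] V))
    (j : Y →ₗᵢ[ℂ] (W →L[ℂ] (Yp →L[ℂ] V))) (lY : E →L[ℂ] Y →L[ℂ] Y) : Prop where
  bm : BM l r
  ok : ∀ q, (B q).Ok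
  np : ∀ q, {q}ᶜ ∈ U
  epsU : ∀ δ : ℝ, 0 < δ → ∀ᶠ q in (U : Filter Q), (B q).eps ≤ δ
  fU : ∀ a : E, ∀ᶠ q in (U : Filter Q), ∃ k, (B q).f k = a
  h0 : FSp0 (fun q => (B q).G) Γ U V0 ev0
  h1 : FSp Q Γ U V ev
  jp_rel : ∀ y w q k (h : (B q).G) γ,
    ∑ g, (B q).r 0 g * ev0 (jp y (r ((B q).f k) w)) ⟨q, g * h⟩ γ =
      ∑ g, (B q).r k g * ev0 (jp y w) ⟨q, g * h⟩ γ
  jp_surj : ∀ y0 : W →L[ℂ] V0, (∀ w q k (h : (B q).G) γ,
    ∑ g, (B q).r 0 g * ev0 (y0 (r ((B q).f k) w)) ⟨q, g * h⟩ γ =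
      ∑ g, (B q).r k g * ev0 (y0 w) ⟨q, g * h⟩ γ) → ∃ y, jp y = y0
  jp_ra : ∀ a y w, jp (ra a y) w = jp y (l a w)
  lX_def : ∀ a φ y, lX a φ y = φ (ra a y)
  j_mod : ∀ φ a w, j φ (l a w) = lX a (j φ w)
  j_surj : ∀ φ0 : W →L[ℂ] (Yp →L[ℂ] V), (∀ a w, φ0 (l a w) = lX a (φ0 w)) → ∃ φ, j φ = φ0
  j_lY : ∀ a φ w, j (lY a φ) w = j φ (r a w)

/-- The submodule of the maps satisfying the relations. -/
def exists_Yp_sub (r : E →L[ℂ] W →L[ℂ] W) (B : Q → Blk E)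
    (ev0 : V0 →ₗ[ℂ] ((Σ q, (B q).G) → Γ → ℂ)) : Submodule ℂ (W →L[ℂ] V0) where
  carrier := {y | ∀ w q k (h : (B q).G) γ,
        ∑ g, (B q).r 0 g * ev0 (y (r ((B q).f k) w)) ⟨q, g * h⟩ γ =
          ∑ g, (B q).r k g * ev0 (y w) ⟨q, g * h⟩ γ}
  add_mem' := by
    intro x y hx hy w q k h γ
    have h1 := hx w q k h γ
    have h2 := hy w q k h γ
    simp only [ContinuousLinearMap.add_apply, map_add, Pi.add_apply, mul_add,
      Finset.sum_add_distrib]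
    rw [h1, h2]
  zero_mem' := by
    intro w q k h γ
    simp
  smul_mem' := by
    intro c x hx w q k h γ
    have h1 := hx w q k h γ
    have h2 : ∀ (a b : ℂ), a * (c * b) = c * (a * b) := fun a b => by ring
    simp only [ContinuousLinearMap.smul_apply, map_smul, Pi.smul_apply, smul_eq_mul, h2,
      ← Finset.mul_sum]
    rw [h1]

/-- A coordinate as a continuous functional. -/
noncomputable def exists_Yp_cf {U : Ultrafilter Q} {B : Q → Blk E}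
    {ev0 : V0 →ₗ[ℂ] ((Σ q, (B q).G) → Γ → ℂ)}
    (h0 : FSp0 (fun q => (B q).G) Γ U V0 ev0) (s : Σ q, (B q).G) (γ : Γ) : V0 →L[ℂ] ℂ :=
  LinearMap.mkContinuous
    { toFun := fun v => ev0 v s γ
      map_add' := fun x y => by simp
      map_smul' := fun c x => by simp }
    1 (fun v => by rw [one_mul]; exact h0.le v s γ)

theorem exists_Yp_cf_apply {U : Ultrafilter Q} {B : Q → Blk E}
    {ev0 : V0 →ₗ[ℂ] ((Σ q, (B q).G) → Γ → ℂ)}
    (h0 : FSp0 (fun q => (B q).G) Γ U V0 ev0) (s : Σ q, (B q).G) (γ : Γ) (v : V0) :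
    exists_Yp_cf h0 s γ v = ev0 v s γ := rfl

theorem exists_Yp_closed (r : E →L[ℂ] W →L[ℂ] W) (U : Ultrafilter Q) (B : Q → Blk E)
    (ev0 : V0 →ₗ[ℂ] ((Σ q, (B q).G) → Γ → ℂ))
    (h0 : FSp0 (fun q => (B q).G) Γ U V0 ev0) :
    IsClosed ((exists_Yp_sub r B ev0 : Submodule ℂ (W →L[ℂ] V0)) : Set (W →L[ℂ] V0)) := by
  have h1 : ((exists_Yp_sub r B ev0 : Submodule ℂ (W →L[ℂ] V0)) : Set (W →L[ℂ] V0)) =
      ⋂ (w : W) (q : Q) (k : Fin ((B q).n + 1)) (h : (B q).G) (γ : Γ), {y : W →L[ℂ] V0 |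
        ∑ g, (B q).r 0 g * exists_Yp_cf h0 ⟨q, g * h⟩ γ (y (r ((B q).f k) w)) =
          ∑ g, (B q).r k g * exists_Yp_cf h0 ⟨q, g * h⟩ γ (y w)} := by
    ext y
    simp only [Set.mem_iInter]
    rfl
  rw [h1]
  refine isClosed_iInter fun w => isClosed_iInter fun q => isClosed_iInter fun k =>
    isClosed_iInter fun h => isClosed_iInter fun γ => isClosed_eq ?_ ?_
  · refine continuous_finsetSum _ fun g _ => continuous_const.mul ?_
    exact (exists_Yp_cf h0 ⟨q, g * h⟩ γ).continuous.comp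
      (ContinuousLinearMap.apply ℂ V0 (r ((B q).f k) w)).continuous
  · refine continuous_finsetSum _ fun g _ => continuous_const.mul ?_
    exact (exists_Yp_cf h0 ⟨q, g * h⟩ γ).continuous.comp
      (ContinuousLinearMap.apply ℂ V0 w).continuous

/-- The right action. -/
noncomputable def exists_Yp_ra (l r : E →L[ℂ] W →L[ℂ] W) (bm : BM l r) (B : Q → Blk E)
    (ev0 : V0 →ₗ[ℂ] ((Σ q, (B q).G) → Γ → ℂ)) :
    E →L[ℂ] (exists_Yp_sub r B ev0) →L[ℂ] (exists_Yp_sub r B ev0) :=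
  LinearMap.mkContinuous₂
    (LinearMap.mk₂ ℂ (fun (a : E) (y : exists_Yp_sub r B ev0) =>
      (⟨y.1.comp (l a), by
        intro w q k h γ
        have h1 := y.2 (l a w) q k h γ
        simp only [ContinuousLinearMap.comp_apply]
        rw [bm.comm]
        exact h1⟩ : exists_Yp_sub r B ev0))
      (fun a b y => by
        apply Subtype.ext
        apply ContinuousLinearMap.ext
        intro w
        simp)
      (fun c a y => by
        apply Subtype.ext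
        apply ContinuousLinearMap.ext
        intro w
        simp)
      (fun a y z => by
        apply Subtype.ext
        apply ContinuousLinearMap.ext
        intro w
        simp)
      (fun c a y => by
        apply Subtype.ext
        apply ContinuousLinearMap.ext
        intro w
        simp))
    ‖l‖ (fun a y => by
      have h1 : ‖y.1.comp (l a)‖ ≤ ‖l‖ * ‖a‖ * ‖y.1‖ := by
        refine (ContinuousLinearMap.opNorm_comp_le _ _).trans ?_
        rw [mul_comm]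
        exact mul_le_mul_of_nonneg_right (l.le_opNorm a) (norm_nonneg _)
      exact h1)

/-- Existence of the right module `Yp`. -/
theorem exists_Yp (l r : E →L[ℂ] W →L[ℂ] W) (bm : BM l r) (U : Ultrafilter Q) (B : Q → Blk E)
    [CompleteSpace V0] (ev0 : V0 →ₗ[ℂ] ((Σ q, (B q).G) → Γ → ℂ))
    (h0 : FSp0 (fun q => (B q).G) Γ U V0 ev0) :
    ∃ (Yp : Type u) (_ : NormedAddCommGroup Yp) (_ : NormedSpace ℂ Yp)
      (jp : Yp →ₗᵢ[ℂ] (W →L[ℂ] V0)) (ra : E →L[ℂ] Yp →L[ℂ] Yp), CompleteSpace Yp ∧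
      (∀ y w q k (h : (B q).G) γ,
        ∑ g, (B q).r 0 g * ev0 (jp y (r ((B q).f k) w)) ⟨q, g * h⟩ γ =
          ∑ g, (B q).r k g * ev0 (jp y w) ⟨q, g * h⟩ γ) ∧
      (∀ y0 : W →L[ℂ] V0, (∀ w q k (h : (B q).G) γ,
        ∑ g, (B q).r 0 g * ev0 (y0 (r ((B q).f k) w)) ⟨q, g * h⟩ γ =
          ∑ g, (B q).r k g * ev0 (y0 w) ⟨q, g * h⟩ γ) → ∃ y, jp y = y0) ∧
      (∀ a y w, jp (ra a y) w = jp y (l a w)) := by
  refine ⟨exists_Yp_sub r B ev0, inferInstance, inferInstance,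
    (exists_Yp_sub r B ev0).subtypeₗᵢ, exists_Yp_ra l r bm B ev0, ?_, ?_, ?_, ?_⟩
  · exact (exists_Yp_closed r U B ev0 h0).completeSpace_coe
  · intro y w q k h γ
    exact y.2 w q k h γ
  · intro y0 hy0
    exact ⟨⟨y0, hy0⟩, rfl⟩
  · intro a y w
    rfl

end Job15629

section Job15661

open Filter Set Cardinal Topology

variable {E W Q Γ V0 V Yp Y : Type u} [NormedRing E] [NormedAlgebra ℂ E]
  [NormedAddCommGroup W] [NormedSpace ℂ W] [NormedAddCommGroup V0] [NormedSpace ℂ V0]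
  [NormedAddCommGroup V] [NormedSpace ℂ V] [NormedAddCommGroup Yp] [NormedSpace ℂ Yp]
  [NormedAddCommGroup Y] [NormedSpace ℂ Y]

theorem exists_Y_aux {E : Type u} [NormedRing E] [NormedAlgebra ℂ E]
    {Z : Type u} [NormedAddCommGroup Z] [NormedSpace ℂ Z] [CompleteSpace Z]
    (S : Submodule ℂ Z) (hS : IsClosed (S : Set Z)) (T : E →L[ℂ] Z →L[ℂ] Z)
    (h : ∀ (a : E), ∀ φ ∈ S, T a φ ∈ S) :
    ∃ (Y : Type u) (_ : NormedAddCommGroup Y) (_ : NormedSpace ℂ Y) (j : Y →ₗᵢ[ℂ] Z)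
      (lY : E →L[ℂ] Y →L[ℂ] Y), CompleteSpace Y ∧ (∀ φ, j φ ∈ S) ∧ (∀ z ∈ S, ∃ φ, j φ = z) ∧
      ∀ a φ, j (lY a φ) = T a (j φ) := by
  let f : E →ₗ[ℂ] S →ₗ[ℂ] S := LinearMap.mk₂ ℂ (fun (a : E) (φ : S) => (⟨T a φ.1, h a φ.1 φ.2⟩ : S))
    (fun a b φ => by
      apply Subtype.ext
      show T (a + b) φ.1 = T a φ.1 + T b φ.1
      rw [map_add]; rfl)
    (fun c a φ => by
      apply Subtype.ext
      show T (c • a) φ.1 = c • T a φ.1
      rw [map_smul]; rfl)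
    (fun a φ ψ => by
      apply Subtype.ext
      show T a (φ.1 + ψ.1) = T a φ.1 + T a ψ.1
      rw [map_add])
    (fun c a φ => by
      apply Subtype.ext
      show T a (c • φ.1) = c • T a φ.1
      rw [map_smul])
  let lY : E →L[ℂ] S →L[ℂ] S := f.mkContinuous₂ ‖T‖ (fun a φ => T.le_opNorm₂ a φ.1)
  refine ⟨S, inferInstance, inferInstance, S.subtypeₗᵢ, lY, ?_, ?_, ?_, ?_⟩
  · exact hS.completeSpace_coe
  · intro φ
    exact φ.2
  · intro z hz
    exact ⟨⟨z, hz⟩, rfl⟩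
  · intro a φ
    rfl

/-- Existence of the left module `Y`. -/
theorem exists_Y (l r : E →L[ℂ] W →L[ℂ] W) (bm : BM l r) [CompleteSpace V]
    (ra : E →L[ℂ] Yp →L[ℂ] Yp) :
    ∃ (lX : E →L[ℂ] (Yp →L[ℂ] V) →L[ℂ] (Yp →L[ℂ] V)) (Y : Type u) (_ : NormedAddCommGroup Y)
      (_ : NormedSpace ℂ Y) (j : Y →ₗᵢ[ℂ] (W →L[ℂ] (Yp →L[ℂ] V))) (lY : E →L[ℂ] Y →L[ℂ] Y),
      CompleteSpace Y ∧ (∀ a φ y, lX a φ y = φ (ra a y)) ∧
      (∀ φ a w, j φ (l a w) = lX a (j φ w)) ∧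
      (∀ φ0 : W →L[ℂ] (Yp →L[ℂ] V), (∀ a w, φ0 (l a w) = lX a (φ0 w)) → ∃ φ, j φ = φ0) ∧
      (∀ a φ w, j (lY a φ) w = j φ (r a w)) := by
  classical
  let lX : E →L[ℂ] (Yp →L[ℂ] V) →L[ℂ] (Yp →L[ℂ] V) :=
    (ContinuousLinearMap.compL ℂ Yp Yp V).flip ∘L ra
  have hlX : ∀ a φ y, lX a φ y = φ (ra a y) := fun a φ y => rfl
  let T : E →L[ℂ] (W →L[ℂ] (Yp →L[ℂ] V)) →L[ℂ] (W →L[ℂ] (Yp →L[ℂ] V)) :=
    (ContinuousLinearMap.compL ℂ W W (Yp →L[ℂ] V)).flip ∘L r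
  have hT : ∀ a φ w, T a φ w = φ (r a w) := fun a φ w => rfl
  let S : Submodule ℂ (W →L[ℂ] (Yp →L[ℂ] V)) :=
    { carrier := {φ | ∀ a w, φ (l a w) = lX a (φ w)}
      add_mem' := by
        intro φ ψ hφ hψ a w
        show φ (l a w) + ψ (l a w) = lX a (φ w + ψ w)
        rw [map_add, hφ a w, hψ a w]
      zero_mem' := by
        intro a w
        show (0 : Yp →L[ℂ] V) = lX a 0
        rw [map_zero]
      smul_mem' := by
        intro c φ hφ a w
        show c • φ (l a w) = lX a (c • φ w)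
        rw [map_smul, hφ a w] }
  have memS : ∀ φ, φ ∈ S ↔ ∀ a w, φ (l a w) = lX a (φ w) := fun φ => Iff.rfl
  have hclosed : IsClosed (S : Set (W →L[ℂ] (Yp →L[ℂ] V))) := by
    have : (S : Set (W →L[ℂ] (Yp →L[ℂ] V))) = ⋂ a, ⋂ w, {φ | φ (l a w) = lX a (φ w)} := by
      ext φ
      simp only [SetLike.mem_coe, memS, Set.mem_iInter]
      rfl
    rw [this]
    refine isClosed_iInter fun a => isClosed_iInter fun w => isClosed_eq ?_ ?_
    · exact (ContinuousLinearMap.apply ℂ (Yp →L[ℂ] V) (l a w)).continuous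
    · exact (lX a).continuous.comp (ContinuousLinearMap.apply ℂ (Yp →L[ℂ] V) w).continuous
  have hmem : ∀ a, ∀ φ ∈ S, T a φ ∈ S := by
    intro a φ hφ
    rw [memS] at hφ ⊢
    intro b w
    rw [hT, hT, ← bm.comm, hφ]
  obtain ⟨Y, i1, i2, j, lY, hc, hj1, hj2, hj3⟩ := exists_Y_aux (E := E) (Z := W →L[ℂ] (Yp →L[ℂ] V)) S hclosed T hmem
  refine ⟨lX, Y, i1, i2, j, lY, hc, hlX, ?_, ?_, ?_⟩
  · intro φ a w
    exact (memS _).1 (hj1 φ) a w
  · intro φ0 h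
    exact hj2 φ0 h
  · intro a φ w
    rw [hj3]
    exact hT a (j φ) w

end Job15661

section Job15677

open Filter Set Cardinal Topology

variable {E W Q Γ V0 V Yp Y : Type u} [NormedRing E] [NormedAlgebra ℂ E]
  [NormedAddCommGroup W] [NormedSpace ℂ W] [NormedAddCommGroup V0] [NormedSpace ℂ V0]
  [NormedAddCommGroup V] [NormedSpace ℂ V] [NormedAddCommGroup Yp] [NormedSpace ℂ Yp]
  [NormedAddCommGroup Y] [NormedSpace ℂ Y]

variable {l r : E →L[ℂ] W →L[ℂ] W} {U : Ultrafilter Q} {B : Q → Blk E}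
  {ev0 : V0 →ₗ[ℂ] ((Σ q, (B q).G) → Γ → ℂ)} {ev : V →ₗ[ℂ] (Q → Γ → Γ → ℂ)}
  {jp : Yp →ₗᵢ[ℂ] (W →L[ℂ] V0)} {ra : E →L[ℂ] Yp →L[ℂ] Yp}
  {lX : E →L[ℂ] (Yp →L[ℂ] V) →L[ℂ] (Yp →L[ℂ] V)}
  {j : Y →ₗᵢ[ℂ] (W →L[ℂ] (Yp →L[ℂ] V))} {lY : E →L[ℂ] Y →L[ℂ] Y}

/-- The selector elements of `Y`. -/
theorem exists_Phi (hc : Cx l r U B ev0 ev jp ra lX j lY) (g : ∀ q, (B q).G) :
    ∃ Φ : E → (Q → Γ) → Set Q → Y,
      (∀ a x S w y q g1 g2, ev (j (Φ a x S) w y) q g1 g2 =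
        (open Classical in if q ∈ S ∧ g1 = x q then ev0 (jp y (r a w)) ⟨q, g q⟩ g2 else 0)) ∧
      (∀ (S : Set Q) (n : ℕ) (x : Fin n → Q → Γ) (τ : Fin n → ℂ), (∀ i, ‖τ i‖ ≤ 1) →
        (∀ q ∈ S, Function.Injective fun i => x i q) →
        ‖∑ i, τ i • Φ 1 (x i) S‖ ≤ Real.sqrt n) := by
  obtain ⟨σ, hσ1, hσ2⟩ := exists_sel hc.h0 hc.h1 g
  have key : ∀ (a : E) (x : Q → Γ) (S : Set Q), ∃ φ : Y, ∀ w y,
      j φ w y = σ x S (jp y (r a w)) := by
    intro a x S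
    obtain ⟨φ, hφ⟩ := hc.j_surj
      (((ContinuousLinearMap.compL ℂ Yp V0 V (σ x S)) ∘L
        (jp.toContinuousLinearMap.flip)) ∘L (r a)) (by
        intro b w
        ext y
        rw [hc.lX_def]
        simp only [ContinuousLinearMap.comp_apply, ContinuousLinearMap.compL_apply,
          ContinuousLinearMap.flip_apply, LinearIsometry.coe_toContinuousLinearMap]
        rw [hc.jp_ra, hc.bm.comm])
    refine ⟨φ, fun w y => ?_⟩
    rw [hφ]
    simp only [ContinuousLinearMap.comp_apply, ContinuousLinearMap.compL_apply,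
      ContinuousLinearMap.flip_apply, LinearIsometry.coe_toContinuousLinearMap]
  choose Φ hΦ using key
  refine ⟨Φ, ?_, ?_⟩
  · intro a x S w y q g1 g2
    rw [hΦ, hσ1]
  · intro S n x τ hτ hinj
    rw [← j.norm_map]
    refine ContinuousLinearMap.opNorm_le_bound _ (Real.sqrt_nonneg _) fun w => ?_
    refine ContinuousLinearMap.opNorm_le_bound _ (by positivity) fun y => ?_
    have e : (j (∑ i, τ i • Φ 1 (x i) S)) w y = (∑ i, τ i • σ (x i) S) (jp y w) := by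
      have ej : j (∑ i, τ i • Φ 1 (x i) S) = ∑ i, τ i • j (Φ 1 (x i) S) := by
        have h1 : j.toLinearMap (∑ i, τ i • Φ 1 (x i) S) =
            ∑ i, τ i • j.toLinearMap (Φ 1 (x i) S) := by
          rw [_root_.map_sum]
          exact Finset.sum_congr rfl fun i _ => by rw [LinearMap.map_smul]
        exact h1
      rw [ej]
      simp only [sum_apply, smul_apply, hΦ, hc.bm.r_one]
    rw [e]
    calc ‖(∑ i, τ i • σ (x i) S) (jp y w)‖ ≤ ‖∑ i, τ i • σ (x i) S‖ * ‖jp y w‖ :=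
          ContinuousLinearMap.le_opNorm _ _
      _ ≤ Real.sqrt n * (‖y‖ * ‖w‖) := by
          refine mul_le_mul (hσ2 S n x τ hτ hinj) ?_ (norm_nonneg _) (Real.sqrt_nonneg _)
          calc ‖jp y w‖ ≤ ‖jp y‖ * ‖w‖ := ContinuousLinearMap.le_opNorm _ _
            _ = ‖y‖ * ‖w‖ := by rw [jp.norm_map]
      _ = Real.sqrt n * ‖w‖ * ‖y‖ := by ring

end Job15677

section Job15706

open Filter Set Cardinal Topology

variable {E W Q Γ V0 V Yp Y : Type u} [NormedRing E] [NormedAlgebra ℂ E]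
  [NormedAddCommGroup W] [NormedSpace ℂ W] [NormedAddCommGroup V0] [NormedSpace ℂ V0]
  [NormedAddCommGroup V] [NormedSpace ℂ V] [NormedAddCommGroup Yp] [NormedSpace ℂ Yp]
  [NormedAddCommGroup Y] [NormedSpace ℂ Y]

variable {l r : E →L[ℂ] W →L[ℂ] W} {U : Ultrafilter Q} {B : Q → Blk E}
  {ev0 : V0 →ₗ[ℂ] ((Σ q, (B q).G) → Γ → ℂ)} {ev : V →ₗ[ℂ] (Q → Γ → Γ → ℂ)}
  {jp : Yp →ₗᵢ[ℂ] (W →L[ℂ] V0)} {ra : E →L[ℂ] Yp →L[ℂ] Yp}
  {lX : E →L[ℂ] (Yp →L[ℂ] V) →L[ℂ] (Yp →L[ℂ] V)}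
  {j : Y →ₗᵢ[ℂ] (W →L[ℂ] (Yp →L[ℂ] V))} {lY : E →L[ℂ] Y →L[ℂ] Y}

/-- The test elements of `Yp`. -/
theorem exists_Psi (hc : Cx l r U B ev0 ev jp ra lX j lY)
    (ζ : Q → (W →L[ℂ] ℂ)) (τ : ∀ q, (B q).G → E) (S : Set Q) (C D : ℝ) (hC : 0 ≤ C)
    (hD : 0 ≤ D) (hζ : ∀ q ∈ S, ‖ζ q‖ ≤ C) (hτ : ∀ q ∈ S, ∀ g, ‖τ q g‖ ≤ D)
    (hrel : ∀ q ∈ S, ∀ k (h : (B q).G), (B q).f k * ∑ g, (B q).r 0 g • τ q (g * h) =
      ∑ g, (B q).r k g • τ q (g * h))
    (hlim : ∀ w (ε : ℝ), 0 < ε → ∀ᶠ q in (U : Filter Q), q ∈ S → ∀ g,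
      ‖ζ q (r (τ q g) w)‖ ≤ ε) :
    ∃ Ψ : (Q → Γ) → Set Q → Yp, (∀ x S' w q g γ, ev0 (jp (Ψ x S') w) ⟨q, g⟩ γ =
      (open Classical in if (q ∈ S' ∧ q ∈ S) ∧ γ = x q then ζ q (r (τ q g) w) else 0)) ∧
      ∀ (S' : Set Q) (n : ℕ) (x : Fin n → Q → Γ) (c : Fin n → ℂ), (∀ i, ‖c i‖ ≤ 1) →
        (∀ q ∈ S', Function.Injective fun i => x i q) →
        ‖∑ i, c i • Ψ (x i) S'‖ ≤ C * D * ‖r‖ := by
  classical
  obtain ⟨y, hy, hyn⟩ := exists_test hc.h0 ζ τ S C D hC hD hζ hτ hlim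
  have hex : ∀ (x : Q → Γ) (S' : Set Q), ∃ z, jp z = y x S' := by
    intro x S'
    apply hc.jp_surj
    intro w q k h γ
    simp only [hy]
    by_cases P : (q ∈ S' ∧ q ∈ S) ∧ γ = x q
    · simp only [if_pos P]
      have e : ∀ (c : (B q).G → ℂ) (a : (B q).G → E) , ∑ g, c g * ζ q (r (a g) w) =
          ζ q (r (∑ g, c g • a g) w) := by
        intro c a
        rw [map_sum, ContinuousLinearMap.sum_apply, map_sum]
        apply Finset.sum_congr rfl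
        intro g _
        rw [map_smul, _root_.smul_apply, map_smul, smul_eq_mul]
      have e1 : ∀ g, r (τ q (g * h)) (r ((B q).f k) w) = r ((B q).f k * τ q (g * h)) w :=
        fun g => (hc.bm.r_mul _ _ _).symm
      simp only [e1]
      rw [e ((B q).r 0) (fun g => (B q).f k * τ q (g * h)), e ((B q).r k) (fun g => τ q (g * h)),
        ← hrel q P.1.2 k h, Finset.mul_sum]
      congr 3
      apply Finset.sum_congr rfl
      intro g _
      rw [mul_smul_comm]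
    · simp only [if_neg P, mul_zero]
  choose Ψ hΨ using hex
  refine ⟨Ψ, ?_, ?_⟩
  · intro x S' w q g γ
    rw [hΨ, hy]
  · intro S' n x c hcl hinj
    have h1 := hyn S' n x c hcl hinj
    have h2 : jp (∑ i, c i • Ψ (x i) S') = ∑ i, c i • y (x i) S' := by
      rw [map_sum]
      apply Finset.sum_congr rfl
      intro i _
      rw [map_smul, hΨ]
    rw [← h2, LinearIsometry.norm_map] at h1
    exact h1

end Job15706

section Job15733

open Filter Set Cardinal Topology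

variable {E W Q Γ V0 V Yp Y : Type u} [NormedRing E] [NormedAlgebra ℂ E]
  [NormedAddCommGroup W] [NormedSpace ℂ W] [NormedAddCommGroup V0] [NormedSpace ℂ V0]
  [NormedAddCommGroup V] [NormedSpace ℂ V] [NormedAddCommGroup Yp] [NormedSpace ℂ Yp]
  [NormedAddCommGroup Y] [NormedSpace ℂ Y]

variable {l r : E →L[ℂ] W →L[ℂ] W} {U : Ultrafilter Q} {B : Q → Blk E}
  {ev0 : V0 →ₗ[ℂ] ((Σ q, (B q).G) → Γ → ℂ)} {ev : V →ₗ[ℂ] (Q → Γ → Γ → ℂ)}
  {jp : Yp →ₗᵢ[ℂ] (W →L[ℂ] V0)} {ra : E →L[ℂ] Yp →L[ℂ] Yp}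
  {lX : E →L[ℂ] (Yp →L[ℂ] V) →L[ℂ] (Yp →L[ℂ] V)}
  {j : Y →ₗᵢ[ℂ] (W →L[ℂ] (Yp →L[ℂ] V))} {lY : E →L[ℂ] Y →L[ℂ] Y}

theorem ev0_inj' (hc : Cx l r U B ev0 ev jp ra lX j lY) (v v' : V0)
    (h : ∀ s γ, ev0 v s γ = ev0 v' s γ) : v = v' := by
  have h1 : ‖v - v'‖ ≤ 0 := hc.h0.norm_le (v - v') 0 le_rfl (fun s γ => by
    rw [map_sub, Pi.sub_apply, Pi.sub_apply, h s γ, sub_self, norm_zero])
  exact sub_eq_zero.1 (norm_le_zero_iff.1 h1)

theorem ev_inj' (hc : Cx l r U B ev0 ev jp ra lX j lY) (v v' : V)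
    (h : ∀ q g1 g2, ev v q g1 g2 = ev v' q g1 g2) : v = v' := by
  have h1 : ‖v - v'‖ ≤ 0 := hc.h1.norm_le (v - v') 0 le_rfl (fun q g2 F => by
    apply le_of_eq
    rw [Finset.sum_eq_zero]
    · norm_num
    · intro g1 _
      rw [map_sub, Pi.sub_apply, Pi.sub_apply, Pi.sub_apply, h, sub_self, norm_zero]
      norm_num)
  exact sub_eq_zero.1 (norm_le_zero_iff.1 h1)

theorem yp_ext (hc : Cx l r U B ev0 ev jp ra lX j lY) (y y' : Yp)
    (h : ∀ w s γ, ev0 (jp y w) s γ = ev0 (jp y' w) s γ) : y = y' :=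
  jp.injective (ContinuousLinearMap.ext fun w => ev0_inj' hc _ _ (h w))

theorem y_ext (hc : Cx l r U B ev0 ev jp ra lX j lY) (φ φ' : Y)
    (h : ∀ w y q g1 g2, ev (j φ w y) q g1 g2 = ev (j φ' w y) q g1 g2) : φ = φ' :=
  j.injective (ContinuousLinearMap.ext fun w => ContinuousLinearMap.ext fun y =>
    ev_inj' hc _ _ (h w y))

theorem phi0 (hc : Cx l r U B ev0 ev jp ra lX j lY) (q : Q) (g0 : (B q).G) (a : E) (g1 : Γ) :
    ∃ φ : Y, (∀ w y q' g1' g2', ev (j φ w y) q' g1' g2' =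
      (open Classical in if q' = q ∧ g1' = g1 then ev0 (jp y (r a w)) ⟨q, g0⟩ g2' else 0)) ∧
      (a = 1 → ‖φ‖ ≤ 1) := by
  classical
  obtain ⟨Φ, h1, h2⟩ := exists_Phi hc (Function.update (fun _ => 1) q g0)
  refine ⟨Φ a (fun _ => g1) {q}, ?_, ?_⟩
  · intro w y q' g1' g2'
    rw [h1]
    by_cases hq : q' = q
    · subst hq
      by_cases hg : g1' = g1
      · rw [if_pos ⟨rfl, hg⟩, if_pos ⟨rfl, hg⟩, Function.update_self]
      · rw [if_neg (fun h => hg h.2), if_neg (fun h => hg h.2)]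
    · rw [if_neg (fun h => hq h.1), if_neg (fun h => hq h.1)]
  · rintro rfl
    have h3 := h2 {q} 1 (fun _ _ => g1) (fun _ => 1) (by simp)
      (fun q _ => Function.injective_of_subsingleton _)
    simpa using h3

/-- the relation of a block -/
def RelT (B : Blk E) (τ : B.G → E) : Prop :=
  ∀ k h, B.f k * ∑ g, B.r 0 g • τ (g * h) = ∑ g, B.r k g • τ (g * h)

theorem RelT.shift {B : Blk E} {τ : B.G → E} (h : RelT B τ) (h0 : B.G) :
    RelT B (fun g => τ (g * h0)) := by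
  intro k h'
  simp only [mul_assoc]
  exact h k (h' * h0)

theorem RelT.mul_right {B : Blk E} {τ : B.G → E} (h : RelT B τ) (b : E) :
    RelT B (fun g => τ g * b) := by
  intro k h'
  have h1 := h k h'
  simp only [← smul_mul_assoc, ← Finset.sum_mul]
  rw [← mul_assoc, h1]

theorem RelT.sub {B : Blk E} {τ τ' : B.G → E} (h : RelT B τ) (h' : RelT B τ') :
    RelT B (fun g => τ g - τ' g) := by
  intro k h0
  simp only [smul_sub, Finset.sum_sub_distrib]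
  rw [mul_sub, h k h0, h' k h0]

theorem RelT.tk {B : Blk E} (hB : B.Ok) (k0 : Fin (B.n + 1)) : RelT B (B.tk k0) := by
  intro k h
  have h1 : ∀ c : B.G → ℂ, ∑ g, c g • B.tk k0 (g * h) =
      ∑ g', B.r k0 g' • ∑ g, c g • B.t (g * (h * g')) := by
    intro c
    simp only [Blk.tk, Finset.smul_sum]
    rw [Finset.sum_comm]
    refine Finset.sum_congr rfl fun g' _ => Finset.sum_congr rfl fun g _ => ?_
    rw [smul_comm, mul_assoc]
  rw [h1, h1, Finset.mul_sum]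
  refine Finset.sum_congr rfl fun g' _ => ?_
  rw [mul_smul_comm, hB.rel k (h * g')]

/-- specification of the test elements -/
def IsPsi (r : E →L[ℂ] W →L[ℂ] W) (B : Q → Blk E)
    (ev0 : V0 →ₗ[ℂ] ((Σ q, (B q).G) → Γ → ℂ)) (jp : Yp →ₗᵢ[ℂ] (W →L[ℂ] V0))
    (q : Q) (τ : (B q).G → E) (ζ : W →L[ℂ] ℂ) (g2 : Γ) (y : Yp) : Prop :=
  (∀ w g γ, ev0 (jp y w) ⟨q, g⟩ γ =
    (open Classical in if γ = g2 then ζ (r (τ g) w) else 0)) ∧
  (∀ w q' g γ, q' ≠ q → ev0 (jp y w) ⟨q', g⟩ γ = 0)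

theorem IsPsi.unique (hc : Cx l r U B ev0 ev jp ra lX j lY) {q : Q} {τ : (B q).G → E}
    {ζ : W →L[ℂ] ℂ} {g2 : Γ} {y y' : Yp} (h : IsPsi r B ev0 jp q τ ζ g2 y)
    (h' : IsPsi r B ev0 jp q τ ζ g2 y') : y = y' := by
  apply yp_ext hc
  rintro w ⟨q', g⟩ γ
  by_cases hq : q' = q
  · subst hq
    rw [h.1, h'.1]
  · rw [h.2 _ _ _ _ hq, h'.2 _ _ _ _ hq]

theorem evjp_add (y y' : Yp) (w : W) (s : Σ q, (B q).G) (γ : Γ) :
    ev0 (jp (y + y') w) s γ = ev0 (jp y w) s γ + ev0 (jp y' w) s γ := by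
  have h : jp (y + y') w = jp y w + jp y' w := by rw [map_add]; rfl
  rw [h, map_add]
  rfl

theorem evjp_smul (c : ℂ) (y : Yp) (w : W) (s : Σ q, (B q).G) (γ : Γ) :
    ev0 (jp (c • y) w) s γ = c * ev0 (jp y w) s γ := by
  have h : jp (c • y) w = c • jp y w := by rw [map_smul]; rfl
  rw [h, map_smul]
  rfl

theorem evjp_zero (w : W) (s : Σ q, (B q).G) (γ : Γ) :
    ev0 (jp 0 w) s γ = 0 := by
  have h : jp 0 w = 0 := by rw [map_zero]; rfl
  rw [h, map_zero]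
  rfl

theorem IsPsi.zero (q : Q) (ζ : W →L[ℂ] ℂ) (g2 : Γ) :
    IsPsi r B ev0 jp q (fun _ => 0) ζ g2 0 := by
  refine ⟨fun w g γ => ?_, fun w q' g γ _ => evjp_zero _ _ _⟩
  have h1 : r 0 w = 0 := by rw [map_zero]; rfl
  rw [evjp_zero, h1, map_zero, ite_self]

theorem IsPsi.add {q : Q} {τ τ' : (B q).G → E}
    {ζ : W →L[ℂ] ℂ} {g2 : Γ} {y y' : Yp} (h : IsPsi r B ev0 jp q τ ζ g2 y)
    (h' : IsPsi r B ev0 jp q τ' ζ g2 y') :
    IsPsi r B ev0 jp q (fun g => τ g + τ' g) ζ g2 (y + y') := by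
  refine ⟨fun w g γ => ?_, fun w q' g γ hq => ?_⟩
  · have h1 : r (τ g + τ' g) w = r (τ g) w + r (τ' g) w := by rw [map_add]; rfl
    rw [evjp_add, h.1, h'.1, h1, map_add]
    split_ifs
    · rfl
    · rw [add_zero]
  · rw [evjp_add, h.2 _ _ _ _ hq, h'.2 _ _ _ _ hq, add_zero]

theorem IsPsi.smul {q : Q} {τ : (B q).G → E} (c : ℂ)
    {ζ : W →L[ℂ] ℂ} {g2 : Γ} {y : Yp} (h : IsPsi r B ev0 jp q τ ζ g2 y) :
    IsPsi r B ev0 jp q (fun g => c • τ g) ζ g2 (c • y) := by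
  refine ⟨fun w g γ => ?_, fun w q' g γ hq => ?_⟩
  · have h1 : r (c • τ g) w = c • r (τ g) w := by rw [map_smul]; rfl
    rw [evjp_smul, h.1, h1, map_smul]
    split_ifs
    · rfl
    · rw [mul_zero]
  · rw [evjp_smul, h.2 _ _ _ _ hq, mul_zero]

theorem IsPsi.sum {q : Q} {ι : Type} (s : Finset ι) (c : ι → ℂ) (τ : ι → (B q).G → E)
    (y : ι → Yp) {ζ : W →L[ℂ] ℂ} {g2 : Γ} (h : ∀ i, IsPsi r B ev0 jp q (τ i) ζ g2 (y i)) :
    IsPsi r B ev0 jp q (fun g => ∑ i ∈ s, c i • τ i g) ζ g2 (∑ i ∈ s, c i • y i) := by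
  classical
  induction s using Finset.induction_on with
  | empty =>
    simp only [Finset.sum_empty]
    exact IsPsi.zero q ζ g2
  | insert a s ha ih =>
    simp only [Finset.sum_insert ha]
    exact ((h a).smul (c a)).add ih

theorem IsPsi.add_left {q : Q} {τ : (B q).G → E}
    {ζ ζ' : W →L[ℂ] ℂ} {g2 : Γ} {y y' : Yp} (h : IsPsi r B ev0 jp q τ ζ g2 y)
    (h' : IsPsi r B ev0 jp q τ ζ' g2 y') :
    IsPsi r B ev0 jp q τ (ζ + ζ') g2 (y + y') := by
  refine ⟨fun w g γ => ?_, fun w q' g γ hq => ?_⟩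
  · rw [evjp_add, h.1, h'.1]
    split_ifs
    · rfl
    · rw [add_zero]
  · rw [evjp_add, h.2 _ _ _ _ hq, h'.2 _ _ _ _ hq, add_zero]

theorem IsPsi.smul_left {q : Q} {τ : (B q).G → E} (c : ℂ)
    {ζ : W →L[ℂ] ℂ} {g2 : Γ} {y : Yp} (h : IsPsi r B ev0 jp q τ ζ g2 y) :
    IsPsi r B ev0 jp q τ (c • ζ) g2 (c • y) := by
  refine ⟨fun w g γ => ?_, fun w q' g γ hq => ?_⟩
  · rw [evjp_smul, h.1]
    split_ifs
    · rfl
    · rw [mul_zero]
  · rw [evjp_smul, h.2 _ _ _ _ hq, mul_zero]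

theorem IsPsi.ra_comp (hc : Cx l r U B ev0 ev jp ra lX j lY) {q : Q} {τ : (B q).G → E} (a : E)
    {ζ : W →L[ℂ] ℂ} {g2 : Γ} {y : Yp} (h : IsPsi r B ev0 jp q τ ζ g2 y) :
    IsPsi r B ev0 jp q τ (ζ.comp (l a)) g2 (ra a y) := by
  refine ⟨fun w g γ => ?_, fun w q' g γ hq => ?_⟩
  · rw [hc.jp_ra, h.1, ← hc.bm.comm]
    rfl
  · rw [hc.jp_ra, h.2 _ _ _ _ hq]

theorem IsPsi.compr (hc : Cx l r U B ev0 ev jp ra lX j lY) {q : Q} {τ : (B q).G → E} (b : E)
    {ζ : W →L[ℂ] ℂ} {g2 : Γ} {y : Yp} (h : IsPsi r B ev0 jp q τ (ζ.comp (r b)) g2 y) :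
    IsPsi r B ev0 jp q (fun g => τ g * b) ζ g2 y := by
  refine ⟨fun w g γ => ?_, h.2⟩
  rw [h.1, hc.bm.r_mul]
  rfl

theorem psi0 (hc : Cx l r U B ev0 ev jp ra lX j lY) (q : Q) (τ : (B q).G → E)
    (hτ : RelT (B q) τ) (ζ : W →L[ℂ] ℂ) (g2 : Γ) :
    ∃ y : Yp, IsPsi r B ev0 jp q τ ζ g2 y ∧
      ∀ D : ℝ, 0 ≤ D → (∀ g, ‖τ g‖ ≤ D) → ‖y‖ ≤ ‖ζ‖ * D * ‖r‖ := by
  classical
  have key : ∀ D : ℝ, 0 ≤ D → (∀ g, ‖τ g‖ ≤ D) →
      ∃ y : Yp, IsPsi r B ev0 jp q τ ζ g2 y ∧ ‖y‖ ≤ ‖ζ‖ * D * ‖r‖ := by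
    intro D hD hτD
    obtain ⟨Ψ, h1, h2⟩ := exists_Psi hc (fun _ => ζ)
      (Function.update (fun (q : Q) (_ : (B q).G) => (0 : E)) q τ) {q} ‖ζ‖ D
      (norm_nonneg _) hD (fun _ _ => le_rfl) (by
        intro q' hq'
        rw [Set.mem_singleton_iff] at hq'
        subst hq'
        rw [Function.update_self]
        exact hτD) (by
        intro q' hq'
        rw [Set.mem_singleton_iff] at hq'
        subst hq'
        rw [Function.update_self]
        exact hτ) (by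
        intro w ε _
        filter_upwards [hc.np q] with q' hq' hq''
        exact absurd hq'' hq')
    refine ⟨Ψ (fun _ => g2) {q}, ⟨fun w g γ => ?_, fun w q' g γ hq => ?_⟩, ?_⟩
    · rw [h1, Function.update_self]
      by_cases hg : γ = g2
      · rw [if_pos ⟨⟨rfl, rfl⟩, hg⟩, if_pos hg]
      · rw [if_neg (fun h => hg h.2), if_neg hg]
    · rw [h1, if_neg (fun h => hq h.1.1)]
    · have h3 := h2 {q} 1 (fun _ _ => g2) (fun _ => 1) (by simp)
        (fun q _ => Function.injective_of_subsingleton _)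
      simpa using h3
  obtain ⟨y, hy, -⟩ := key (∑ g, ‖τ g‖) (Finset.sum_nonneg fun _ _ => norm_nonneg _)
    (fun g => Finset.single_le_sum (f := fun g => ‖τ g‖) (fun _ _ => norm_nonneg _)
      (Finset.mem_univ g))
  refine ⟨y, hy, fun D hD hτD => ?_⟩
  obtain ⟨y', hy', h3⟩ := key D hD hτD
  rw [hy.unique hc hy']
  exact h3

theorem evj_sum {ι : Type} (s : Finset ι) (c : ι → ℂ) (φ : ι → Y) (w : W) (y : Yp) (q : Q)
    (g1 g2 : Γ) : ev (j (∑ i ∈ s, c i • φ i) w y) q g1 g2 =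
      ∑ i ∈ s, c i * ev (j (φ i) w y) q g1 g2 := by
  classical
  induction s using Finset.induction_on with
  | empty =>
    simp only [Finset.sum_empty]
    have h : j 0 w y = 0 := by rw [j.map_zero]; rfl
    rw [h, map_zero]
    rfl
  | insert a s ha ih =>
    rw [Finset.sum_insert ha, Finset.sum_insert ha, ← ih]
    have h : j (c a • φ a + ∑ i ∈ s, c i • φ i) w y =
        c a • j (φ a) w y + j (∑ i ∈ s, c i • φ i) w y := by
      rw [j.map_add, j.map_smul]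
      rfl
    rw [h, map_add, map_smul]
    rfl

/-- linearity in the first variable -/
theorem evT_sum {ι : Type} (T : Y →L[ℂ] (Yp →L[ℂ] V)) (s : Finset ι) (c : ι → ℂ) (φ : ι → Y)
    (y : Yp) (q : Q)
    (g1 g2 : Γ) : ev (T (∑ i ∈ s, c i • φ i) y) q g1 g2 =
      ∑ i ∈ s, c i * ev (T (φ i) y) q g1 g2 := by
  classical
  induction s using Finset.induction_on with
  | empty =>
    simp only [Finset.sum_empty]
    have h : T 0 y = 0 := by rw [map_zero]; rfl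
    rw [h, map_zero]
    rfl
  | insert a s ha ih =>
    rw [Finset.sum_insert ha, Finset.sum_insert ha, ← ih]
    have h : T (c a • φ a + ∑ i ∈ s, c i • φ i) y =
        c a • T (φ a) y + T (∑ i ∈ s, c i • φ i) y := by
      rw [map_add, map_smul]
      rfl
    rw [h, map_add, map_smul]
    rfl

/-- linearity in the second variable -/
theorem evT_sum' {ι : Type} (T : Yp →L[ℂ] V) (s : Finset ι) (c : ι → ℂ) (y : ι → Yp)
    (q : Q) (g1 g2 : Γ) : ev (T (∑ i ∈ s, c i • y i)) q g1 g2 =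
      ∑ i ∈ s, c i * ev (T (y i)) q g1 g2 := by
  classical
  induction s using Finset.induction_on with
  | empty =>
    simp only [Finset.sum_empty]
    rw [map_zero, map_zero]
    rfl
  | insert a s ha ih =>
    rw [Finset.sum_insert ha, Finset.sum_insert ha, ← ih, map_add, map_smul, map_add, map_smul]
    rfl

theorem reindex {G : Type} [Group G] [Fintype G] (F : G → G → G → ℂ) :
    ∑ h, ∑ g', F g' h⁻¹ (h * g') = ∑ h, ∑ g', F g' (g' * h⁻¹) h := by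
  rw [Finset.sum_comm, Finset.sum_comm (f := fun h g' => F g' (g' * h⁻¹) h)]
  refine Finset.sum_congr rfl fun g' _ => ?_
  refine Fintype.sum_equiv (Equiv.mulRight g') _ _ fun h => ?_
  rw [Equiv.coe_mulRight, mul_inv_rev, mul_inv_cancel_left]

theorem norm_ev_le (hc : Cx l r U B ev0 ev jp ra lX j lY) (v : V) (q : Q) (g1 g2 : Γ) :
    ‖ev v q g1 g2‖ ≤ ‖v‖ := by
  have h := hc.h1.le v q g2 {g1}
  rw [Finset.sum_singleton] at h
  exact le_of_sq_le_sq h (norm_nonneg _)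

theorem avg_norm_le {G : Type} [Group G] [Fintype G] (F : G → ℂ) (c : ℝ) (h : ∀ g, ‖F g‖ ≤ c) :
    ‖((Fintype.card G : ℂ))⁻¹ * ∑ g, F g‖ ≤ c := by
  have hpos : (0 : ℝ) < Fintype.card G := by exact_mod_cast Fintype.card_pos
  rw [norm_mul, norm_inv, Complex.norm_natCast, inv_mul_le_iff₀ hpos]
  calc ‖∑ g, F g‖ ≤ ∑ g, ‖F g‖ := norm_sum_le _ _
    _ ≤ ∑ _g : G, c := Finset.sum_le_sum fun g _ => h g
    _ = Fintype.card G * c := by rw [Finset.sum_const, nsmul_eq_mul]; rfl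

theorem avg_const {G : Type} [Group G] [Fintype G] (c : ℂ) :
    ((Fintype.card G : ℂ))⁻¹ * ∑ _g : G, c = c := by
  have hpos : (Fintype.card G : ℂ) ≠ 0 := by exact_mod_cast Fintype.card_ne_zero
  rw [Finset.sum_const, nsmul_eq_mul, Finset.card_univ, inv_mul_cancel_left₀ hpos]

/-- The approximate retractions attached to a single block. `Φ q h g1` and `Ψ q h ζ g2` are
supported at `q`. -/
theorem approx (hc : Cx l r U B ev0 ev jp ra lX j lY) :
    ∃ (Φ : ∀ q, (B q).G → Γ → Y) (Ψ : ∀ q, (B q).G → (W →L[ℂ] ℂ) → Γ → Yp)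
      (e : Q → Γ → Γ → (Y →L[ℂ] (Yp →L[ℂ] V)) → (W →L[ℂ] ℂ) → ℂ) (C : ℝ), 0 ≤ C ∧
      (∀ q h g1 w y q' g1' g2', ev (j (Φ q h g1) w y) q' g1' g2' =
        (open Classical in if q' = q ∧ g1' = g1 then ev0 (jp y w) ⟨q, h⁻¹⟩ g2' else 0)) ∧
      (∀ q h ζ g2 w g γ, ev0 (jp (Ψ q h ζ g2) w) ⟨q, g⟩ γ =
        (open Classical in if γ = g2 then ζ (r ((B q).tk 0 (g * h)) w) else 0)) ∧
      (∀ q h ζ g2 w q' g γ, q' ≠ q → ev0 (jp (Ψ q h ζ g2) w) ⟨q', g⟩ γ = 0) ∧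
      (∀ q g1 g2 T ζ, e q g1 g2 T ζ = ((Fintype.card (B q).G : ℂ))⁻¹ *
        ∑ h, ev (T (Φ q h g1) (Ψ q h ζ g2)) q g1 g2) ∧
      (∀ q g1 g2 T ζ ζ', e q g1 g2 T (ζ + ζ') = e q g1 g2 T ζ + e q g1 g2 T ζ') ∧
      (∀ q g1 g2 T (c : ℂ) ζ, e q g1 g2 T (c • ζ) = c * e q g1 g2 T ζ) ∧
      (∀ q g1 g2 T ζ, ‖e q g1 g2 T ζ‖ ≤ C * ‖T‖ * ‖ζ‖) ∧
      (∀ q g1 g2 T w ζ, (∀ φ, T φ = j φ w) → e q g1 g2 T ζ = ζ w) ∧
      (∀ q g1 g2 T T' a ζ, (∀ φ, T' φ = lX a (T φ)) →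
        e q g1 g2 T' ζ = e q g1 g2 T (ζ.comp (l a))) ∧
      (∀ q g1 g2 T T' k ζ, (∀ φ, T' φ = T (lY ((B q).f k) φ)) →
        ‖e q g1 g2 T' ζ - e q g1 g2 T (ζ.comp (r ((B q).f k)))‖ ≤ C * (B q).eps * ‖T‖ * ‖ζ‖) := by
  classical
  choose Φ0 hΦ0 hΦ0n using phi0 hc
  have hpsi : ∀ q (h : (B q).G) (ζ : W →L[ℂ] ℂ) (g2 : Γ), ∃ y : Yp,
      IsPsi r B ev0 jp q (fun g => (B q).tk 0 (g * h)) ζ g2 y ∧
        ∀ D : ℝ, 0 ≤ D → (∀ g, ‖(B q).tk 0 (g * h)‖ ≤ D) → ‖y‖ ≤ ‖ζ‖ * D * ‖r‖ :=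
    fun q h ζ g2 => psi0 hc q _ ((RelT.tk (hc.ok q) 0).shift h) ζ g2
  choose Ψ hΨ hΨn using hpsi
  have hTb : ∀ (T : Y →L[ℂ] (Yp →L[ℂ] V)) q g0 g1 g2 y (c : ℝ), ‖y‖ ≤ c →
      ‖ev (T (Φ0 q g0 1 g1) y) q g1 g2‖ ≤ ‖T‖ * c := by
    intro T q g0 g1 g2 y c hy
    have h1 : ‖T (Φ0 q g0 1 g1)‖ ≤ ‖T‖ * 1 :=
      le_trans (T.le_opNorm _) (mul_le_mul_of_nonneg_left (hΦ0n q g0 1 g1 rfl) (norm_nonneg _))
    rw [mul_one] at h1
    calc ‖ev (T (Φ0 q g0 1 g1) y) q g1 g2‖ ≤ ‖T (Φ0 q g0 1 g1) y‖ := norm_ev_le hc _ _ _ _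
      _ ≤ ‖T (Φ0 q g0 1 g1)‖ * ‖y‖ := ContinuousLinearMap.le_opNorm _ _
      _ ≤ ‖T‖ * c := mul_le_mul h1 hy (norm_nonneg _) T.opNorm_nonneg
  refine ⟨fun q h g1 => Φ0 q h⁻¹ 1 g1, Ψ, fun q g1 g2 T ζ => ((Fintype.card (B q).G : ℂ))⁻¹ *
    ∑ h, ev (T (Φ0 q h⁻¹ 1 g1) (Ψ q h ζ g2)) q g1 g2, (‖(1 : E)‖ + 2) * (‖r‖ + 1),
    by positivity, ?_, ?_, ?_, ?_, ?_, ?_, ?_, ?_, ?_, ?_⟩
  · intro q h g1 w y q' g1' g2'
    rw [hΦ0, hc.bm.r_one]
  · intro q h ζ g2 w g γ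
    exact (hΨ q h ζ g2).1 w g γ
  · intro q h ζ g2 w q' g γ hq
    exact (hΨ q h ζ g2).2 w q' g γ hq
  · intro q g1 g2 T ζ
    rfl
  · intro q g1 g2 T ζ ζ'
    beta_reduce
    rw [← mul_add, ← Finset.sum_add_distrib]
    congr 1
    refine Finset.sum_congr rfl fun h _ => ?_
    rw [(hΨ q h (ζ + ζ') g2).unique hc ((hΨ q h ζ g2).add_left (hΨ q h ζ' g2)), map_add, map_add]
    rfl
  · intro q g1 g2 T c ζ
    beta_reduce
    have h1 : ∑ h, ev (T (Φ0 q h⁻¹ 1 g1) (Ψ q h (c • ζ) g2)) q g1 g2 =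
        c * ∑ h, ev (T (Φ0 q h⁻¹ 1 g1) (Ψ q h ζ g2)) q g1 g2 := by
      rw [Finset.mul_sum]
      refine Finset.sum_congr rfl fun h _ => ?_
      rw [(hΨ q h (c • ζ) g2).unique hc ((hΨ q h ζ g2).smul_left c), map_smul, map_smul]
      rfl
    rw [h1]
    ring
  · intro q g1 g2 T ζ
    refine avg_norm_le _ _ fun h => ?_
    refine le_trans (hTb T q _ g1 g2 _ (‖ζ‖ * (‖(1 : E)‖ + 1) * ‖r‖)
      (hΨn q h ζ g2 (‖(1 : E)‖ + 1) (by positivity) fun g => ?_)) ?_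
    · have h1 := (hc.ok q).near (g * h)
      have h2 := (hc.ok q).eps_le
      have h3 := (hc.ok q).lam_le (g * h)
      calc ‖(B q).tk 0 (g * h)‖ = ‖(B q).lam (g * h) • (1 : E) +
            ((B q).tk 0 (g * h) - (B q).lam (g * h) • (1 : E))‖ := by rw [add_sub_cancel]
        _ ≤ ‖(B q).lam (g * h) • (1 : E)‖ + ‖(B q).tk 0 (g * h) - (B q).lam (g * h) • (1 : E)‖ :=
            norm_add_le _ _
        _ ≤ ‖(1 : E)‖ + 1 := by
            refine add_le_add ?_ (le_trans h1 h2)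
            rw [norm_smul]
            exact mul_le_of_le_one_left (norm_nonneg _) h3
    · have e1 : ‖T‖ * (‖ζ‖ * (‖(1 : E)‖ + 1) * ‖r‖) = ((‖(1 : E)‖ + 1) * ‖r‖) * (‖T‖ * ‖ζ‖) := by
        ring
      have e2 : (‖(1 : E)‖ + 2) * (‖r‖ + 1) * ‖T‖ * ‖ζ‖ =
          ((‖(1 : E)‖ + 2) * (‖r‖ + 1)) * (‖T‖ * ‖ζ‖) := by ring
      rw [e1, e2]
      refine mul_le_mul_of_nonneg_right ?_ (by positivity)
      exact mul_le_mul (by linarith) (by linarith) r.opNorm_nonneg (by positivity)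
  · intro q g1 g2 T w ζ hT
    beta_reduce
    rw [← avg_const (G := (B q).G) (ζ w)]
    congr 1
    refine Finset.sum_congr rfl fun h _ => ?_
    rw [hT, hΦ0, if_pos ⟨rfl, rfl⟩, (hΨ q h ζ g2).1, if_pos rfl]
    beta_reduce
    rw [inv_mul_cancel, (hc.ok q).one, hc.bm.r_one, hc.bm.r_one]
  · intro q g1 g2 T T' a ζ hT
    beta_reduce
    congr 1
    refine Finset.sum_congr rfl fun h _ => ?_
    rw [hT, hc.lX_def, ((hΨ q h ζ g2).ra_comp hc a).unique hc (hΨ q h (ζ.comp (l a)) g2)]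
  · intro q g1 g2 T T' k ζ hT
    beta_reduce
    have hlY : ∀ g0, lY ((B q).f k) (Φ0 q g0 1 g1) = Φ0 q g0 ((B q).f k) g1 := by
      intro g0
      apply y_ext hc
      intro w y q' g1' g2'
      rw [hc.j_lY, hΦ0, hΦ0, hc.bm.r_one]
    have hrelΦ : ∀ h' : (B q).G, ∑ g, (B q).r 0 g • Φ0 q (g * h') ((B q).f k) g1 =
        ∑ g, (B q).r k g • Φ0 q (g * h') 1 g1 := by
      intro h'
      apply y_ext hc
      intro w y q' g1' g2'
      rw [evj_sum, evj_sum]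
      simp only [hΦ0, hc.bm.r_one]
      by_cases hq : q' = q ∧ g1' = g1
      · simp only [if_pos hq]
        exact hc.jp_rel y w q k h' g2'
      · simp only [if_neg hq, mul_zero]
    choose yt hyt _hytn using fun h : (B q).G => psi0 hc q _ ((hc.ok q).rel |> fun h' =>
      (RelT.shift (B := B q) (τ := (B q).t) h' h)) ζ g2
    choose yk hyk hykn using fun h : (B q).G => psi0 hc q _
      ((RelT.tk (hc.ok q) k).shift h) ζ g2
    have hsum : ∀ (k' : Fin ((B q).n + 1)) (h : (B q).G) (y : Yp),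
        IsPsi r B ev0 jp q (fun g => (B q).tk k' (g * h)) ζ g2 y →
        y = ∑ g', (B q).r k' g' • yt (h * g') := by
      intro k' h y hy
      have h1 := IsPsi.sum (r := r) (B := B) (ev0 := ev0) (jp := jp) Finset.univ ((B q).r k')
        (fun g' g => (B q).t (g * (h * g'))) (fun g' => yt (h * g')) (ζ := ζ) (g2 := g2)
        (fun g' => hyt (h * g'))
      refine hy.unique hc ?_
      have h2 : (fun g => (B q).tk k' (g * h)) =
          fun g => ∑ g', (B q).r k' g' • (B q).t (g * (h * g')) := by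
        funext g
        unfold Blk.tk
        simp only [mul_assoc]
      rw [h2]
      exact h1
    have hmain : ∑ h, ev (T' (Φ0 q h⁻¹ 1 g1) (Ψ q h ζ g2)) q g1 g2 =
        ∑ h, ev (T (Φ0 q h⁻¹ 1 g1) (yk h)) q g1 g2 := by
      have s1 : ∀ h, ev (T' (Φ0 q h⁻¹ 1 g1) (Ψ q h ζ g2)) q g1 g2 =
          ∑ g', (B q).r 0 g' * ev (T (Φ0 q h⁻¹ ((B q).f k) g1) (yt (h * g'))) q g1 g2 := by
        intro h
        rw [hT, hlY, hsum 0 h _ (hΨ q h ζ g2), evT_sum']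
      have s2 : ∀ h, ev (T (Φ0 q h⁻¹ 1 g1) (yk h)) q g1 g2 =
          ∑ g', (B q).r k g' * ev (T (Φ0 q h⁻¹ 1 g1) (yt (h * g'))) q g1 g2 := by
        intro h
        rw [hsum k h _ (hyk h), evT_sum']
      rw [Finset.sum_congr rfl fun h _ => s1 h, Finset.sum_congr rfl fun h _ => s2 h,
        reindex (fun g' g0 h => (B q).r 0 g' *
          ev (T (Φ0 q g0 ((B q).f k) g1) (yt h)) q g1 g2),
        reindex (fun g' g0 h => (B q).r k g' * ev (T (Φ0 q g0 1 g1) (yt h)) q g1 g2)]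
      refine Finset.sum_congr rfl fun h _ => ?_
      rw [← evT_sum, ← evT_sum, hrelΦ]
    rw [hmain, ← mul_sub, ← Finset.sum_sub_distrib]
    refine avg_norm_le _ _ fun h => ?_
    have h5 : ev (T (Φ0 q h⁻¹ 1 g1) (yk h)) q g1 g2 -
        ev (T (Φ0 q h⁻¹ 1 g1) (Ψ q h (ζ.comp (r ((B q).f k))) g2)) q g1 g2 =
        ev (T (Φ0 q h⁻¹ 1 g1) (yk h + (-1 : ℂ) • Ψ q h (ζ.comp (r ((B q).f k))) g2)) q g1 g2 := by
      rw [map_add, map_smul, map_add, map_smul]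
      simp only [Pi.add_apply, Pi.smul_apply, smul_eq_mul]
      ring
    rw [h5]
    obtain ⟨yd, hyd, hydn⟩ := psi0 hc q _ (((RelT.tk (hc.ok q) k).shift h).sub
      (((RelT.tk (hc.ok q) 0).shift h).mul_right ((B q).f k))) ζ g2
    have h6 : yk h + (-1 : ℂ) • Ψ q h (ζ.comp (r ((B q).f k))) g2 = yd := by
      refine IsPsi.unique hc ?_ hyd
      have h7 := (hyk h).add (((hΨ q h (ζ.comp (r ((B q).f k))) g2).compr hc).smul (-1))
      have h8 : (fun g => (B q).tk k (g * h) - (B q).tk 0 (g * h) * (B q).f k) =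
          fun g => (B q).tk k (g * h) + (-1 : ℂ) • ((B q).tk 0 (g * h) * (B q).f k) := by
        funext g
        rw [neg_one_smul, sub_eq_add_neg]
      rw [h8]
      exact h7
    rw [h6]
    refine le_trans (hTb T q _ g1 g2 _ (‖ζ‖ * (B q).eps * ‖r‖)
      (hydn (B q).eps (hc.ok q).eps_nonneg fun g => (hc.ok q).mul k (g * h))) ?_
    have e1 : ‖T‖ * (‖ζ‖ * (B q).eps * ‖r‖) = (1 * ‖r‖) * ((B q).eps * ‖T‖ * ‖ζ‖) := by
      ring
    have e2 : (‖(1 : E)‖ + 2) * (‖r‖ + 1) * (B q).eps * ‖T‖ * ‖ζ‖ =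
        ((‖(1 : E)‖ + 2) * (‖r‖ + 1)) * ((B q).eps * ‖T‖ * ‖ζ‖) := by ring
    rw [e1, e2]
    have h9 := (hc.ok q).eps_nonneg
    have h10 := norm_nonneg (1 : E)
    refine mul_le_mul_of_nonneg_right ?_ (by positivity)
    exact mul_le_mul (by linarith) (by linarith) r.opNorm_nonneg (by positivity)

end Job15733

section Job15754

open Filter Set Cardinal Topology

variable {E W Q Γ V0 V Yp Y : Type u} [NormedRing E] [NormedAlgebra ℂ E]
  [NormedAddCommGroup W] [NormedSpace ℂ W] [NormedAddCommGroup V0] [NormedSpace ℂ V0]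
  [NormedAddCommGroup V] [NormedSpace ℂ V] [NormedAddCommGroup Yp] [NormedSpace ℂ Yp]
  [NormedAddCommGroup Y] [NormedSpace ℂ Y]

variable {l r : E →L[ℂ] W →L[ℂ] W} {U : Ultrafilter Q} {B : Q → Blk E}
  {ev0 : V0 →ₗ[ℂ] ((Σ q, (B q).G) → Γ → ℂ)} {ev : V →ₗ[ℂ] (Q → Γ → Γ → ℂ)}
  {jp : Yp →ₗᵢ[ℂ] (W →L[ℂ] V0)} {ra : E →L[ℂ] Yp →L[ℂ] Yp}
  {lX : E →L[ℂ] (Yp →L[ℂ] V) →L[ℂ] (Yp →L[ℂ] V)}
  {j : Y →ₗᵢ[ℂ] (W →L[ℂ] (Yp →L[ℂ] V))} {lY : E →L[ℂ] Y →L[ℂ] Y}

section LimAux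

variable {I : Type u} (Z : Ultrafilter I) (L : (I → ℂ) → ℂ)
  (hL : ∀ f (C : ℝ), (∀ i, ‖f i‖ ≤ C) → Tendsto f (Z : Filter I) (𝓝 (L f)))

include hL

theorem limits_add {f g : I → ℂ} {C D : ℝ} (hf : ∀ i, ‖f i‖ ≤ C) (hg : ∀ i, ‖g i‖ ≤ D) :
    L (fun i => f i + g i) = L f + L g := by
  refine tendsto_nhds_unique (hL _ (C + D) fun i => ?_) ((hL f C hf).add (hL g D hg))
  exact (norm_add_le _ _).trans (add_le_add (hf i) (hg i))

theorem limits_smul {f : I → ℂ} {C : ℝ} (hf : ∀ i, ‖f i‖ ≤ C) (c : ℂ) :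
    L (fun i => c * f i) = c * L f := by
  refine tendsto_nhds_unique (hL _ (‖c‖ * C) fun i => ?_) ((hL f C hf).const_mul c)
  rw [norm_mul]
  exact mul_le_mul_of_nonneg_left (hf i) (norm_nonneg _)

theorem limits_const (c : ℂ) : L (fun _ => c) = c :=
  tendsto_nhds_unique (hL _ ‖c‖ fun _ => le_rfl) tendsto_const_nhds

theorem limits_dist {f g : I → ℂ} {C D δ : ℝ} (hf : ∀ i, ‖f i‖ ≤ C) (hg : ∀ i, ‖g i‖ ≤ D)
    (h : ∀ᶠ i in (Z : Filter I), ‖f i - g i‖ ≤ δ) : ‖L f - L g‖ ≤ δ :=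
  le_of_tendsto ((hL f C hf).sub (hL g D hg)).norm h

end LimAux

/-- The limit `ω` of the approximate retractions, with values in the bidual. -/
theorem limits (hc : Cx l r U B ev0 ev jp ra lX j lY) (Wu : Ultrafilter Γ) :
    ∃ (Φ : ∀ q, (B q).G → Γ → Y) (Ψ : ∀ q, (B q).G → (W →L[ℂ] ℂ) → Γ → Yp)
      (eq : Q → (Y →L[ℂ] (Yp →L[ℂ] V)) → (W →L[ℂ] ℂ) → ℂ)
      (ω : (Y →L[ℂ] (Yp →L[ℂ] V)) →L[ℂ] (W →L[ℂ] ℂ) →L[ℂ] ℂ),
      (∀ q h g1 w y q' g1' g2', ev (j (Φ q h g1) w y) q' g1' g2' =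
        (open Classical in if q' = q ∧ g1' = g1 then ev0 (jp y w) ⟨q, h⁻¹⟩ g2' else 0)) ∧
      (∀ q h ζ g2 w g γ, ev0 (jp (Ψ q h ζ g2) w) ⟨q, g⟩ γ =
        (open Classical in if γ = g2 then ζ (r ((B q).tk 0 (g * h)) w) else 0)) ∧
      (∀ q h ζ g2 w q' g γ, q' ≠ q → ev0 (jp (Ψ q h ζ g2) w) ⟨q', g⟩ γ = 0) ∧
      (∀ q T ζ (c : ℝ), 0 < c → c < ‖eq q T ζ‖ → ∃ h, ∀ᶠ g1 in (Wu : Filter Γ),
        ∀ᶠ g2 in (Wu : Filter Γ), c < ‖ev (T (Φ q h g1) (Ψ q h ζ g2)) q g1 g2‖) ∧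
      (∀ T ζ, Tendsto (fun q => eq q T ζ) (U : Filter Q) (𝓝 (ω T ζ))) ∧
      (∀ T w ζ, (∀ φ, T φ = j φ w) → ω T ζ = ζ w) ∧
      (∀ T T' a ζ, (∀ φ, T' φ = lX a (T φ)) → ω T' ζ = ω T (ζ.comp (l a))) ∧
      (∀ T T' a ζ, (∀ φ, T' φ = T (lY a φ)) → ω T' ζ = ω T (ζ.comp (r a))) := by
  obtain ⟨Φ, Ψ, e, C, hC, hΦ, hΨ, hΨ0, he, headd, hesmul, hebd, heκ, heleft, heright⟩ := approx hc
  obtain ⟨LU, hLUt, hLUb⟩ := ulim U
  obtain ⟨LW, hLWt, hLWb⟩ := ulim Wu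
  -- linearity in `T`
  have headdT : ∀ q g1 g2 T T' ζ, e q g1 g2 (T + T') ζ = e q g1 g2 T ζ + e q g1 g2 T' ζ := by
    intro q g1 g2 T T' ζ
    rw [he, he, he, ← mul_add, ← Finset.sum_add_distrib]
    congr 1
    refine Finset.sum_congr rfl fun h _ => ?_
    rw [ContinuousLinearMap.add_apply, ContinuousLinearMap.add_apply, map_add]
    rfl
  have hesmulT : ∀ q g1 g2 (c : ℂ) T ζ, e q g1 g2 (c • T) ζ = c * e q g1 g2 T ζ := by
    intro q g1 g2 c T ζ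
    rw [he, he, mul_left_comm]
    congr 1
    rw [Finset.mul_sum]
    refine Finset.sum_congr rfl fun h _ => ?_
    rw [ContinuousLinearMap.smul_apply, ContinuousLinearMap.smul_apply, map_smul]
    rfl
  set e1 : Q → (Y →L[ℂ] (Yp →L[ℂ] V)) → (W →L[ℂ] ℂ) → Γ → ℂ :=
    fun q T ζ g1 => LW (fun g2 => e q g1 g2 T ζ) with he1
  set eq : Q → (Y →L[ℂ] (Yp →L[ℂ] V)) → (W →L[ℂ] ℂ) → ℂ :=
    fun q T ζ => LW (fun g1 => e1 q T ζ g1) with heq
  have he1b : ∀ q T ζ g1, ‖e1 q T ζ g1‖ ≤ C * ‖T‖ * ‖ζ‖ := fun q T ζ g1 =>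
    hLWb _ _ (fun g2 => hebd q g1 g2 T ζ)
  have heqb : ∀ q T ζ, ‖eq q T ζ‖ ≤ C * ‖T‖ * ‖ζ‖ := fun q T ζ =>
    hLWb _ _ (fun g1 => he1b q T ζ g1)
  have he1addT : ∀ q T T' ζ g1, e1 q (T + T') ζ g1 = e1 q T ζ g1 + e1 q T' ζ g1 := by
    intro q T T' ζ g1
    show LW _ = _
    rw [show (fun g2 => e q g1 g2 (T + T') ζ) = fun g2 => e q g1 g2 T ζ + e q g1 g2 T' ζ from
      funext fun g2 => headdT q g1 g2 T T' ζ]
    exact limits_add Wu LW hLWt (fun g2 => hebd q g1 g2 T ζ) (fun g2 => hebd q g1 g2 T' ζ)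
  have he1addζ : ∀ q T ζ ζ' g1, e1 q T (ζ + ζ') g1 = e1 q T ζ g1 + e1 q T ζ' g1 := by
    intro q T ζ ζ' g1
    show LW _ = _
    rw [show (fun g2 => e q g1 g2 T (ζ + ζ')) = fun g2 => e q g1 g2 T ζ + e q g1 g2 T ζ' from
      funext fun g2 => headd q g1 g2 T ζ ζ']
    exact limits_add Wu LW hLWt (fun g2 => hebd q g1 g2 T ζ) (fun g2 => hebd q g1 g2 T ζ')
  have he1smulT : ∀ q (c : ℂ) T ζ g1, e1 q (c • T) ζ g1 = c * e1 q T ζ g1 := by
    intro q c T ζ g1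
    show LW _ = _
    rw [show (fun g2 => e q g1 g2 (c • T) ζ) = fun g2 => c * e q g1 g2 T ζ from
      funext fun g2 => hesmulT q g1 g2 c T ζ]
    exact limits_smul Wu LW hLWt (fun g2 => hebd q g1 g2 T ζ) c
  have he1smulζ : ∀ q (c : ℂ) T ζ g1, e1 q T (c • ζ) g1 = c * e1 q T ζ g1 := by
    intro q c T ζ g1
    show LW _ = _
    rw [show (fun g2 => e q g1 g2 T (c • ζ)) = fun g2 => c * e q g1 g2 T ζ from
      funext fun g2 => hesmul q g1 g2 T c ζ]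
    exact limits_smul Wu LW hLWt (fun g2 => hebd q g1 g2 T ζ) c
  have heqaddT : ∀ q T T' ζ, eq q (T + T') ζ = eq q T ζ + eq q T' ζ := by
    intro q T T' ζ
    show LW _ = _
    rw [show (fun g1 => e1 q (T + T') ζ g1) = fun g1 => e1 q T ζ g1 + e1 q T' ζ g1 from
      funext fun g1 => he1addT q T T' ζ g1]
    exact limits_add Wu LW hLWt (fun g1 => he1b q T ζ g1) (fun g1 => he1b q T' ζ g1)
  have heqaddζ : ∀ q T ζ ζ', eq q T (ζ + ζ') = eq q T ζ + eq q T ζ' := by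
    intro q T ζ ζ'
    show LW _ = _
    rw [show (fun g1 => e1 q T (ζ + ζ') g1) = fun g1 => e1 q T ζ g1 + e1 q T ζ' g1 from
      funext fun g1 => he1addζ q T ζ ζ' g1]
    exact limits_add Wu LW hLWt (fun g1 => he1b q T ζ g1) (fun g1 => he1b q T ζ' g1)
  have heqsmulT : ∀ q (c : ℂ) T ζ, eq q (c • T) ζ = c * eq q T ζ := by
    intro q c T ζ
    show LW _ = _
    rw [show (fun g1 => e1 q (c • T) ζ g1) = fun g1 => c * e1 q T ζ g1 from
      funext fun g1 => he1smulT q c T ζ g1]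
    exact limits_smul Wu LW hLWt (fun g1 => he1b q T ζ g1) c
  have heqsmulζ : ∀ q (c : ℂ) T ζ, eq q T (c • ζ) = c * eq q T ζ := by
    intro q c T ζ
    show LW _ = _
    rw [show (fun g1 => e1 q T (c • ζ) g1) = fun g1 => c * e1 q T ζ g1 from
      funext fun g1 => he1smulζ q c T ζ g1]
    exact limits_smul Wu LW hLWt (fun g1 => he1b q T ζ g1) c
  have hω1 : ∀ T T' ζ, LU (fun q => eq q (T + T') ζ) =
      LU (fun q => eq q T ζ) + LU (fun q => eq q T' ζ) := by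
    intro T T' ζ
    rw [show (fun q => eq q (T + T') ζ) = fun q => eq q T ζ + eq q T' ζ from
      funext fun q => heqaddT q T T' ζ]
    exact limits_add U LU hLUt (fun q => heqb q T ζ) (fun q => heqb q T' ζ)
  have hω2 : ∀ (c : ℂ) T ζ, LU (fun q => eq q (c • T) ζ) = c • LU (fun q => eq q T ζ) := by
    intro c T ζ
    rw [show (fun q => eq q (c • T) ζ) = fun q => c * eq q T ζ from
      funext fun q => heqsmulT q c T ζ]
    exact limits_smul U LU hLUt (fun q => heqb q T ζ) c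
  have hω3 : ∀ T ζ ζ', LU (fun q => eq q T (ζ + ζ')) =
      LU (fun q => eq q T ζ) + LU (fun q => eq q T ζ') := by
    intro T ζ ζ'
    rw [show (fun q => eq q T (ζ + ζ')) = fun q => eq q T ζ + eq q T ζ' from
      funext fun q => heqaddζ q T ζ ζ']
    exact limits_add U LU hLUt (fun q => heqb q T ζ) (fun q => heqb q T ζ')
  have hω4 : ∀ (c : ℂ) T ζ, LU (fun q => eq q T (c • ζ)) = c • LU (fun q => eq q T ζ) := by
    intro c T ζ
    rw [show (fun q => eq q T (c • ζ)) = fun q => c * eq q T ζ from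
      funext fun q => heqsmulζ q c T ζ]
    exact limits_smul U LU hLUt (fun q => heqb q T ζ) c
  let ω0 : (Y →L[ℂ] (Yp →L[ℂ] V)) →ₗ[ℂ] (W →L[ℂ] ℂ) →ₗ[ℂ] ℂ :=
    LinearMap.mk₂ ℂ (fun T ζ => LU (fun q => eq q T ζ)) hω1 hω2 hω3 (fun c T ζ => hω4 c T ζ)
  let ω : (Y →L[ℂ] (Yp →L[ℂ] V)) →L[ℂ] (W →L[ℂ] ℂ) →L[ℂ] ℂ :=
    LinearMap.mkContinuous₂ (𝕜 := ℂ) (𝕜₂ := ℂ) (𝕜₃ := ℂ) (σ₁₃ := RingHom.id ℂ)
      (σ₂₃ := RingHom.id ℂ) (E := (Y →L[ℂ] (Yp →L[ℂ] V))) (F := (W →L[ℂ] ℂ)) (G := ℂ)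
      ω0 C (fun T ζ => hLUb _ _ (fun q => heqb q T ζ))
  have hωap : ∀ T ζ, ω T ζ = LU (fun q => eq q T ζ) := fun T ζ => rfl
  refine ⟨Φ, Ψ, eq, ω, hΦ, hΨ, hΨ0, ?_, ?_, ?_, ?_, ?_⟩
  · -- threshold
    intro q T ζ c hc0 hcl
    have t1 : Tendsto (fun g1 => e1 q T ζ g1) (Wu : Filter Γ) (𝓝 (eq q T ζ)) :=
      hLWt _ _ (fun g1 => he1b q T ζ g1)
    have t2 : ∀ᶠ g1 in (Wu : Filter Γ), c < ‖e1 q T ζ g1‖ :=
      t1.norm.eventually (lt_mem_nhds hcl)
    have t3 : ∀ᶠ g1 in (Wu : Filter Γ), ∀ᶠ g2 in (Wu : Filter Γ), c < ‖e q g1 g2 T ζ‖ := by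
      filter_upwards [t2] with g1 hg1
      have t4 : Tendsto (fun g2 => e q g1 g2 T ζ) (Wu : Filter Γ) (𝓝 (e1 q T ζ g1)) :=
        hLWt _ _ (fun g2 => hebd q g1 g2 T ζ)
      exact t4.norm.eventually (lt_mem_nhds hg1)
    have t5 : ∀ g1 g2, c < ‖e q g1 g2 T ζ‖ → ∃ h,
        c < ‖ev (T (Φ q h g1) (Ψ q h ζ g2)) q g1 g2‖ := by
      intro g1 g2 hlt
      by_contra hcon
      push Not at hcon
      have hcard : (0 : ℝ) < (Fintype.card (B q).G : ℝ) := by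
        exact_mod_cast Fintype.card_pos
      rw [he, norm_mul, norm_inv, Complex.norm_natCast] at hlt
      have h1 : ‖∑ h, ev (T (Φ q h g1) (Ψ q h ζ g2)) q g1 g2‖ ≤ (Fintype.card (B q).G : ℝ) * c := by
        refine (norm_sum_le _ _).trans ?_
        refine (Finset.sum_le_card_nsmul _ _ c (fun h _ => hcon h)).trans ?_
        rw [nsmul_eq_mul, Finset.card_univ]
      have h2 : ((Fintype.card (B q).G : ℝ))⁻¹ *
          ‖∑ h, ev (T (Φ q h g1) (Ψ q h ζ g2)) q g1 g2‖ ≤ c := by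
        rw [inv_mul_le_iff₀ hcard]
        exact h1
      linarith
    have t6 : ∀ᶠ g1 in (Wu : Filter Γ), ∃ h, ∀ᶠ g2 in (Wu : Filter Γ),
        c < ‖ev (T (Φ q h g1) (Ψ q h ζ g2)) q g1 g2‖ := by
      filter_upwards [t3] with g1 hg1
      rw [← Ultrafilter.eventually_exists_iff]
      filter_upwards [hg1] with g2 hg2
      exact t5 g1 g2 hg2
    exact Ultrafilter.eventually_exists_iff.mp t6
  · intro T ζ
    rw [hωap]
    exact hLUt _ _ (fun q => heqb q T ζ)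
  · intro T w ζ hT
    rw [hωap]
    have h1 : ∀ q g1, e1 q T ζ g1 = ζ w := by
      intro q g1
      show LW _ = _
      rw [show (fun g2 => e q g1 g2 T ζ) = fun _ => ζ w from
        funext fun g2 => heκ q g1 g2 T w ζ hT]
      exact limits_const Wu LW hLWt _
    have h2 : ∀ q, eq q T ζ = ζ w := by
      intro q
      show LW _ = _
      rw [show (fun g1 => e1 q T ζ g1) = fun _ => ζ w from funext fun g1 => h1 q g1]
      exact limits_const Wu LW hLWt _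
    rw [show (fun q => eq q T ζ) = fun _ => ζ w from funext h2]
    exact limits_const U LU hLUt _
  · intro T T' a ζ hT
    rw [hωap, hωap]
    have h1 : ∀ q, eq q T' ζ = eq q T (ζ.comp (l a)) := by
      intro q
      show LW _ = LW _
      congr 1
      funext g1
      show LW _ = LW _
      congr 1
      funext g2
      exact heleft q g1 g2 T T' a ζ hT
    rw [show (fun q => eq q T' ζ) = fun q => eq q T (ζ.comp (l a)) from funext h1]
  · intro T T' a ζ hT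
    rw [hωap, hωap]
    have hK : 0 ≤ C * ‖T‖ * ‖ζ‖ := by positivity
    have key : ∀ δ : ℝ, 0 < δ → ‖LU (fun q => eq q T' ζ) - LU (fun q => eq q T (ζ.comp (r a)))‖ ≤
        C * δ * ‖T‖ * ‖ζ‖ := by
      intro δ hδ
      refine limits_dist U LU hLUt (fun q => heqb q T' ζ) (fun q => heqb q T _) ?_
      filter_upwards [hc.epsU δ hδ, hc.fU a] with q hq1 hq2
      obtain ⟨k, hk⟩ := hq2
      have h1 : ∀ g1 g2, ‖e q g1 g2 T' ζ - e q g1 g2 T (ζ.comp (r a))‖ ≤ C * δ * ‖T‖ * ‖ζ‖ := by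
        intro g1 g2
        have h2 := heright q g1 g2 T T' k ζ (by rw [hk]; exact hT)
        rw [hk] at h2
        refine h2.trans ?_
        have h3 : C * (B q).eps ≤ C * δ := mul_le_mul_of_nonneg_left hq1 hC
        have hT0 : 0 ≤ ‖T‖ := norm_nonneg T
        have hζ0 : 0 ≤ ‖ζ‖ := norm_nonneg ζ
        exact mul_le_mul_of_nonneg_right (mul_le_mul_of_nonneg_right h3 hT0) hζ0
      refine limits_dist Wu LW hLWt (fun g1 => he1b q T' ζ g1) (fun g1 => he1b q T _ g1) ?_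
      refine Filter.Eventually.of_forall fun g1 => ?_
      refine limits_dist Wu LW hLWt (fun g2 => hebd q g1 g2 T' ζ) (fun g2 => hebd q g1 g2 T _) ?_
      exact Filter.Eventually.of_forall fun g2 => h1 g1 g2
    by_contra hne
    have hN : 0 < ‖LU (fun q => eq q T' ζ) - LU (fun q => eq q T (ζ.comp (r a)))‖ := by
      rw [norm_pos_iff]
      exact sub_ne_zero.mpr hne
    set N : ℝ := ‖LU (fun q => eq q T' ζ) - LU (fun q => eq q T (ζ.comp (r a)))‖ with hNdef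
    have h1 := key (N / (2 * (C * ‖T‖ * ‖ζ‖ + 1))) (by positivity)
    have h2 : C * (N / (2 * (C * ‖T‖ * ‖ζ‖ + 1))) * ‖T‖ * ‖ζ‖ =
        (C * ‖T‖ * ‖ζ‖) / (C * ‖T‖ * ‖ζ‖ + 1) * (N / 2) := by
      field_simp
    have h3 : (C * ‖T‖ * ‖ζ‖) / (C * ‖T‖ * ‖ζ‖ + 1) ≤ 1 := by
      rw [div_le_one (by positivity)]
      linarith
    rw [h2] at h1
    have h4 : (C * ‖T‖ * ‖ζ‖) / (C * ‖T‖ * ‖ζ‖ + 1) * (N / 2) ≤ 1 * (N / 2) :=
      mul_le_mul_of_nonneg_right h3 (by positivity)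
    linarith

end Job15754

section Job15847

open Filter Set Cardinal Topology

variable {E W Q Γ V0 V Yp Y : Type u} [NormedRing E] [NormedAlgebra ℂ E]
  [NormedAddCommGroup W] [NormedSpace ℂ W] [NormedAddCommGroup V0] [NormedSpace ℂ V0]
  [NormedAddCommGroup V] [NormedSpace ℂ V] [NormedAddCommGroup Yp] [NormedSpace ℂ Yp]
  [NormedAddCommGroup Y] [NormedSpace ℂ Y]

variable {l r : E →L[ℂ] W →L[ℂ] W} {U : Ultrafilter Q} {B : Q → Blk E}
  {ev0 : V0 →ₗ[ℂ] ((Σ q, (B q).G) → Γ → ℂ)} {ev : V →ₗ[ℂ] (Q → Γ → Γ → ℂ)}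
  {jp : Yp →ₗᵢ[ℂ] (W →L[ℂ] V0)} {ra : E →L[ℂ] Yp →L[ℂ] Yp}
  {lX : E →L[ℂ] (Yp →L[ℂ] V) →L[ℂ] (Yp →L[ℂ] V)}
  {j : Y →ₗᵢ[ℂ] (W →L[ℂ] (Yp →L[ℂ] V))} {lY : E →L[ℂ] Y →L[ℂ] Y}

theorem ite_add_aux {P P1 P2 : Prop} {dP : Decidable P} {d1 : Decidable P1}
    {d2 : Decidable P2}
    (h : P ↔ P1 ∨ P2) (h' : P1 → ¬ P2) (A : ℂ) :
    (if P then A else 0) = (if P1 then A else 0) + (if P2 then A else 0) := by
  by_cases h1 : P1
  · rw [if_pos (h.2 (Or.inl h1)), if_pos h1, if_neg (h' h1), add_zero]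
  · by_cases h2 : P2
    · rw [if_pos (h.2 (Or.inr h2)), if_neg h1, if_pos h2, zero_add]
    · rw [if_neg (fun h3 => (h.1 h3).elim h1 h2), if_neg h1, if_neg h2, zero_add]

theorem ev_inj'_J15847 (h1 : FSp Q Γ U V ev) {v v' : V} (h : ∀ q g1 g2, ev v q g1 g2 = ev v' q g1 g2) :
    v = v' := by
  have h2 : ‖v - v'‖ ≤ 0 := by
    refine h1.norm_le _ 0 le_rfl fun q g2 F => ?_
    refine (Finset.sum_eq_zero fun g1 _ => ?_).le.trans (by simp)
    rw [map_sub]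
    simp [h]
  exact sub_eq_zero.1 (norm_le_zero_iff.1 h2)

theorem ev0_inj'_J15847 (h0 : FSp0 (fun q => (B q).G) Γ U V0 ev0) {v v' : V0}
    (h : ∀ s γ, ev0 v s γ = ev0 v' s γ) : v = v' := by
  have h2 : ‖v - v'‖ ≤ 0 := by
    refine h0.norm_le _ 0 le_rfl fun s γ => ?_
    rw [map_sub]
    simp [h]
  exact sub_eq_zero.1 (norm_le_zero_iff.1 h2)

theorem Y_ext' (hc : Cx l r U B ev0 ev jp ra lX j lY) {φ φ' : Y}
    (h : ∀ w y q g1 g2, ev (j φ w y) q g1 g2 = ev (j φ' w y) q g1 g2) : φ = φ' := by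
  apply j.injective
  ext w y
  exact ev_inj'_J15847 hc.h1 fun q g1 g2 => h w y q g1 g2

theorem Yp_ext' (hc : Cx l r U B ev0 ev jp ra lX j lY) {y y' : Yp}
    (h : ∀ w q g γ, ev0 (jp y w) ⟨q, g⟩ γ = ev0 (jp y' w) ⟨q, g⟩ γ) : y = y' := by
  apply jp.injective
  ext w
  exact ev0_inj'_J15847 hc.h0 fun s γ => h w s.1 s.2 γ

/-- The limit takes values in `W`. -/
theorem in_space [CompleteSpace W] (hc : Cx l r U B ev0 ev jp ra lX j lY)
    (Wu : Ultrafilter Γ) (hW : ∀ S : Set Γ, S.Finite → Sᶜ ∈ Wu)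
    (hW' : ∀ S ∈ Wu, #(Q → ℕ) ≤ #S)
    (good : ∀ S : Finset W → Set Q, (∀ F, S F ∈ U) →
      ∃ g : Q → Finset W, (∀ w, ∀ᶠ q in (U : Filter Q), w ∈ g q) ∧
        ∀ᶠ q in (U : Filter Q), q ∈ S (g q))
    (Φ : ∀ q, (B q).G → Γ → Y) (Ψ : ∀ q, (B q).G → (W →L[ℂ] ℂ) → Γ → Yp)
    (eq : Q → (Y →L[ℂ] (Yp →L[ℂ] V)) → (W →L[ℂ] ℂ) → ℂ)
    (ω : (Y →L[ℂ] (Yp →L[ℂ] V)) →L[ℂ] (W →L[ℂ] ℂ) →L[ℂ] ℂ)
    (hΦ : ∀ q h g1 w y q' g1' g2', ev (j (Φ q h g1) w y) q' g1' g2' =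
        (open Classical in if q' = q ∧ g1' = g1 then ev0 (jp y w) ⟨q, h⁻¹⟩ g2' else 0))
    (hΨ : ∀ q h ζ g2 w g γ, ev0 (jp (Ψ q h ζ g2) w) ⟨q, g⟩ γ =
        (open Classical in if γ = g2 then ζ (r ((B q).tk 0 (g * h)) w) else 0))
    (hΨ' : ∀ q h ζ g2 w q' g γ, q' ≠ q → ev0 (jp (Ψ q h ζ g2) w) ⟨q', g⟩ γ = 0)
    (heq : ∀ q T ζ (c : ℝ), 0 < c → c < ‖eq q T ζ‖ → ∃ h, ∀ᶠ g1 in (Wu : Filter Γ),
        ∀ᶠ g2 in (Wu : Filter Γ), c < ‖ev (T (Φ q h g1) (Ψ q h ζ g2)) q g1 g2‖)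
    (hω : ∀ T ζ, Tendsto (fun q => eq q T ζ) (U : Filter Q) (𝓝 (ω T ζ)))
    (T : Y →L[ℂ] (Yp →L[ℂ] V)) : ∃ w : W, ∀ ζ : W →L[ℂ] ℂ, ω T ζ = ζ w := by
  by_contra hne
  push Not at hne
  obtain ⟨c, hc0, hF⟩ := bid (ω T) hne
  choose Z hZ1 hZ0 hZc using hF
  obtain ⟨g, hg1, hg2⟩ := good (fun F => {q | c / 2 < ‖eq q T (Z F)‖}) (by
    intro F
    have h1 := (hω T (Z F)).norm
    exact h1.eventually (lt_mem_nhds (lt_trans (half_lt_self hc0) (hZc F))))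
  set Q1 : Set Q := {q | c / 2 < ‖eq q T (Z (g q))‖} with hQ1
  have hQU : Q1 ∈ U := hg2
  have hex : ∀ q, ∃ h : (B q).G, q ∈ Q1 → ∀ᶠ g1 in (Wu : Filter Γ),
      ∀ᶠ g2 in (Wu : Filter Γ),
        c / 2 < ‖ev (T (Φ q h g1) (Ψ q h (Z (g q)) g2)) q g1 g2‖ := by
    intro q
    by_cases hq : q ∈ Q1
    · obtain ⟨h, hh⟩ := heq q T (Z (g q)) (c / 2) (by positivity) hq
      exact ⟨h, fun _ => hh⟩
    · exact ⟨1, fun h => absurd h hq⟩
  choose h hh using hex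
  obtain ⟨Φ1, hΦ1, hΦn⟩ := exists_Phi hc (fun q => (h q)⁻¹)
  have hD0 : (0 : ℝ) ≤ ‖(1 : E)‖ + 1 := by positivity
  obtain ⟨Ψ1, hΨ1, hΨn⟩ := exists_Psi hc (fun q => Z (g q))
    (fun q x => (B q).tk 0 (x * h q)) Q1 1 (‖(1 : E)‖ + 1) zero_le_one hD0
    (fun q _ => hZ1 _)
    (by
      intro q _ x
      have h1 := (hc.ok q).near (x * h q)
      have h2 := (hc.ok q).eps_le
      have h3 : ‖(B q).lam (x * h q) • (1 : E)‖ ≤ ‖(1 : E)‖ := by
        rw [norm_smul]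
        exact mul_le_of_le_one_left (norm_nonneg _) ((hc.ok q).lam_le _)
      have h4 := norm_add_le ((B q).tk 0 (x * h q) - (B q).lam (x * h q) • (1 : E))
        ((B q).lam (x * h q) • (1 : E))
      rw [sub_add_cancel] at h4
      linarith)
    (by
      intro q _ k x
      have h1 : ∀ (k' : Fin ((B q).n + 1)), ∑ y, (B q).r k' y • (B q).tk 0 (y * x * h q) =
          ∑ g', (B q).r 0 g' • ∑ y, (B q).r k' y • (B q).t (y * (x * h q * g')) := by
        intro k'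
        simp only [Blk.tk, Finset.smul_sum]
        rw [Finset.sum_comm]
        refine Finset.sum_congr rfl fun g' _ => Finset.sum_congr rfl fun y _ => ?_
        rw [smul_comm]
        simp only [mul_assoc]
      rw [h1, h1, Finset.mul_sum]
      refine Finset.sum_congr rfl fun g' _ => ?_
      rw [mul_smul_comm, (hc.ok q).rel])
    (by
      intro w ε hε
      have hδ : 0 < ε / (‖r‖ * ‖w‖ + 1) := by positivity
      filter_upwards [hg1 w, hc.epsU _ hδ] with q hq1 hq2 _ x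
      have h1 := (hc.ok q).near (x * h q)
      have h2 : r ((B q).tk 0 (x * h q)) w =
          r ((B q).tk 0 (x * h q) - (B q).lam (x * h q) • (1 : E)) w +
            (B q).lam (x * h q) • w := by
        rw [map_sub, map_smul]
        simp [hc.bm.r_one]
      rw [h2, map_add, map_smul, hZ0 (g q) w hq1, smul_zero, add_zero]
      calc ‖Z (g q) (r ((B q).tk 0 (x * h q) - (B q).lam (x * h q) • (1 : E)) w)‖
          ≤ ‖Z (g q)‖ * ‖r ((B q).tk 0 (x * h q) - (B q).lam (x * h q) • (1 : E)) w‖ :=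
            (Z (g q)).le_opNorm _
        _ ≤ 1 * (‖r‖ * ‖(B q).tk 0 (x * h q) - (B q).lam (x * h q) • (1 : E)‖ * ‖w‖) := by
            gcongr
            · exact hZ1 _
            · exact r.le_opNorm₂ _ _
        _ ≤ 1 * (‖r‖ * (ε / (‖r‖ * ‖w‖ + 1)) * ‖w‖) := by
            gcongr
            exact h1.trans hq2
        _ = ε * ((‖r‖ * ‖w‖) / (‖r‖ * ‖w‖ + 1)) := by ring
        _ ≤ ε * 1 := by
            gcongr
            rw [div_le_one (by positivity)]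
            linarith
        _ = ε := mul_one _)
  let ξ : Y →ₗ[ℂ] Yp →ₗ[ℂ] (Q → Γ → Γ → ℂ) := LinearMap.mk₂ ℂ (fun φ y => ev (T φ y))
    (by intro φ φ' y; rw [map_add, add_apply, map_add])
    (by intro t φ y; rw [map_smul, smul_apply, map_smul])
    (by intro φ y y'; rw [map_add, map_add])
    (by intro t φ y; rw [map_smul, map_smul])
  have hξ : ∀ φ y, ξ φ y = ev (T φ y) := fun _ _ => rfl
  have hs : Sys (Q := Q) (G := Γ) (fun x S => Φ1 1 x (S ∩ Q1)) (fun x S => Ψ1 x S) ξ ‖T‖ 1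
      (1 * (‖(1 : E)‖ + 1) * ‖r‖) := by
    refine ⟨?_, ?_, ?_, ?_, ?_, ?_, ?_, ?_, norm_nonneg T, zero_le_one, by positivity⟩
    · intro x S S' hd
      apply Y_ext' hc
      intro w y q g1 g2
      rw [map_add, add_apply, add_apply, map_add, Pi.add_apply, Pi.add_apply, Pi.add_apply,
        hΦ1, hΦ1, hΦ1]
      have h1 : q ∈ S → q ∉ S' := fun h2 h3 => Set.disjoint_left.1 hd h2 h3
      refine ite_add_aux ?_ (fun h2 h3 => h1 h2.1.1 h3.1.1) _
      constructor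
      · rintro ⟨⟨h2 | h2, h3⟩, h4⟩
        · exact Or.inl ⟨⟨h2, h3⟩, h4⟩
        · exact Or.inr ⟨⟨h2, h3⟩, h4⟩
      · rintro (⟨⟨h2, h3⟩, h4⟩ | ⟨⟨h2, h3⟩, h4⟩)
        · exact ⟨⟨Or.inl h2, h3⟩, h4⟩
        · exact ⟨⟨Or.inr h2, h3⟩, h4⟩
    · intro x S S' hd
      apply Yp_ext' hc
      intro w q g' γ
      rw [map_add, add_apply, map_add, Pi.add_apply, Pi.add_apply, hΨ1, hΨ1, hΨ1]
      have h1 : q ∈ S → q ∉ S' := fun h2 h3 => Set.disjoint_left.1 hd h2 h3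
      refine ite_add_aux ?_ (fun h2 h3 => h1 h2.1.1 h3.1.1) _
      constructor
      · rintro ⟨⟨h2 | h2, h3⟩, h4⟩
        · exact Or.inl ⟨⟨h2, h3⟩, h4⟩
        · exact Or.inr ⟨⟨h2, h3⟩, h4⟩
      · rintro (⟨⟨h2, h3⟩, h4⟩ | ⟨⟨h2, h3⟩, h4⟩)
        · exact ⟨⟨Or.inl h2, h3⟩, h4⟩
        · exact ⟨⟨Or.inr h2, h3⟩, h4⟩
    · intro x x' S hx
      apply Y_ext' hc
      intro w y q g1 g2
      rw [hΦ1, hΦ1]
      by_cases h2 : q ∈ S
      · rw [hx q h2]
      · simp [h2]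
    · intro x x' S hx
      apply Yp_ext' hc
      intro w q g' γ
      rw [hΨ1, hΨ1]
      by_cases h2 : q ∈ S
      · rw [hx q h2]
      · simp [h2]
    · intro S n x τ hτ hi
      have := hΦn (S ∩ Q1) n x τ hτ (fun q hq => hi q hq.1)
      rw [one_mul]
      exact this
    · intro S n x τ hτ hi
      exact hΨn S n x τ hτ hi
    · intro φ y q g2 F
      rw [hξ]
      refine (hc.h1.le (T φ y) q g2 F).trans ?_
      have := T.le_opNorm₂ φ y
      gcongr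
    · intro φ y q g1 ε hε
      exact hc.h1.fin (T φ y) q g1 ε hε
  obtain ⟨x, y, hxy⟩ := phillips hs Wu hW hW' Q1 (c / 2) (by positivity) (by
    intro q hq
    have e1 : ∀ g1, Φ1 1 (fun _ => g1) ({q} ∩ Q1) = Φ q (h q) g1 := by
      intro g1
      apply Y_ext' hc
      intro w y q' g1' g2'
      rw [hΦ1, hΦ, hc.bm.r_one]
      by_cases hqq : q' = q
      · subst hqq
        by_cases hg : g1' = g1
        · rw [if_pos ⟨⟨rfl, hq⟩, hg⟩, if_pos ⟨rfl, hg⟩]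
        · rw [if_neg (fun h => hg h.2), if_neg (fun h => hg h.2)]
      · simp [hqq]
    have e2 : ∀ g2, Ψ1 (fun _ => g2) {q} = Ψ q (h q) (Z (g q)) g2 := by
      intro g2
      apply Yp_ext' hc
      intro w q' g' γ
      rw [hΨ1]
      by_cases hqq : q' = q
      · subst hqq
        rw [hΨ]
        by_cases hg : γ = g2
        · rw [if_pos ⟨⟨rfl, hq⟩, hg⟩, if_pos hg]
        · rw [if_neg (fun h => hg h.2), if_neg hg]
      · rw [hΨ' _ _ _ _ _ _ _ _ hqq]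
        simp [hqq]
    have := hh q hq
    simpa only [hξ, e1, e2] using this)
  have hlim := hc.h1.lim (T (Φ1 1 x (univ ∩ Q1)) (Ψ1 y univ)) (c / 8) (by positivity)
  obtain ⟨q, hq1, hq2⟩ := (Filter.Eventually.and hQU hlim).exists
  have h1 := hxy q hq1
  have h2 := hq2 (x q) (y q)
  rw [hξ] at h1
  linarith

end Job15847

section Job15862

open Filter Set Cardinal Topology

variable {E W Q Γ V0 V Yp Y : Type u} [NormedRing E] [NormedAlgebra ℂ E]
  [NormedAddCommGroup W] [NormedSpace ℂ W] [NormedAddCommGroup V0] [NormedSpace ℂ V0]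
  [NormedAddCommGroup V] [NormedSpace ℂ V] [NormedAddCommGroup Yp] [NormedSpace ℂ Yp]
  [NormedAddCommGroup Y] [NormedSpace ℂ Y]

variable {l r : E →L[ℂ] W →L[ℂ] W} {U : Ultrafilter Q} {B : Q → Blk E}
  {ev0 : V0 →ₗ[ℂ] ((Σ q, (B q).G) → Γ → ℂ)} {ev : V →ₗ[ℂ] (Q → Γ → Γ → ℂ)}
  {jp : Yp →ₗᵢ[ℂ] (W →L[ℂ] V0)} {ra : E →L[ℂ] Yp →L[ℂ] Yp}
  {lX : E →L[ℂ] (Yp →L[ℂ] V) →L[ℂ] (Yp →L[ℂ] V)}
  {j : Y →ₗᵢ[ℂ] (W →L[ℂ] (Yp →L[ℂ] V))} {lY : E →L[ℂ] Y →L[ℂ] Y}

set_option maxSynthPendingDepth 3 in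
theorem clm_of_bidual_aux {A W : Type u} [NormedAddCommGroup A] [NormedSpace ℂ A]
    [NormedAddCommGroup W] [NormedSpace ℂ W]
    (ω : A →L[ℂ] (W →L[ℂ] ℂ) →L[ℂ] ℂ) (e : A → W) (he : ∀ T (ζ : W →L[ℂ] ℂ), ω T ζ = ζ (e T)) :
    ∃ e' : A →L[ℂ] W, ∀ T, e' T = e T := by
  have huniq : ∀ w w' : W, (∀ ζ : W →L[ℂ] ℂ, ζ w = ζ w') → w = w' := fun w w' h =>
    (NormedSpace.eq_iff_forall_dual_eq ℂ).mpr h
  refine ⟨LinearMap.mkContinuous
    { toFun := e
      map_add' := fun S T => huniq _ _ fun ζ => by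
        rw [map_add, ← he, ← he, ← he, map_add]; rfl
      map_smul' := fun c T => huniq _ _ fun ζ => by
        rw [RingHom.id_apply, map_smul, ← he, ← he, map_smul]; rfl } ‖ω‖ (fun T => ?_),
    fun T => rfl⟩
  show ‖e T‖ ≤ ‖ω‖ * ‖T‖
  refine NormedSpace.norm_le_dual_bound ℂ (e T) (by positivity) fun ζ => ?_
  rw [← he]
  exact ContinuousLinearMap.le_opNorm₂ ω T ζ

/-- The retraction. -/
theorem retract_cx [CompleteSpace W] (hc : Cx l r U B ev0 ev jp ra lX j lY)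
    (Wu : Ultrafilter Γ) (hW : ∀ S : Set Γ, S.Finite → Sᶜ ∈ Wu)
    (hW' : ∀ S ∈ Wu, #(Q → ℕ) ≤ #S)
    (good : ∀ S : Finset W → Set Q, (∀ F, S F ∈ U) →
      ∃ g : Q → Finset W, (∀ w, ∀ᶠ q in (U : Filter Q), w ∈ g q) ∧
        ∀ᶠ q in (U : Filter Q), q ∈ S (g q)) :
    ∃ e : (Y →L[ℂ] (Yp →L[ℂ] V)) →L[ℂ] W,
      (∀ T w, (∀ φ, T φ = j φ w) → e T = w) ∧
      (∀ T T' a, (∀ φ, T' φ = lX a (T φ)) → e T' = l a (e T)) ∧
      (∀ T T' a, (∀ φ, T' φ = T (lY a φ)) → e T' = r a (e T)) := by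
  obtain ⟨Φ, Ψ, eq, ω, h1, h2, h3, h4, h5, h6, h7, h8⟩ := limits hc Wu
  choose e he using fun T => in_space hc Wu hW hW' good Φ Ψ eq ω h1 h2 h3 h4 h5 T
  obtain ⟨e', he'⟩ := clm_of_bidual_aux ω e he
  have huniq : ∀ w w' : W, (∀ ζ : W →L[ℂ] ℂ, ζ w = ζ w') → w = w' := fun w w' h =>
    (NormedSpace.eq_iff_forall_dual_eq ℂ).mpr h
  refine ⟨e', ?_, ?_, ?_⟩
  · intro T w hT
    refine huniq _ _ fun ζ => ?_
    rw [he', ← he]
    exact h6 T w ζ hT
  · intro T T' a hT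
    refine huniq _ _ fun ζ => ?_
    rw [he', ← he, h7 T T' a ζ hT, he, he']
    rfl
  · intro T T' a hT
    refine huniq _ _ fun ζ => ?_
    rw [he', ← he, h8 T T' a ζ hT, he, he']
    rfl

end Job15862

section Job15873

open Filter Set Cardinal Topology

variable {E W Q Γ V0 V Yp Y : Type u} [NormedRing E] [NormedAlgebra ℂ E]
  [NormedAddCommGroup W] [NormedSpace ℂ W] [NormedAddCommGroup V0] [NormedSpace ℂ V0]
  [NormedAddCommGroup V] [NormedSpace ℂ V] [NormedAddCommGroup Yp] [NormedSpace ℂ Yp]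
  [NormedAddCommGroup Y] [NormedSpace ℂ Y]

variable {l r : E →L[ℂ] W →L[ℂ] W} {U : Ultrafilter Q} {B : Q → Blk E}
  {ev0 : V0 →ₗ[ℂ] ((Σ q, (B q).G) → Γ → ℂ)} {ev : V →ₗ[ℂ] (Q → Γ → Γ → ℂ)}
  {jp : Yp →ₗᵢ[ℂ] (W →L[ℂ] V0)} {ra : E →L[ℂ] Yp →L[ℂ] Yp}
  {lX : E →L[ℂ] (Yp →L[ℂ] V) →L[ℂ] (Yp →L[ℂ] V)}
  {j : Y →ₗᵢ[ℂ] (W →L[ℂ] (Yp →L[ℂ] V))} {lY : E →L[ℂ] Y →L[ℂ] Y}

/-- RETRACT THEOREM: every unital Banach bimodule `W` is a retract of `B(Y, X)` for suitable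
unital left Banach modules `Y`, `X`. -/
theorem retract {E W : Type u} [NormedRing E] [NormedAlgebra ℂ E] [Infinite E]
    [NormedAddCommGroup W] [NormedSpace ℂ W] [CompleteSpace W]
    (l r : E →L[ℂ] W →L[ℂ] W) (bm : BM l r) :
    ∃ (Y X : Type u) (_ : NormedAddCommGroup Y) (_ : NormedSpace ℂ Y) (_ : CompleteSpace Y)
      (_ : NormedAddCommGroup X) (_ : NormedSpace ℂ X) (_ : CompleteSpace X)
      (lY : E →L[ℂ] Y →L[ℂ] Y) (lX : E →L[ℂ] X →L[ℂ] X)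
      (κ : W →L[ℂ] (Y →L[ℂ] X)) (e : (Y →L[ℂ] X) →L[ℂ] W),
      (∀ y, lY 1 y = y) ∧ (∀ a b y, lY (a * b) y = lY a (lY b y)) ∧
      (∀ x, lX 1 x = x) ∧ (∀ a b x, lX (a * b) x = lX a (lX b x)) ∧
      (∀ w, e (κ w) = w) ∧
      (∀ a w y, κ (l a w) y = lX a (κ w y)) ∧ (∀ a w y, κ (r a w) y = κ w (lY a y)) ∧
      (∀ T T' a, (∀ y, T' y = lX a (T y)) → e T' = l a (e T)) ∧
      (∀ T T' a, (∀ y, T' y = T (lY a y)) → e T' = r a (e T)) := by
  classical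
  obtain ⟨Q, U, good⟩ := exists_good (E ⊕ W)
  obtain ⟨g0, hg0, -⟩ := good (fun _ => Set.univ) (fun _ => Filter.univ_mem)
  have np : ∀ q, {q}ᶜ ∈ U := by
    intro q
    rw [Ultrafilter.compl_mem_iff_notMem]
    intro hq
    have hall : ∀ x : E ⊕ W, x ∈ g0 q := by
      intro x
      have h1 : ({q' | x ∈ g0 q'} ∩ {q} : Set Q) ∈ U := Filter.inter_mem (hg0 x) hq
      obtain ⟨q', hq1, hq2⟩ := U.nonempty_of_mem h1
      rw [Set.mem_singleton_iff] at hq2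
      rw [hq2] at hq1
      exact hq1
    exact Set.infinite_univ (α := E ⊕ W)
      ((g0 q).finite_toSet.subset (fun x _ => Finset.mem_coe.mpr (hall x)))
  have hB : ∀ q : Q, ∃ B : Blk E, B.Ok ∧ B.eps = 1 / (((g0 q).card : ℝ) + 1) ∧
      (∀ a ∈ (g0 q).toLeft, ∃ k, B.f k = a) := by
    intro q
    apply exists_block2
    · positivity
    · rw [div_le_one (by positivity)]
      have : (0 : ℝ) ≤ ((g0 q).card : ℝ) := by positivity
      linarith
  choose B hBok hBeps hBf using hB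
  have epsU : ∀ δ : ℝ, 0 < δ → ∀ᶠ q in (U : Filter Q), (B q).eps ≤ δ := by
    intro δ hδ
    obtain ⟨n, hn⟩ := exists_nat_one_div_lt hδ
    obtain ⟨F0, hF0⟩ := Infinite.exists_subset_card_eq (E ⊕ W) n
    have h1 : ∀ᶠ q in (U : Filter Q), ∀ x ∈ F0, x ∈ g0 q := by
      rw [Filter.eventually_all_finset]
      intro x _
      exact hg0 x
    filter_upwards [h1] with q hq
    rw [hBeps q]
    have h2 : n ≤ (g0 q).card := by
      rw [← hF0]
      exact Finset.card_le_card hq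
    have h3 : (n : ℝ) + 1 ≤ ((g0 q).card : ℝ) + 1 := by
      have : (n : ℝ) ≤ ((g0 q).card : ℝ) := by exact_mod_cast h2
      linarith
    exact (one_div_le_one_div_of_le (by positivity) h3).trans hn.le
  have fU : ∀ a : E, ∀ᶠ q in (U : Filter Q), ∃ k, (B q).f k = a := by
    intro a
    filter_upwards [hg0 (Sum.inl a)] with q hq
    exact hBf q a (Finset.mem_toLeft.mpr hq)
  have goodW : ∀ S : Finset W → Set Q, (∀ F, S F ∈ U) →
      ∃ g : Q → Finset W, (∀ w, ∀ᶠ q in (U : Filter Q), w ∈ g q) ∧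
        ∀ᶠ q in (U : Filter Q), q ∈ S (g q) := by
    intro S hS
    obtain ⟨g, hg1, hg2⟩ := good (fun F => S F.toRight) (fun F => hS _)
    refine ⟨fun q => (g q).toRight, fun w => ?_, hg2⟩
    filter_upwards [hg1 (Sum.inr w)] with q hq
    exact Finset.mem_toRight.mpr hq
  have : Nonempty Q := by
    obtain ⟨q, -⟩ := U.nonempty_of_mem (Filter.univ_mem : (Set.univ : Set Q) ∈ U)
    exact ⟨q⟩
  have : Infinite (Q → ℕ) := inferInstance
  obtain ⟨Γ, Wu, hWu⟩ := exists_ultra (Q → ℕ)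
  have hW : ∀ S : Set Γ, S.Finite → Sᶜ ∈ Wu := by
    intro S hS
    rw [Ultrafilter.compl_mem_iff_notMem]
    intro hmem
    have h1 := hWu S hmem
    have h2 : #S < ℵ₀ := Cardinal.lt_aleph0_iff_set_finite.mpr hS
    have h3 : ℵ₀ ≤ #(Q → ℕ) := Cardinal.aleph0_le_mk _
    exact absurd (h3.trans h1) (not_le.mpr h2)
  obtain ⟨V0, i1, i2, ev0, cV0, h0⟩ := exists_fsp0 (fun q => (B q).G) Γ U
  obtain ⟨V, i3, i4, ev, cV, h1⟩ := exists_fsp Q Γ U
  obtain ⟨Yp, i5, i6, jp, ra, cYp, jp_rel, jp_surj, jp_ra⟩ := exists_Yp l r bm U B ev0 h0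
  obtain ⟨lX, Y, i7, i8, j, lY, cY, lX_def, j_mod, j_surj, j_lY⟩ :=
    exists_Y (V := V) l r bm ra
  have hc : Cx l r U B ev0 ev jp ra lX j lY :=
    { bm := bm
      ok := hBok
      np := np
      epsU := epsU
      fU := fU
      h0 := h0
      h1 := h1
      jp_rel := jp_rel
      jp_surj := jp_surj
      jp_ra := jp_ra
      lX_def := lX_def
      j_mod := j_mod
      j_surj := j_surj
      j_lY := j_lY }
  obtain ⟨e, he1, he2, he3⟩ := retract_cx hc Wu hW hWu goodW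
  have ra_one : ∀ y, ra 1 y = y := by
    intro y
    apply jp.injective
    ext1 w
    rw [jp_ra, bm.l_one]
  have ra_mul : ∀ a b y, ra (a * b) y = ra b (ra a y) := by
    intro a b y
    apply jp.injective
    ext1 w
    rw [jp_ra, bm.l_mul, jp_ra, jp_ra]
  refine ⟨Y, (Yp →L[ℂ] V), i7, i8, cY, inferInstance, inferInstance, inferInstance, lY, lX,
    (j.toContinuousLinearMap).flip, e, ?_, ?_, ?_, ?_, ?_, ?_, ?_, ?_, ?_⟩
  · intro y
    apply j.injective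
    ext1 w
    rw [j_lY, bm.r_one]
  · intro a b y
    apply j.injective
    ext1 w
    rw [j_lY, bm.r_mul, j_lY, j_lY]
  · intro x
    ext1 y
    rw [lX_def, ra_one]
  · intro a b x
    ext1 y
    rw [lX_def, ra_mul, lX_def, lX_def]
  · intro w
    exact he1 _ w (fun φ => rfl)
  · intro a w y
    exact j_mod y a w
  · intro a w y
    exact (j_lY a y w).symm
  · intro T T' a h
    exact he2 T T' a h
  · intro T T' a h
    exact he3 T T' a h

end Job15873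

end Pool.Agent.Helper832U.RT
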